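import Pool.Agent.MP_c52a38_ag.Mg.Int_Value

-- part MP_c52a38_ag.Int.Perel
section

/-! The base point identity for the lattice `D4`. -/

namespace Pool.Agent.MP_c52a38_ag.Int

open MeasureTheory Complex Metric Filter Topology
open scoped ComplexConjugate

theorem perel_nsq (a : ℤ × ℤ) : ‖gi a‖ ^ 2 = (a.1 : ℝ) ^ 2 + (a.2 : ℝ) ^ 2 := by
  rw [Complex.sq_norm, Complex.normSq_apply]
  simp [gi]
  ring

theorem perel_nat (R : ℕ) (hR : 1 ≤ R) (N : ℕ) :
    ∑ m ∈ Finset.range N, (1 + ((m : ℤ) : ℝ) ^ 2 / (R : ℝ) ^ 2)⁻¹ ≤ 4 * (R : ℝ) := by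
  have hR' : (1 : ℝ) ≤ R := by exact_mod_cast hR
  have key : ∀ N : ℕ, ∑ m ∈ Finset.range N, (1 + ((m : ℤ) : ℝ) ^ 2 / (R : ℝ) ^ 2)⁻¹ ≤
      4 * R - 4 * (R : ℝ) ^ 2 / (R + N) := by
    intro N
    induction N with
    | zero =>
      have : (4 : ℝ) * (R : ℝ) ^ 2 / (R + (0 : ℕ)) = 4 * R := by
        push_cast; field_simp; ring
      rw [this]; simp
    | succ N ih =>
      rw [Finset.sum_range_succ]
      have hN : (0 : ℝ) ≤ N := Nat.cast_nonneg N
      have e1 : (1 + (((N : ℤ) : ℝ)) ^ 2 / (R : ℝ) ^ 2)⁻¹ = (R : ℝ) ^ 2 / ((R : ℝ) ^ 2 + N ^ 2) := by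
        push_cast; field_simp
      have e2 : 4 * (R : ℝ) ^ 2 / (R + N) - 4 * (R : ℝ) ^ 2 / (R + ((N + 1 : ℕ) : ℝ)) =
          4 * (R : ℝ) ^ 2 / ((R + N) * (R + N + 1)) := by
        push_cast; field_simp; ring
      have h3 : (R : ℝ) ^ 2 / ((R : ℝ) ^ 2 + N ^ 2) ≤ 4 * (R : ℝ) ^ 2 / ((R + N) * (R + N + 1)) := by
        rw [div_le_div_iff₀ (by positivity) (by positivity)]
        have h4 : ((R : ℝ) + N) * (R + N + 1) ≤ 4 * ((R : ℝ) ^ 2 + N ^ 2) := by
          nlinarith [sq_nonneg ((R : ℝ) - N), mul_nonneg hN hN]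
        nlinarith [mul_le_mul_of_nonneg_left h4 (sq_nonneg (R : ℝ))]
      rw [e1]; linarith
  have := key N
  have h0 : 0 ≤ 4 * (R : ℝ) ^ 2 / (R + N) := by positivity
  linarith

theorem perel_int (R : ℕ) (hR : 1 ≤ R) :
    ∃ s : ℝ, s ≤ 8 * R ∧ HasSum (fun m : ℤ => (1 + (m : ℝ) ^ 2 / (R : ℝ) ^ 2)⁻¹) s := by
  have hs : Summable fun m : ℕ => (1 + ((m : ℤ) : ℝ) ^ 2 / (R : ℝ) ^ 2)⁻¹ :=
    summable_of_sum_range_le (fun m => by positivity) (perel_nat R hR)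
  have hl : ∑' m : ℕ, (1 + ((m : ℤ) : ℝ) ^ 2 / (R : ℝ) ^ 2)⁻¹ ≤ 4 * (R : ℝ) :=
    Real.tsum_le_of_sum_range_le (fun m => by positivity) (perel_nat R hR)
  have h := HasSum.of_nat_of_neg (f := fun m : ℤ => (1 + (m : ℝ) ^ 2 / (R : ℝ) ^ 2)⁻¹)
    hs.hasSum (by simpa using hs.hasSum)
  refine ⟨_, ?_, h⟩
  have : (0 : ℝ) ≤ (1 + ((0 : ℤ) : ℝ) ^ 2 / (R : ℝ) ^ 2)⁻¹ := by positivity
  simp only [Int.cast_natCast] at hl ⊢
  linarith

/-- `1 + m^2 + n^2` squared dominates `(1 + m^2) (1 + n^2)`; product of summable families. -/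
theorem summable_gi : Summable fun a : ℤ × ℤ => ((1 + ‖gi a‖ ^ 2) ^ 2)⁻¹ := by
  obtain ⟨s, -, hs⟩ := perel_int 1 le_rfl
  have h := hs.summable.mul_of_nonneg hs.summable (fun m => by positivity) (fun m => by positivity)
  refine Summable.of_nonneg_of_le (fun a => by positivity) (fun a => ?_) h
  rw [perel_nsq, ← mul_inv]
  refine inv_anti₀ (by positivity) ?_
  simp only [Nat.cast_one, one_pow, div_one]
  nlinarith [sq_nonneg (a.1 : ℝ), sq_nonneg (a.2 : ℝ), mul_nonneg (sq_nonneg (a.1 : ℝ)) (sq_nonneg (a.2 : ℝ)),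
    sq_nonneg ((a.1 : ℝ) ^ 2), sq_nonneg ((a.2 : ℝ) ^ 2)]

/-- A lattice sum at scale `R`. -/
theorem sum_gi : ∃ C : ℝ, 0 < C ∧ ∀ R : ℕ, 1 ≤ R → ∀ s : Finset (ℤ × ℤ),
    ∑ a ∈ s, ((1 + ‖gi a‖ ^ 2 / (R : ℝ) ^ 2) ^ 4)⁻¹ ≤ C * (R : ℝ) ^ 2 := by
  refine ⟨64, by norm_num, fun R hR t => ?_⟩
  obtain ⟨s, hl, hs⟩ := perel_int R hR
  have h := hs.summable.mul_of_nonneg hs.summable (fun m => by positivity) (fun m => by positivity)
  have hp := hs.mul hs h
  have h0 : 0 ≤ s := hs.nonneg fun m => by positivity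
  calc ∑ a ∈ t, ((1 + ‖gi a‖ ^ 2 / (R : ℝ) ^ 2) ^ 4)⁻¹
      ≤ ∑ a ∈ t, (1 + (a.1 : ℝ) ^ 2 / (R : ℝ) ^ 2)⁻¹ * (1 + (a.2 : ℝ) ^ 2 / (R : ℝ) ^ 2)⁻¹ := by
        refine Finset.sum_le_sum fun a _ => ?_
        rw [perel_nsq, ← mul_inv, add_div]
        refine inv_anti₀ (by positivity) ?_
        have hx : 0 ≤ (a.1 : ℝ) ^ 2 / (R : ℝ) ^ 2 := by positivity
        have hy : 0 ≤ (a.2 : ℝ) ^ 2 / (R : ℝ) ^ 2 := by positivity
        generalize (a.1 : ℝ) ^ 2 / (R : ℝ) ^ 2 = x at hx ⊢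
        generalize (a.2 : ℝ) ^ 2 / (R : ℝ) ^ 2 = y at hy ⊢
        have h1 : (1 + x) * (1 + y) ≤ (1 + (x + y)) ^ 2 := by nlinarith [mul_nonneg hx hy]
        have h2 : (1 + (x + y)) ^ 2 ≤ (1 + (x + y)) ^ 4 :=
          pow_le_pow_right₀ (by linarith) (by norm_num)
        linarith
    _ ≤ s * s := sum_le_hasSum t (fun a _ => by positivity) hp
    _ ≤ 64 * (R : ℝ) ^ 2 := by nlinarith

theorem perel_shift {G : ℂ → ℂ} (hG : Differentiable ℂ G) (h1 : ∀ z, G (z + 1) = G z) :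
    ∫ x in (0 : ℝ)..1, G x = ∫ x in (0 : ℝ)..1, G (x + I) := by
  have h := Complex.integral_boundary_rect_eq_zero_of_differentiableOn G 0 (1 + I)
    hG.differentiableOn
  have e : ∀ y : ℝ, G (1 + y * I) = G (y * I) := fun y => by rw [add_comm, h1]
  simp [e] at h
  exact sub_eq_zero.mp h

theorem perel_even {Q : ℂ → ℂ} (hQ : Differentiable ℂ Q) (h1 : ∀ z, Q (z + 1) = -Q z)
    (h2 : ∀ z, Q (z + I) = -cexp (Real.pi - 2 * Real.pi * I * z) * Q z)
    (h3 : ∀ z, Q (-z) = Q z) : Q 0 = 0 := by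
  set G : ℤ → ℂ → ℂ := fun n z => cexp (-(2 * Real.pi * I * (n + 1 / 2) * z)) * Q z with hG
  have hGd : ∀ n, Differentiable ℂ (G n) := fun n => by
    simp only [hG]; fun_prop
  have hG1 : ∀ n z, G n (z + 1) = G n z := fun n z => by
    simp only [hG]
    have e : -(2 * Real.pi * I * (n + 1 / 2) * (z + 1)) =
        -(2 * Real.pi * I * (n + 1 / 2) * z) + ((-n - 1 : ℤ) : ℂ) * (2 * Real.pi * I) +
          Real.pi * I := by
      push_cast; ring
    rw [e, h1, exp_add, exp_add, exp_int_mul_two_pi_mul_I, exp_pi_mul_I]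
    ring
  set c : ℤ → ℂ := fun n => ∫ x in (0 : ℝ)..1, G n x with hc
  have hrec : ∀ n : ℤ, c n = -cexp (2 * Real.pi * (n + 1)) * c (n + 1) := fun n => by
    simp only [hc]
    rw [perel_shift (hGd n) (hG1 n), ← intervalIntegral.integral_const_mul]
    refine intervalIntegral.integral_congr fun x _ => ?_
    simp only [hG]
    rw [h2]
    have e : cexp (-(2 * Real.pi * I * (n + 1 / 2) * (x + I))) *
        cexp (Real.pi - 2 * Real.pi * I * x) = cexp (2 * Real.pi * (n + 1)) *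
          cexp (-(2 * Real.pi * I * (((n + 1 : ℤ) : ℂ) + 1 / 2) * x)) := by
      rw [← exp_add, ← exp_add]
      congr 1
      push_cast
      linear_combination (-2 * Real.pi * (n + 1 / 2)) * I_mul_I
    linear_combination (-Q x) * e
  have hsym : c (-1) = c 0 := by
    simp only [hc]
    have e : ∀ x : ℝ, G (-1) x = G 0 ((1 - x : ℝ) : ℂ) := fun x => by
      have e1 : ((1 - x : ℝ) : ℂ) = -x + 1 := by push_cast; ring
      rw [e1, hG1]
      simp only [hG]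
      rw [h3]
      congr 2
      push_cast; ring
    simp only [e]
    rw [intervalIntegral.integral_comp_sub_left (fun x : ℝ => G 0 x) 1]
    simp
  have h0 : c 0 = 0 := by
    have := hrec (-1)
    rw [hsym] at this
    simp at this
    linear_combination (1 / 2 : ℂ) * this
  have hall : ∀ n, c n = 0 := fun n => by
    induction n using Int.induction_on with
    | zero => exact h0
    | succ n ih =>
      have := hrec n
      rw [ih] at this
      exact (mul_eq_zero.mp this.symm).resolve_left (neg_ne_zero.mpr (exp_ne_zero _))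
    | pred n ih =>
      rw [hrec, sub_add_cancel, ih, mul_zero]
  have hper : Function.Periodic (fun x : ℝ => G 0 x) 1 := fun x => by
    simp only [ofReal_add, ofReal_one]; exact hG1 0 x
  have hcont : Continuous fun x : ℝ => G 0 x := (hGd 0).continuous.comp continuous_ofReal
  let F : C(AddCircle (1 : ℝ), ℂ) := ⟨hper.lift, continuous_coinduced_dom.mpr hcont⟩
  have hF : ∀ n, fourierCoeff F n = 0 := fun n => by
    rw [fourierCoeff_eq_intervalIntegral F n 0, ← hall n]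
    simp only [hc, div_one, one_smul, zero_add]
    refine intervalIntegral.integral_congr fun x _ => ?_
    have e : F (x : AddCircle (1 : ℝ)) = G 0 x := rfl
    simp only [e, fourier_coe_apply, smul_eq_mul, hG]
    rw [← mul_assoc, ← exp_add]
    congr 2
    push_cast; ring
  have hs := has_pointwise_sum_fourier_series_of_summable (f := F)
    (by rw [funext hF]; exact summable_zero) ((0 : ℝ) : AddCircle (1 : ℝ))
  simp only [hF, zero_smul] at hs
  have e : F ((0 : ℝ) : AddCircle (1 : ℝ)) = G 0 (0 : ℝ) := rfl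
  have := hasSum_zero.unique hs
  rw [e] at this
  simpa [hG] using this.symm

/-- An entire function with `P (z + 1) = -P z` and `P (z + I) = -exp (π - 2 π I z) P z` vanishes
at `0`. -/
theorem odd_theta {P : ℂ → ℂ} (hP : Differentiable ℂ P) (h1 : ∀ z, P (z + 1) = -P z)
    (h2 : ∀ z, P (z + I) = -cexp (Real.pi - 2 * Real.pi * I * z) * P z) : P 0 = 0 := by
  have h := perel_even (Q := fun z => P z + P (-z)) (by fun_prop) (fun z => ?_) (fun z => ?_)
    (fun z => by rw [neg_neg, add_comm])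
  · simp only [neg_zero] at h
    linear_combination (1 / 2 : ℂ) * h
  · have := h1 (-(z + 1))
    rw [show -(z + 1) + 1 = -z by ring] at this
    rw [h1, this]; ring
  · have := h2 (-(z + I))
    rw [show -(z + I) + I = -z by ring] at this
    have e : cexp (Real.pi - 2 * Real.pi * I * z) *
        cexp (Real.pi - 2 * Real.pi * I * (-(z + I))) = 1 := by
      rw [← exp_add, ← exp_zero]
      congr 1
      linear_combination (2 * Real.pi) * I_mul_I
    rw [h2, this]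
    linear_combination (-P (-(z + I))) * e

/-- the exponent of the Poincare series -/
noncomputable def perelE (a : ℤ × ℤ) (z : ℂ) : ℂ :=
  Real.pi * I * (a.1 + a.2) - Real.pi * (a.2 : ℂ) ^ 2 + 2 * Real.pi * I * a.2 * z -
    Real.pi * (z + gi a) ^ 2 / 2

theorem perel_re (a : ℤ × ℤ) (z : ℂ) :
    (perelE a z).re + Real.pi / 2 * ‖z + gi a‖ ^ 2 = Real.pi * z.im ^ 2 := by
  rw [Complex.sq_norm, Complex.normSq_apply]
  simp [perelE, gi, pow_two]
  ring

theorem perel_sign (k : ℤ) : cexp (k * (Real.pi * I)) = if Even k then 1 else -1 := by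
  rw [exp_int_mul, exp_pi_mul_I]
  split_ifs with h
  · exact h.neg_one_zpow
  · exact (Int.not_even_iff_odd.mp h).neg_one_zpow

/-- The Poincare series identity in one variable. -/
theorem perel_one {f : ℂ → ℂ} (hf : Differentiable ℂ f) {C : ℝ}
    (hb : ∀ z, ‖f z‖ ≤ C * Real.exp (Real.pi / 2 * ‖z‖ ^ 2) / (1 + ‖z‖ ^ 2) ^ 2) :
    HasSum (fun a : ℤ × ℤ => (if Even (a.1 * a.2 + a.1 + a.2) then (1 : ℂ) else -1) *
      (Real.exp (-(Real.pi / 2 * ‖gi a‖ ^ 2)) : ℝ) * f (gi a)) 0 := by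
  have hC : 0 ≤ C := by simpa using (norm_nonneg _).trans (hb 0)
  set T : ℤ × ℤ → ℂ → ℂ := fun a z => cexp (perelE a z) * f (z + gi a) with hT
  have hTd : ∀ a, Differentiable ℂ (T a) := fun a => by
    simp only [hT, perelE]; fun_prop
  have hbd : ∀ (R : ℝ) (a : ℤ × ℤ) (z : ℂ), z ∈ ball (0 : ℂ) R → ‖T a z‖ ≤
      (C * Real.exp (Real.pi * R ^ 2) * (2 * (1 + R ^ 2)) ^ 2) * ((1 + ‖gi a‖ ^ 2) ^ 2)⁻¹ := by
    intro R a z hz
    rw [mem_ball_zero_iff] at hz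
    have hz0 := norm_nonneg z
    have hz2 : ‖z‖ ^ 2 ≤ R ^ 2 := pow_le_pow_left₀ hz0 hz.le 2
    have him : z.im ^ 2 ≤ R ^ 2 := by
      refine le_trans ?_ hz2
      rw [← sq_abs]
      exact pow_le_pow_left₀ (abs_nonneg _) (abs_im_le_norm z) 2
    have h1 : ‖T a z‖ ≤ C * Real.exp (Real.pi * z.im ^ 2) / (1 + ‖z + gi a‖ ^ 2) ^ 2 := by
      simp only [hT]
      rw [norm_mul, norm_exp, ← perel_re a z, Real.exp_add]
      refine (mul_le_mul_of_nonneg_left (hb _) (Real.exp_pos _).le).trans_eq ?_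
      ring
    have h2 : 1 + ‖gi a‖ ^ 2 ≤ 2 * (1 + R ^ 2) * (1 + ‖z + gi a‖ ^ 2) := by
      have h3 : ‖gi a‖ ≤ ‖z + gi a‖ + ‖z‖ := by
        simpa using norm_sub_le (z + gi a) z
      have h4 := pow_le_pow_left₀ (norm_nonneg _) h3 2
      nlinarith [sq_nonneg (‖z + gi a‖ - ‖z‖), mul_nonneg (sq_nonneg R) (sq_nonneg ‖z + gi a‖),
        sq_nonneg R, sq_nonneg ‖z + gi a‖]
    refine h1.trans ?_
    rw [← div_eq_mul_inv, div_le_div_iff₀ (by positivity) (by positivity)]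
    have h5 : Real.exp (Real.pi * z.im ^ 2) ≤ Real.exp (Real.pi * R ^ 2) :=
      Real.exp_le_exp.mpr (mul_le_mul_of_nonneg_left him Real.pi_pos.le)
    have h6 := pow_le_pow_left₀ (by positivity) h2 2
    calc C * Real.exp (Real.pi * z.im ^ 2) * (1 + ‖gi a‖ ^ 2) ^ 2
        ≤ C * Real.exp (Real.pi * R ^ 2) * (2 * (1 + R ^ 2) * (1 + ‖z + gi a‖ ^ 2)) ^ 2 := by
          gcongr
      _ = _ := by ring
  have hsum : ∀ z, Summable fun a => T a z := fun z =>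
    Summable.of_norm_bounded (summable_gi.mul_left _) fun a =>
      hbd (‖z‖ + 1) a z (by simp)
  have hP : Differentiable ℂ fun z => ∑' a, T a z := fun z =>
    (differentiableOn_tsum_of_summable_norm (summable_gi.mul_left _)
      (fun a => (hTd a).differentiableOn) isOpen_ball (hbd (‖z‖ + 1))).differentiableAt
      (isOpen_ball.mem_nhds (by simp))
  have h0 := odd_theta hP (fun z => ?_) (fun z => ?_)
  · have hs := (hsum 0).hasSum
    rw [h0] at hs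
    convert hs using 2 with a
    simp only [hT, zero_add]
    congr 1
    have e : perelE a 0 = ((a.1 * a.2 + a.1 + a.2 : ℤ) : ℂ) * (Real.pi * I) +
        ((-(Real.pi / 2 * ‖gi a‖ ^ 2) : ℝ) : ℂ) + ((-(a.1 * a.2) : ℤ) : ℂ) * (2 * Real.pi * I) := by
      rw [perel_nsq]
      simp only [perelE, gi]
      push_cast
      linear_combination (-Real.pi * (a.2 : ℂ) ^ 2 / 2) * I_mul_I
    rw [e, exp_add, exp_add, exp_int_mul_two_pi_mul_I, perel_sign, ofReal_exp, mul_one]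
  · rw [← tsum_neg, ← (Equiv.addRight ((1, 0) : ℤ × ℤ)).tsum_eq fun a => -T a z]
    refine tsum_congr fun a => ?_
    have e0 : gi (a + (1, 0)) = 1 + gi a := by simp [gi]; ring
    have e : perelE a (z + 1) = perelE (a + (1, 0)) z + ((a.2 - 1 : ℤ) : ℂ) * (2 * Real.pi * I) +
        Real.pi * I := by
      simp only [perelE, e0, Prod.fst_add, Prod.snd_add]
      push_cast; ring
    simp only [hT, Equiv.coe_addRight]
    rw [e, e0, exp_add, exp_add, exp_int_mul_two_pi_mul_I, exp_pi_mul_I, add_assoc]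
    ring
  · rw [← tsum_mul_left, ← (Equiv.addRight ((0, 1) : ℤ × ℤ)).tsum_eq
      fun a => -cexp (Real.pi - 2 * Real.pi * I * z) * T a z]
    refine tsum_congr fun a => ?_
    have e0 : gi (a + (0, 1)) = I + gi a := by simp [gi]; ring
    have e : perelE a (z + I) = perelE (a + (0, 1)) z + (Real.pi - 2 * Real.pi * I * z) +
        ((-1 : ℤ) : ℂ) * (2 * Real.pi * I) + Real.pi * I := by
      simp only [perelE, e0, Prod.fst_add, Prod.snd_add]
      push_cast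
      linear_combination (2 * Real.pi * a.2) * I_mul_I
    simp only [hT, Equiv.coe_addRight]
    rw [e, e0, exp_add, exp_add, exp_add, exp_int_mul_two_pi_mul_I, exp_pi_mul_I, add_assoc]
    ring

theorem perel_congr {ι : Type} {f g : ι → ℂ} {a : ℂ} (h : HasSum f a) (e : ∀ i, g i = f i) :
    HasSum g a := (funext e : g = f) ▸ h

theorem perel_half {F : ℂ → ℂ → ℂ} (h2 : ∀ a, Differentiable ℂ (F a)) {C : ℝ}
    (hb : ∀ a b, ‖F a b‖ ≤ C * Real.exp (Real.pi / 2 * (‖a‖ ^ 2 + ‖b‖ ^ 2)) /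
      ((1 + ‖a‖ ^ 2) ^ 2 * (1 + ‖b‖ ^ 2) ^ 2)) :
    HasSum (fun p : P4 => ((if Even (p.1.1 * p.1.2) then (1 : ℂ) else -1) *
      (if Even (p.2.1 * p.2.2 + p.2.1 + p.2.2) then (1 : ℂ) else -1)) *
      (Real.exp (-(Real.pi / 2 * (‖gi p.1‖ ^ 2 + ‖gi p.2‖ ^ 2))) : ℝ) *
      F (gi p.1) (gi p.2)) 0 := by
  have hs : Summable (fun p : P4 => ((if Even (p.1.1 * p.1.2) then (1 : ℂ) else -1) *
      (if Even (p.2.1 * p.2.2 + p.2.1 + p.2.2) then (1 : ℂ) else -1)) *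
      (Real.exp (-(Real.pi / 2 * (‖gi p.1‖ ^ 2 + ‖gi p.2‖ ^ 2))) : ℝ) *
      F (gi p.1) (gi p.2)) := by
    refine Summable.of_norm_bounded ((summable_gi.mul_of_nonneg summable_gi
      (fun a => by positivity) (fun a => by positivity)).mul_left C) fun p => ?_
    have e1 : ‖(if Even (p.1.1 * p.1.2) then (1 : ℂ) else -1) *
      (if Even (p.2.1 * p.2.2 + p.2.1 + p.2.2) then (1 : ℂ) else -1)‖ = 1 := by
      split_ifs <;> simp
    rw [norm_mul, norm_mul, e1, one_mul, norm_real, Real.norm_of_nonneg (Real.exp_pos _).le]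
    refine (mul_le_mul_of_nonneg_left (hb _ _) (Real.exp_pos _).le).trans_eq ?_
    rw [Real.exp_neg]
    field_simp
  have h := hs.hasSum.prod_fiberwise (g := fun _ => 0) fun a => ?_
  · have h0 := h.unique hasSum_zero
    exact h0 ▸ hs.hasSum
  · have h1 := (perel_one (h2 (gi a))
      (C := C * Real.exp (Real.pi / 2 * ‖gi a‖ ^ 2) / (1 + ‖gi a‖ ^ 2) ^ 2) fun b => by
        refine (hb _ _).trans_eq ?_
        rw [mul_add, Real.exp_add]
        field_simp).mul_left ((if Even (a.1 * a.2) then (1 : ℂ) else -1) *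
          (Real.exp (-(Real.pi / 2 * ‖gi a‖ ^ 2)) : ℝ))
    rw [mul_zero] at h1
    refine perel_congr h1 fun b => ?_
    rw [mul_add, neg_add, Real.exp_add, ofReal_mul]
    ring

/-- The Poincare series identity in two variables for the lattice `D4`. -/
theorem perel_two {F : ℂ → ℂ → ℂ} (h1 : ∀ b, Differentiable ℂ fun a => F a b)
    (h2 : ∀ a, Differentiable ℂ (F a)) {C : ℝ}
    (hb : ∀ a b, ‖F a b‖ ≤ C * Real.exp (Real.pi / 2 * (‖a‖ ^ 2 + ‖b‖ ^ 2)) /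
      ((1 + ‖a‖ ^ 2) ^ 2 * (1 + ‖b‖ ^ 2) ^ 2)) :
    HasSum (fun p : P4 => sg p * (Real.exp (-(Real.pi / 2 * (‖gi p.1‖ ^ 2 + ‖gi p.2‖ ^ 2))) : ℝ) *
      F (gi p.1) (gi p.2)) 0 := by
  have ha := perel_half h2 hb
  have hb' := perel_half (F := fun b a => F a b) h1 (C := C) fun b a => by
    rw [add_comm (‖b‖ ^ 2), mul_comm ((1 + ‖b‖ ^ 2) ^ 2)]
    exact hb a b
  have hc := (Equiv.prodComm (ℤ × ℤ) (ℤ × ℤ)).hasSum_iff.mpr hb'
  have hd := (ha.add hc).mul_left (1 / 2 : ℂ)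
  rw [add_zero, mul_zero] at hd
  refine perel_congr hd fun p => ?_
  have e : sg p = 1 / 2 * ((if Even (p.1.1 * p.1.2) then (1 : ℂ) else -1) *
      (if Even (p.2.1 * p.2.2 + p.2.1 + p.2.2) then (1 : ℂ) else -1) +
      (if Even (p.2.1 * p.2.2) then (1 : ℂ) else -1) *
      (if Even (p.1.1 * p.1.2 + p.1.1 + p.1.2) then (1 : ℂ) else -1)) := by
    unfold sg Ev
    generalize p.1.1 * p.1.2 = u
    generalize p.2.1 * p.2.2 = v
    simp only [Int.even_add]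
    by_cases k1 : Even u <;> by_cases k2 : Even v <;> by_cases k3 : Even p.1.1 <;>
      by_cases k4 : Even p.1.2 <;> by_cases k5 : Even p.2.1 <;> by_cases k6 : Even p.2.2 <;>
      simp [k1, k2, k3, k4, k5, k6] <;> norm_num
  simp only [Function.comp, Equiv.prodComm_apply, Prod.fst_swap, Prod.snd_swap]
  rw [e, add_comm (‖gi p.2‖ ^ 2)]
  ring_nf

end Pool.Agent.MP_c52a38_ag.Int

end

-- part MP_c52a38_ag.Int.Shift
section

/-! Translations, weights and boxes. -/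

namespace Pool.Agent.MP_c52a38_ag.Int

open MeasureTheory Complex Metric Filter Topology Pool.Agent.MP_c0606f_ag.Klt
open scoped ENNReal ContDiff ComplexConjugate

noncomputable def lin (a b : ℂ) (z : E3) : ℂ := Real.pi * (z 0 * conj a + z 1 * conj b)

noncomputable def hf (a b : ℂ) : ℝ := Real.pi / 2 * (‖a‖ ^ 2 + ‖b‖ ^ 2)

noncomputable def ee (a b : ℂ) (z : E3) : ℂ := cexp (lin a b z - hf a b)

noncomputable def shift (a b : ℂ) (U : E3 → ℂ) (z : E3) : ℂ :=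
  U (z + pt a b) * cexp (-lin a b z - hf a b)

noncomputable def wR (R : ℝ) (a b : ℂ) : ℝ :=
  (1 + ‖a‖ ^ 2 / R ^ 2) ^ 4 * (1 + ‖b‖ ^ 2 / R ^ 2) ^ 4

theorem wR_pos (R : ℝ) (a b : ℂ) : 0 < wR R a b := by unfold wR; positivity

theorem pt0 (a b : ℂ) : pt a b 0 = a := rfl
theorem pt1 (a b : ℂ) : pt a b 1 = b := rfl
theorem pt2 (a b : ℂ) : pt a b 2 = 0 := rfl

theorem nsq_add (z a : ℂ) : ‖z + a‖ ^ 2 = ‖z‖ ^ 2 + ‖a‖ ^ 2 + 2 * (z * conj a).re := by
  simp only [Complex.sq_norm, normSq_add]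

theorem lin_re (a b : ℂ) (z : E3) :
    (lin a b z).re = Real.pi * ((z 0 * conj a).re + (z 1 * conj b).re) := by
  rw [lin, re_ofReal_mul, add_re]

theorem diff_lin (a b : ℂ) : Differentiable ℂ (lin a b) := by unfold lin; fun_prop

theorem diff_ee (a b : ℂ) : Differentiable ℂ (ee a b) := ((diff_lin a b).sub_const _).cexp

theorem diff_shift (a b : ℂ) {U : E3 → ℂ} (hU : Differentiable ℂ U) :
    Differentiable ℂ (shift a b U) :=
  (hU.comp (differentiable_id.add_const _)).mul ((diff_lin a b).neg.sub_const _).cexp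

theorem norm_shift (k : ℝ) (a b : ℂ) (U : E3 → ℂ) (z : E3) : ‖shift a b U z‖ ^ 2 =
    ‖U (z + pt a b)‖ ^ 2 * (Real.exp (-(Real.pi * hq k (z + pt a b))) *
      Real.exp (Real.pi * hq k z)) := by
  rw [shift, norm_mul, mul_pow, norm_exp, ← Real.exp_add, sq (Real.exp _), ← Real.exp_add]
  congr 2
  simp only [sub_re, neg_re, lin_re, ofReal_re, hf, hq, Pi.add_apply, pt0, pt1, pt2, add_zero,
    nsq_add]
  ring

theorem norm_ee {k : ℝ} (hk : 0 ≤ k) (a b : ℂ) (z : E3) :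
    ‖ee a b z‖ ^ 2 ≤ Real.exp (Real.pi * hq k z) := by
  rw [ee, norm_exp, sq, ← Real.exp_add]
  refine Real.exp_le_exp.2 ?_
  have h : ∀ z a : ℂ, 2 * (z * conj a).re ≤ ‖z‖ ^ 2 + ‖a‖ ^ 2 := fun z a => by
    have h1 := nsq_add z (-a)
    rw [map_neg, mul_neg, neg_re, norm_neg] at h1
    nlinarith [sq_nonneg ‖z + -a‖]
  simp only [sub_re, lin_re, ofReal_re, hf, hq]
  nlinarith [mul_le_mul_of_nonneg_left (add_le_add (h (z 0) a) (h (z 1) b)) Real.pi_pos.le,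
    mul_nonneg Real.pi_pos.le (mul_nonneg hk (sq_nonneg ‖z 2‖))]

theorem shift_zero (a b : ℂ) (U : E3 → ℂ) :
    shift a b U 0 = U (pt a b) * (Real.exp (-hf a b) : ℝ) := by
  simp [shift, lin]

theorem ee_pt (a b : ℂ) : ee a b (pt a b) * (Real.exp (-hf a b) : ℝ) = 1 := by
  rw [ee, ofReal_exp, ← Complex.exp_add, ← Complex.exp_zero]
  congr 1
  simp only [lin, hf, pt0, pt1, mul_conj']
  push_cast
  ring

theorem wR_le {R : ℝ} (hR : 1 ≤ R) (a b : ℂ) {z : E3} (hz : z ∈ ball (0 : E3) (1 / 4)) :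
    wR R a b ≤ 256 * wR R (z 0 + a) (z 1 + b) := by
  have h : ∀ (j : Fin 3) (a : ℂ), 1 + ‖a‖ ^ 2 / R ^ 2 ≤ 2 * (1 + ‖z j + a‖ ^ 2 / R ^ 2) :=
    fun j a => by
      have h1 := sq_add_le (z j + a) (-z j)
      rw [norm_neg, show z j + a + -z j = a by ring] at h1
      have h2 := pow_le_pow_left₀ (norm_nonneg _)
        ((norm_le_pi_norm z j).trans (mem_ball_zero_iff.1 hz).le) 2
      have h3 : ‖a‖ ^ 2 / R ^ 2 ≤ (2 * ‖z j + a‖ ^ 2 + R ^ 2) / R ^ 2 :=
        div_le_div_of_nonneg_right (by nlinarith) (by positivity)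
      rw [add_div, div_self (by positivity), mul_div_assoc] at h3
      linarith
  unfold wR
  calc _ ≤ (2 * (1 + ‖z 0 + a‖ ^ 2 / R ^ 2)) ^ 4 * (2 * (1 + ‖z 1 + b‖ ^ 2 / R ^ 2)) ^ 4 := by
        gcongr
        exacts [h 0 a, h 1 b]
    _ = _ := by ring

theorem wR_box {R : ℝ} (hR : 1 ≤ R) {a b : ℂ} (ha : ‖a‖ ^ 2 ≤ 8 * R ^ 2) (hb : ‖b‖ ^ 2 ≤ 8 * R ^ 2)
    {z : E3} (hz : z ∈ ball (0 : E3) (1 / 2)) : wR R (z 0 + a) (z 1 + b) ≤ 18 ^ 8 := by
  have h : ∀ (j : Fin 3) (a : ℂ), ‖a‖ ^ 2 ≤ 8 * R ^ 2 → 1 + ‖z j + a‖ ^ 2 / R ^ 2 ≤ 18 :=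
    fun j a ha => by
      have h2 := pow_le_pow_left₀ (norm_nonneg _)
        ((norm_le_pi_norm z j).trans (mem_ball_zero_iff.1 hz).le) 2
      have h3 : ‖z j + a‖ ^ 2 / R ^ 2 ≤ 17 := by
        rw [div_le_iff₀ (by positivity)]
        nlinarith [sq_add_le (z j) a]
      linarith
  unfold wR
  calc _ ≤ (18 : ℝ) ^ 4 * 18 ^ 4 := by
        gcongr
        exacts [h 0 a ha, h 1 b hb]
    _ = _ := by norm_num

theorem wR_ge {R : ℝ} (hR : 1 ≤ R) (a b : ℂ) :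
    ((1 + ‖a‖ ^ 2) ^ 2 * (1 + ‖b‖ ^ 2) ^ 2) ^ 2 ≤ (R ^ 8) ^ 2 * wR R a b := by
  have h : ∀ a : ℂ, 1 + ‖a‖ ^ 2 ≤ R ^ 2 * (1 + ‖a‖ ^ 2 / R ^ 2) := fun a => by
    rw [mul_add, mul_div_cancel₀ _ (by positivity)]
    nlinarith
  unfold wR
  calc _ = (1 + ‖a‖ ^ 2) ^ 4 * (1 + ‖b‖ ^ 2) ^ 4 := by ring
    _ ≤ (R ^ 2 * (1 + ‖a‖ ^ 2 / R ^ 2)) ^ 4 * (R ^ 2 * (1 + ‖b‖ ^ 2 / R ^ 2)) ^ 4 := by
        gcongr
        exacts [h a, h b]
    _ = _ := by ring

theorem gi_sep {a b : ℤ × ℤ} (h : ‖gi a - gi b‖ < 1) : a = b := by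
  have e : gi a - gi b = gi (a - b) := by simp [gi]; ring
  have h1 := pow_lt_pow_left₀ h (norm_nonneg _) two_ne_zero
  rw [e, perel_nsq, one_pow] at h1
  have h2 : (a - b).1 ^ 2 + (a - b).2 ^ 2 < 1 := by exact_mod_cast h1
  rw [← sub_eq_zero]
  exact Prod.ext (by rw [Prod.fst_zero]; nlinarith [sq_nonneg (a - b).1, sq_nonneg (a - b).2])
    (by rw [Prod.snd_zero]; nlinarith [sq_nonneg (a - b).1, sq_nonneg (a - b).2])

theorem lam_sep {p q : P4} {z : E3} (hp : z ∈ ball (lam p) (1 / 2)) (hq : z ∈ ball (lam q) (1 / 2)) :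
    p = q := by
  have h : ‖lam p - lam q‖ < 1 := by
    rw [← dist_eq_norm]
    linarith [dist_triangle_left (lam p) (lam q) z, mem_ball.1 hp, mem_ball.1 hq]
  exact Prod.ext (gi_sep ((norm_le_pi_norm _ 0).trans_lt h))
    (gi_sep ((norm_le_pi_norm _ 1).trans_lt h))

theorem exists_box (R : ℕ) : ∃ s : Finset P4, s.card = R ^ 4 ∧ ∀ p ∈ s, Ev p ∧ sg p = 1 ∧
    ‖gi p.1‖ ^ 2 ≤ 8 * (R : ℝ) ^ 2 ∧ ‖gi p.2‖ ^ 2 ≤ 8 * (R : ℝ) ^ 2 := by
  refine ⟨((Finset.range R ×ˢ Finset.range R) ×ˢ (Finset.range R ×ˢ Finset.range R)).image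
    fun q => ((2 * (q.1.1 : ℤ), 2 * (q.1.2 : ℤ)), (2 * (q.2.1 : ℤ), 2 * (q.2.2 : ℤ))), ?_, ?_⟩
  · rw [Finset.card_image_of_injective]
    · simp only [Finset.card_product, Finset.card_range]; ring
    · rintro ⟨⟨a, b⟩, c, d⟩ ⟨⟨a', b'⟩, c', d'⟩ h
      simp only [Prod.mk.injEq] at h ⊢
      omega
  · intro p hp
    obtain ⟨⟨⟨a, b⟩, c, d⟩, hq, rfl⟩ := Finset.mem_image.1 hp
    simp only [Finset.mem_product, Finset.mem_range] at hq
    have h1 : Ev ((2 * (a : ℤ), 2 * (b : ℤ)), (2 * (c : ℤ), 2 * (d : ℤ))) :=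
      ⟨a + b + c + d, by ring⟩
    have h2 : ∀ a b : ℕ, a < R → b < R → ‖gi (2 * (a : ℤ), 2 * (b : ℤ))‖ ^ 2 ≤ 8 * (R : ℝ) ^ 2 :=
      fun a b ha hb => by
        have ha' : (a : ℝ) ≤ R := by exact_mod_cast ha.le
        have hb' : (b : ℝ) ≤ R := by exact_mod_cast hb.le
        rw [perel_nsq]
        push_cast
        nlinarith [Nat.cast_nonneg (α := ℝ) a, Nat.cast_nonneg (α := ℝ) b]
    refine ⟨h1, ?_, h2 a b hq.1.1 hq.1.2, h2 c d hq.2.1 hq.2.2⟩
    rw [sg, if_pos h1, if_pos ⟨2 * a * b + 2 * c * d + a + b, by ring⟩]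

theorem norm_sg (p : P4) : ‖sg p‖ ≤ 1 ∧ (¬Ev p → sg p = 0) := by
  refine ⟨?_, fun h => if_neg h⟩
  unfold sg
  split_ifs <;> simp

theorem lint_shift (c : E3) (s : Set E3) (F : E3 → ℝ≥0∞) :
    ∫⁻ z in (fun z => z + c) ⁻¹' s, F (z + c) = ∫⁻ z in s, F z :=
  (measurePreserving_add_right volume c).setLIntegral_comp_preimage_emb
    (measurableEmbedding_addRight c) F s

theorem pre_ball (c : E3) (r : ℝ) : (fun z => z + c) ⁻¹' ball c r = ball 0 r := by
  ext z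
  simp

theorem exists_mu {ν : Measure E3} (hν : ν ≪ volume) {g : E3 → ℝ≥0∞} (hg : Measurable g)
    (h : ∫⁻ z, g z ∂ν ≠ ⊤) {η : ℝ} (hη : 0 < η) : ∃ μ : ℝ, 0 < μ ∧ μ ≤ 1 ∧
      ∫⁻ z, g z * ENNReal.ofReal (μ / (‖z 2‖ ^ 2 + μ)) ∂ν ≤ ENNReal.ofReal η := by
  have h1 := tendsto_lintegral_of_dominated_convergence (μ := ν) (f := fun _ => 0)
    (F := fun n z => g z * ENNReal.ofReal ((1 / ((n : ℝ) + 1)) / (‖z 2‖ ^ 2 + 1 / ((n : ℝ) + 1))))
    g (fun n => hg.mul (Measurable.ennreal_ofReal (by fun_prop)))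
    (fun n => .of_forall fun z => mul_le_of_le_one_right' (ENNReal.ofReal_le_one.2
      ((div_le_one (by positivity)).2 (le_add_of_nonneg_left (sq_nonneg _))))) h (by
      filter_upwards [ae_lt_top hg h, hν.ae_le (Measure.ae_eval_ne (fun _ => volume) 2 0)]
        with z h1 h2
      have h3 := tendsto_one_div_add_atTop_nhds_zero_nat (𝕜 := ℝ)
      have h4 := ENNReal.tendsto_ofReal (h3.div (h3.const_add (‖z 2‖ ^ 2))
        (by have := norm_pos_iff.2 h2; positivity))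
      have h5 := ENNReal.Tendsto.const_mul (a := g z) h4 (Or.inr h1.ne)
      simpa using h5)
  rw [lintegral_zero] at h1
  obtain ⟨n, hn⟩ := (h1.eventually (gt_mem_nhds (ENNReal.ofReal_pos.2 hη))).exists
  refine ⟨1 / ((n : ℝ) + 1), by positivity, ?_, hn.le⟩
  rw [div_le_one (by positivity)]
  linarith [Nat.cast_nonneg (α := ℝ) n]

theorem log_coord (j : Fin 3) {e : ℝ} (he : 0 < e) :
    (flat (Fin 3)).SmR (fun z => Real.log (‖z j‖ ^ 2 + e)) ∧ ∀ z ξ : E3,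
      0 ≤ (flat (Fin 3)).levi (fun z => Real.log (‖z j‖ ^ 2 + e)) z ξ ∧
      (flat (Fin 3)).levi (fun z => Real.log (‖z j‖ ^ 2 + e)) z ξ ≤ ‖ξ j‖ ^ 2 / e := by
  have hγ : ∀ z : E3, ContDiffAt ℝ ∞ (fun t => Real.log (t + e)) (‖z j‖ ^ 2) := fun z =>
    (contDiffAt_id.add contDiffAt_const).log (add_pos_of_nonneg_of_pos (sq_nonneg _) he).ne'
  refine ⟨(hol_coord j).1.normSq.comp hγ, fun z ξ => ⟨?_, ?_⟩⟩
  · simpa only [Fintype.sum_unique] using RD.levi_log_nonneg (F := fun (_ : Unit) z => z j)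
      (fun _ => hol_coord j) he.le (fun z => by positivity) z ξ
  · have e1 : deriv (fun t => Real.log (t + e)) = fun t => (t + e)⁻¹ := by
      funext t
      rw [deriv_comp_add_const, Real.deriv_log]
    have e2 : ∀ t : ℝ, deriv (fun t => (t + e)⁻¹) t = -((t + e) ^ 2)⁻¹ := by
      intro t
      rw [deriv_comp_add_const (f := fun t : ℝ => t⁻¹), deriv_inv]
    rw [RD.levi_comp (hol_coord j).1.normSq hγ, e1, e2, RD.levi_normSq (hol_coord j), dd_coord,
      div_eq_inv_mul]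
    refine add_le_of_nonpos_of_le (mul_nonpos_of_nonpos_of_nonneg
      (neg_nonpos.2 (by positivity)) (sq_nonneg _)) (mul_le_mul_of_nonneg_right ?_ (sq_nonneg _))
    exact inv_anti₀ he (le_add_of_nonneg_left (sq_nonneg _))

/-- the global weight -/
theorem exists_weight {k ε μ R : ℝ} (hk : 1 ≤ k) (hε : 0 < ε) (hε1 : ε ≤ 1) (hμ : 0 < μ)
    (hR : 0 < R) (hεR : 2 ≤ ε * R ^ 2) {x : E3 → ℝ} (hx : (flat (Fin 3)).SmR x)
    (xl : ∀ z ξ, (flat (Fin 3)).levi x z ξ ≤ Real.pi * hq k ξ) : ∃ Φ : E3 → ℝ,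
      (flat (Fin 3)).SmR Φ ∧ (∀ z ξ, ε * ∑ j, ‖ξ j‖ ^ 2 ≤ (flat (Fin 3)).levi Φ z ξ) ∧
      ∀ z, Real.exp (-Φ z) = Real.exp ((1 - ε) * x z) / (‖z 2‖ ^ 2 + μ) *
        (Real.exp (-(Real.pi * hq k z)) * wR R (z 0) (z 1)) := by
  obtain ⟨s0, l0⟩ := log_coord 0 (pow_pos hR 2)
  obtain ⟨s1, l1⟩ := log_coord 1 (pow_pos hR 2)
  obtain ⟨s2, l2⟩ := log_coord 2 hμ
  have a1 := (RD.SmR.const (-(1 - ε))).mul hx
  have a2 := (RD.SmR.const Real.pi).mul (smR_hq k)
  have a3 := (RD.SmR.const (-4)).mul s0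
  have a4 := (RD.SmR.const (-4)).mul s1
  have a5 : (flat (Fin 3)).SmR fun _ => 8 * Real.log (R ^ 2) := RD.SmR.const _
  refine ⟨_, ((((a1.add a2).add s2).add a3).add a4).add a5, fun z ξ => ?_, fun z => ?_⟩
  · have e5 : (flat (Fin 3)).levi (fun _ => 8 * Real.log (R ^ 2)) z ξ = 0 := by
      have e : ∀ j, (flat (Fin 3)).db j (fun _ => ((8 * Real.log (R ^ 2) : ℝ) : ℂ)) = fun _ => 0 :=
        fun j => funext fun z => RD.db_const j _ z
      simp only [RD.levi, e, RD.dz_const, zero_mul, Finset.sum_const_zero, zero_re]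
    rw [RD.levi_add ((((a1.add a2).add s2).add a3).add a4) a5,
      RD.levi_add (((a1.add a2).add s2).add a3) a4, RD.levi_add ((a1.add a2).add s2) a3,
      RD.levi_add (a1.add a2) s2, RD.levi_add a1 a2, RD.levi_const_mul hx,
      RD.levi_const_mul (smR_hq k), RD.levi_const_mul s0, RD.levi_const_mul s1, levi_hq, e5]
    have h1 := mul_le_mul_of_nonneg_left (xl z ξ) (sub_nonneg.2 hε1)
    have h2 : ∀ t : ℝ, 0 ≤ t → t / R ^ 2 ≤ ε / 2 * t := fun t ht => by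
      rw [div_le_iff₀ (by positivity)]
      nlinarith [mul_le_mul_of_nonneg_left hεR ht]
    have h3 := mul_le_mul_of_nonneg_left (hq_le hk ξ).1 (mul_pos hε Real.pi_pos).le
    have h4 : 0 ≤ ∑ j, ‖ξ j‖ ^ 2 := by positivity
    have h5 := mul_le_mul_of_nonneg_left (mul_le_mul_of_nonneg_right Real.pi_gt_three.le h4) hε.le
    have h6 : ‖ξ 0‖ ^ 2 + ‖ξ 1‖ ^ 2 ≤ ∑ j, ‖ξ j‖ ^ 2 := by
      rw [Fin.sum_univ_three]; linarith [sq_nonneg ‖ξ 2‖]
    have h7 := mul_le_mul_of_nonneg_left h6 hε.le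
    linarith [(l2 z ξ).1, (l0 z ξ).2, (l1 z ξ).2, h2 _ (sq_nonneg ‖ξ 0‖), h2 _ (sq_nonneg ‖ξ 1‖)]
  · have e : ∀ t : ℝ, 0 < t → ∀ n : ℕ, Real.exp (n * Real.log t) = t ^ n := fun t ht n => by
      rw [Real.exp_nat_mul, Real.exp_log ht]
    have e0 := e (‖z 0‖ ^ 2 + R ^ 2) (by positivity) 4
    have e1 := e (‖z 1‖ ^ 2 + R ^ 2) (by positivity) 4
    have e2 := e (R ^ 2) (by positivity) 8
    push_cast at e0 e1 e2
    rw [show -(-(1 - ε) * x z + Real.pi * hq k z + Real.log (‖z 2‖ ^ 2 + μ) +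
      -4 * Real.log (‖z 0‖ ^ 2 + R ^ 2) + -4 * Real.log (‖z 1‖ ^ 2 + R ^ 2) +
      8 * Real.log (R ^ 2)) = (1 - ε) * x z - Real.log (‖z 2‖ ^ 2 + μ) + (-(Real.pi * hq k z) +
      (4 * Real.log (‖z 0‖ ^ 2 + R ^ 2) + 4 * Real.log (‖z 1‖ ^ 2 + R ^ 2) -
        8 * Real.log (R ^ 2))) by ring, Real.exp_add, Real.exp_sub, Real.exp_add, Real.exp_sub,
      Real.exp_add, e0, e1, e2, Real.exp_log (by positivity), wR]
    congr 2
    field_simp
    ring

end Pool.Agent.MP_c52a38_ag.Int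

end

-- part MP_c52a38_ag.Int.Glob
section

/-! The global problem and the contradiction with the base point. -/

namespace Pool.Agent.MP_c52a38_ag.Int

open MeasureTheory Complex Metric Filter Topology Pool.Agent.MP_c0606f_ag.Klt
open scoped ENNReal ContDiff ComplexConjugate

variable {k : ℝ}

theorem hq_small (hk : 1 ≤ k) {z : E3} (hz : z ∈ ball (0 : E3) (1 / 4)) :
    Real.pi * hq k z ≤ Real.pi * k := by
  refine mul_le_mul_of_nonneg_left ((hq_le hk z).2.trans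
    (mul_le_of_le_one_right (by linarith) ?_)) Real.pi_pos.le
  have := pow_le_pow_left₀ (norm_nonneg _) (mem_ball_zero_iff.1 hz).le 2
  linarith [nsq_le z]

theorem shift_le (hk : 1 ≤ k) {R : ℝ} (hR : 1 ≤ R) (a b : ℂ) (U : E3 → ℂ) {z : E3}
    (hz : z ∈ ball (0 : E3) (1 / 4)) : ‖shift a b U z‖ ^ 2 ≤
      256 * Real.exp (Real.pi * k) / wR R a b * (‖U (z + pt a b)‖ ^ 2 *
        (Real.exp (-(Real.pi * hq k (z + pt a b))) * wR R ((z + pt a b) 0) ((z + pt a b) 1))) := by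
  have h1 := wR_pos R a b
  have h2 : 1 ≤ 256 * wR R (z 0 + a) (z 1 + b) / wR R a b := (one_le_div h1).2 (wR_le hR a b hz)
  have h3 := Real.exp_le_exp.2 (hq_small hk hz)
  rw [norm_shift k]
  calc _ = ‖U (z + pt a b)‖ ^ 2 * Real.exp (-(Real.pi * hq k (z + pt a b))) *
        (Real.exp (Real.pi * hq k z) * 1) := by ring
    _ ≤ ‖U (z + pt a b)‖ ^ 2 * Real.exp (-(Real.pi * hq k (z + pt a b))) *
        (Real.exp (Real.pi * k) * (256 * wR R (z 0 + a) (z 1 + b) / wR R a b)) := by gcongr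
    _ = _ := by simp only [Pi.add_apply, pt0, pt1]; ring

theorem growth (hk : 1 ≤ k) {R μ : ℝ} (hR : 1 ≤ R) (hμ : 0 < μ) (hμ1 : μ ≤ 1) {y Φ : E3 → ℝ}
    (y0 : ∀ z, 0 ≤ y z) (hΦ : ∀ z, Real.exp (-Φ z) = Real.exp (y z) / (‖z 2‖ ^ 2 + μ) *
      (Real.exp (-(Real.pi * hq k z)) * wR R (z 0) (z 1))) {F : E3 → ℂ} (hF : Differentiable ℂ F)
    {T : ℝ} (hT0 : 0 ≤ T)
    (hT : ∫⁻ z, ENNReal.ofReal (‖F z‖ ^ 2 * Real.exp (-Φ z)) ≤ ENNReal.ofReal T) :
    ∃ C : ℝ, ∀ a b, ‖F (pt a b)‖ ≤ C * Real.exp (Real.pi / 2 * (‖a‖ ^ 2 + ‖b‖ ^ 2)) /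
      ((1 + ‖a‖ ^ 2) ^ 2 * (1 + ‖b‖ ^ 2) ^ 2) := by
  have hπ := Real.pi_pos
  obtain ⟨c, hc⟩ : ∃ c : ℝ, c = 2 * (256 * Real.exp (Real.pi * k)) * T /
    (Real.pi * (1 / 4) ^ 2) ^ 3 := ⟨_, rfl⟩
  have hc0 : 0 ≤ c := by rw [hc]; positivity
  refine ⟨√c * R ^ 8, fun a b => ?_⟩
  have hw := wR_pos R a b
  have h1 := mean_le (c := 0) (r := 1 / 4) (by norm_num)
    (A := 2 * (256 * Real.exp (Real.pi * k) / wR R a b) * T) (by positivity)
    (diff_shift a b hF).differentiableOn (lint_le measurableSet_ball (by positivity)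
      (v := fun z => ‖F (z + pt a b)‖ ^ 2 * Real.exp (-Φ (z + pt a b))) (fun z hz => ?_) ?_)
  · rw [shift_zero, norm_mul, norm_real, Real.norm_eq_abs, mul_pow, sq_abs, Fintype.card_fin,
      show 2 * (256 * Real.exp (Real.pi * k) / wR R a b) * T / (Real.pi * (1 / 4) ^ 2) ^ 3 =
        c / wR R a b by rw [hc]; ring, le_div_iff₀ hw] at h1
    rw [le_div_iff₀ (by positivity)]
    refine (abs_le_of_sq_le_sq' ?_ (by positivity)).2
    have h2 : Real.exp (-hf a b) ^ 2 * Real.exp (hf a b) ^ 2 = 1 := by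
      rw [← mul_pow, ← Real.exp_add, neg_add_cancel, Real.exp_zero, one_pow]
    calc (‖F (pt a b)‖ * ((1 + ‖a‖ ^ 2) ^ 2 * (1 + ‖b‖ ^ 2) ^ 2)) ^ 2
        ≤ ‖F (pt a b)‖ ^ 2 * ((R ^ 8) ^ 2 * wR R a b) * 1 := by
          rw [mul_pow, mul_one]
          exact mul_le_mul_of_nonneg_left (wR_ge hR a b) (sq_nonneg _)
      _ = ‖F (pt a b)‖ ^ 2 * Real.exp (-hf a b) ^ 2 * wR R a b *
          ((R ^ 8) ^ 2 * Real.exp (hf a b) ^ 2) := by rw [← h2]; ring
      _ ≤ c * ((R ^ 8) ^ 2 * Real.exp (hf a b) ^ 2) := by gcongr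
      _ = _ := by rw [mul_pow, mul_pow, Real.sq_sqrt hc0, hf]; ring
  · refine (shift_le hk hR a b F hz).trans ?_
    have h2 : 1 ≤ 2 * (Real.exp (y (z + pt a b)) / (‖(z + pt a b) 2‖ ^ 2 + μ)) := by
      rw [← mul_div_assoc, le_div_iff₀ (by positivity), Pi.add_apply, pt2, add_zero]
      have := pow_le_pow_left₀ (norm_nonneg _)
        ((norm_le_pi_norm z 2).trans (mem_ball_zero_iff.1 hz).le) 2
      linarith [Real.one_le_exp (y0 (z + pt a b))]
    have h3 := wR_pos R ((z + pt a b) 0) ((z + pt a b) 1)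
    rw [hΦ]
    refine (le_mul_of_one_le_right (by positivity) h2).trans (le_of_eq (by ring))
  · refine (setLIntegral_le_lintegral _ _).trans (le_trans (le_of_eq ?_) hT)
    exact lintegral_add_right_eq_self (fun z => ENNReal.ofReal (‖F z‖ ^ 2 * Real.exp (-Φ z))) _

/-- the sum of the bumps -/
theorem exists_bumps (hk : 0 ≤ k) : ∃ B : ℝ, 0 < B ∧ ∀ s : Finset P4, ∃ v : E3 → ℂ,
    (flat (Fin 3)).Test v ∧
    (∀ p, ∀ z ∈ ball (lam p) (1 / 4), v z = if p ∈ s then ee (gi p.1) (gi p.2) z else 0) ∧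
    ∀ z ξ : E3, ‖∑ j, (flat (Fin 3)).db j v z * conj (ξ j)‖ ^ 2 ≤
      (∑ p ∈ s, (ball (lam p) (1 / 2) \ ball (lam p) (1 / 4)).indicator
        (fun z => B * Real.exp (Real.pi * hq k z)) z) * ∑ j, ‖ξ j‖ ^ 2 := by
  obtain ⟨B, hB, hbump⟩ := exists_bump
  refine ⟨B / (1 / 4) ^ 2, by positivity, fun s => ?_⟩
  choose χ χ01 χ1 χ0 hχ using fun p : P4 => hbump (lam p) (1 / 4) (by norm_num)
  rw [show 2 * (1 / 4 : ℝ) = 1 / 2 by norm_num] at χ0 hχ
  have ht := fun p : P4 => (hχ p _ (diff_ee (gi p.1) (gi p.2))).1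
  have hd := fun p : P4 => (hχ p _ (diff_ee (gi p.1) (gi p.2))).2
  refine ⟨fun z => ∑ p ∈ s, ee (gi p.1) (gi p.2) z * χ p z, RD.Test.sum _ fun p _ => ht p,
    fun p z hz => ?_, fun z ξ => ?_⟩
  · have h1 : ∀ q, q ≠ p → ee (gi q.1) (gi q.2) z * χ q z = 0 := fun q hq => by
      rw [χ0 q z fun h => hq (lam_sep h (ball_subset_ball (by norm_num) hz)), ofReal_zero, mul_zero]
    beta_reduce
    split_ifs with h
    · rw [Finset.sum_eq_single_of_mem p h fun q _ => h1 q, χ1 p z hz, ofReal_one, mul_one]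
    · exact Finset.sum_eq_zero fun q hq => h1 q fun e => h (e ▸ hq)
  · have e : ∑ j, (flat (Fin 3)).db j (fun z => ∑ p ∈ s, ee (gi p.1) (gi p.2) z * χ p z) z *
        conj (ξ j) = ∑ p ∈ s, ∑ j, (flat (Fin 3)).db j
          (fun z => ee (gi p.1) (gi p.2) z * χ p z) z * conj (ξ j) := by
      simp only [RD.db_sum _ s fun p _ => (ht p).1, Finset.sum_mul]
      exact Finset.sum_comm
    have h0 : ∀ p, z ∉ ball (lam p) (1 / 2) \ ball (lam p) (1 / 4) → ∑ j, (flat (Fin 3)).db j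
        (fun z => ee (gi p.1) (gi p.2) z * χ p z) z * conj (ξ j) = 0 := fun p hp => by
      have h1 := hd p z ξ
      rw [Set.indicator_of_notMem hp, zero_mul] at h1
      exact norm_eq_zero.1 (pow_eq_zero_iff two_ne_zero |>.1 (le_antisymm h1 (sq_nonneg _)))
    have hi : ∀ p ∈ s, 0 ≤ (ball (lam p) (1 / 2) \ ball (lam p) (1 / 4)).indicator
        (fun z => B / (1 / 4) ^ 2 * Real.exp (Real.pi * hq k z)) z := fun p _ =>
      Set.indicator_nonneg (fun _ _ => by positivity) z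
    rw [e]
    by_cases h : ∃ p ∈ s, z ∈ ball (lam p) (1 / 2) \ ball (lam p) (1 / 4)
    · obtain ⟨p, hp, hz⟩ := h
      rw [Finset.sum_eq_single_of_mem p hp fun q _ hq => h0 q fun h => hq (lam_sep h.1 hz.1)]
      refine (hd p z ξ).trans (mul_le_mul_of_nonneg_right
        (le_trans ?_ (Finset.single_le_sum hi hp)) (by positivity))
      rw [Set.indicator_of_mem hz, Set.indicator_of_mem hz]
      exact mul_le_mul_of_nonneg_left (norm_ee hk _ _ z) (by positivity)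
    · rw [Finset.sum_eq_zero fun p hp => h0 p fun hz => h ⟨p, hp, hz⟩, norm_zero,
        zero_pow two_ne_zero]
      exact mul_nonneg (Finset.sum_nonneg hi) (by positivity)

theorem amgm {a K w τ : ℝ} (hτ : 0 < τ) (hw : 0 < w) (hK : 0 ≤ K) (h : a ^ 2 ≤ K / w) :
    a ≤ (τ * K + τ⁻¹ * w⁻¹) / 2 := by
  refine (abs_le_of_sq_le_sq' (h.trans ?_) (by positivity)).2
  have e : K / w = τ * K * (τ⁻¹ * w⁻¹) := by field_simp
  rw [e]
  nlinarith [sq_nonneg (τ * K - τ⁻¹ * w⁻¹)]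

theorem no_wt {X : ℕ → E3 → ℝ} {g : E3 → ℝ≥0∞} (W : Wt k X g) (hk : 1 ≤ k) : False := by
  have hπ := Real.pi_pos
  obtain ⟨C1, hC1, hval⟩ := value_bound W hk
  obtain ⟨B, hB, hbumps⟩ := exists_bumps (k := k) (by linarith)
  obtain ⟨Cs, hCs, hsum⟩ := sum_gi
  obtain ⟨C4, hC4⟩ : ∃ C4 : ℝ, C4 = Real.exp (Real.pi * k) * (256 * Real.exp (Real.pi * k)) :=
    ⟨_, rfl⟩
  have p4 : 0 < C4 := by rw [hC4]; positivity
  obtain ⟨η, hη, hηe⟩ : ∃ η : ℝ, 0 < η ∧ 2 * Cs ^ 2 * (C1 * C4 * (2 * (B * 18 ^ 8 * η))) = 1 / 2 :=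
    ⟨1 / (8 * Cs ^ 2 * C1 * C4 * B * 18 ^ 8), by positivity, by field_simp; norm_num⟩
  obtain ⟨μ, hμ, hμ1, hg⟩ := exists_mu Measure.absolutelyContinuous_restrict W.meas
    (W.fin (1 / 4) (by norm_num)).ne hη
  obtain ⟨S, hS, hS1⟩ := ((hval μ hμ hμ1).and (eventually_ge_atTop 1)).exists
  obtain ⟨n, hn⟩ := hS.exists
  obtain ⟨R, hR⟩ := exists_nat_ge (2 * S)
  have hS0 : 0 < S := by linarith
  have hR1 : (1 : ℝ) ≤ R := by linarith
  have hSi : S⁻¹ ≤ 1 := inv_le_one_of_one_le₀ hS1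
  obtain ⟨s, hcard, hs⟩ := exists_box R
  obtain ⟨v, hv, hve, hvd⟩ := hbumps s
  obtain ⟨Φ, hΦ, Φl, Φe⟩ := exists_weight hk (inv_pos.2 hS0) hSi hμ (R := R) (by linarith)
    (by rw [le_inv_mul_iff₀ hS0]; nlinarith) (W.sm n) (W.lev n)
  have hn0 : ∀ ξ : E3, 0 ≤ ∑ j, ‖ξ j‖ ^ 2 := fun ξ => by positivity
  have hqc : Continuous fun z => B * Real.exp (Real.pi * hq k z) :=
    continuous_const.mul (Real.continuous_exp.comp (continuous_const.mul (smR_hq k).continuous))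
  have hec : Continuous fun z => Real.exp (-Φ z) := RD.apriori_cont hΦ
  have hsh : ∀ p, MeasurableSet (ball (lam p) (1 / 2) \ ball (lam p) (1 / 4)) := fun p =>
    measurableSet_ball.diff measurableSet_ball
  have hi : ∀ z, ∀ p ∈ s, 0 ≤ (ball (lam p) (1 / 2) \ ball (lam p) (1 / 4)).indicator
      (fun z => B * Real.exp (Real.pi * hq k z)) z := fun z p _ =>
    Set.indicator_nonneg (fun _ _ => by positivity) z
  obtain ⟨I, hI⟩ : ∃ I : ℝ, I = (R : ℝ) ^ 4 * (S / μ * (B * 18 ^ 8) * η) := ⟨_, rfl⟩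
  have hI0 : 0 ≤ I := by rw [hI]; positivity
  have hint : ∫⁻ z, ENNReal.ofReal ((∑ p ∈ s, (ball (lam p) (1 / 2) \ ball (lam p) (1 / 4)).indicator
      (fun z => B * Real.exp (Real.pi * hq k z)) z) * S * Real.exp (-Φ z)) ≤ ENNReal.ofReal I := by
    have e : ∀ z, ENNReal.ofReal ((∑ p ∈ s, (ball (lam p) (1 / 2) \ ball (lam p) (1 / 4)).indicator
        (fun z => B * Real.exp (Real.pi * hq k z)) z) * S * Real.exp (-Φ z)) =
        ∑ p ∈ s, (ball (lam p) (1 / 2) \ ball (lam p) (1 / 4)).indicator (fun z =>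
          ENNReal.ofReal (B * Real.exp (Real.pi * hq k z) * S * Real.exp (-Φ z))) z := fun z => by
      rw [Finset.sum_mul, Finset.sum_mul, ENNReal.ofReal_sum_of_nonneg fun p hp => by
        have := hi z p hp; positivity]
      refine Finset.sum_congr rfl fun p _ => ?_
      by_cases h : z ∈ ball (lam p) (1 / 2) \ ball (lam p) (1 / 4)
      · rw [Set.indicator_of_mem h, Set.indicator_of_mem h]
      · rw [Set.indicator_of_notMem h, Set.indicator_of_notMem h, zero_mul, zero_mul,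
          ENNReal.ofReal_zero]
    have hm : Measurable fun z =>
        ENNReal.ofReal (B * Real.exp (Real.pi * hq k z) * S * Real.exp (-Φ z)) :=
      ((hqc.mul continuous_const).mul hec).measurable.ennreal_ofReal
    simp only [e]
    rw [lintegral_finsetSum _ fun p _ => hm.indicator (hsh p), hI, ENNReal.ofReal_mul (by positivity),
      ← Nat.cast_pow, ← hcard, ENNReal.ofReal_natCast, ← nsmul_eq_mul]
    refine Finset.sum_le_card_nsmul _ _ _ fun p hp => ?_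
    obtain ⟨p1, -, p2, p3⟩ := hs p hp
    rw [lintegral_indicator (hsh p), ← lint_shift (lam p), Set.preimage_sdiff, pre_ball, pre_ball,
      ENNReal.ofReal_mul (by positivity)]
    refine le_trans ?_ (mul_le_mul_right hg _)
    rw [← lintegral_const_mul' _ _ ENNReal.ofReal_ne_top]
    refine setLIntegral_mono' (measurableSet_ball.diff measurableSet_ball) fun z hz => ?_
    refine le_trans ?_ (mul_le_mul_right (mul_le_mul_left (W.up n p z p1) _) _)
    rw [← ENNReal.ofReal_mul (Real.exp_pos _).le, ← ENNReal.ofReal_mul (by positivity), Φe]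
    refine ENNReal.ofReal_le_ofReal ?_
    have h1 : wR R ((z + lam p) 0) ((z + lam p) 1) ≤ 18 ^ 8 := wR_box hR1 p2 p3 hz.1
    have h2 : Real.exp ((1 - S⁻¹) * X n (z + lam p)) ≤ Real.exp (X n (z + lam p)) :=
      Real.exp_le_exp.2 (mul_le_of_le_one_left (W.pos _ _) (by linarith [inv_pos.2 hS0]))
    have h3 : (z + lam p) 2 = z 2 := add_zero (z 2)
    have h4 := wR_pos R ((z + lam p) 0) ((z + lam p) 1)
    rw [h3, Real.exp_neg]
    calc _ = S * B * wR R ((z + lam p) 0) ((z + lam p) 1) *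
          (Real.exp ((1 - S⁻¹) * X n (z + lam p)) / (‖z 2‖ ^ 2 + μ)) := by field_simp
      _ ≤ S * B * 18 ^ 8 * (Real.exp (X n (z + lam p)) / (‖z 2‖ ^ 2 + μ)) := by gcongr
      _ = _ := by field_simp
  obtain ⟨F, hF, hu⟩ := solve0 hΦ (fun z ξ => (mul_nonneg (inv_pos.2 hS0).le (hn0 ξ)).trans
    (Φl z ξ)) hv ((Finset.measurable_sum s fun p _ => hqc.measurable.indicator (hsh p)).mul_const S)
    (fun z => mul_nonneg (Finset.sum_nonneg (hi z)) hS0.le) (fun z ξ => (hvd z ξ).trans (by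
      rw [mul_assoc]
      exact mul_le_mul_of_nonneg_left ((inv_mul_le_iff₀ hS0).1 (Φl z ξ))
        (Finset.sum_nonneg (hi z)))) hI0 hint
  obtain ⟨T, hT0, hT⟩ : ∃ T : ℝ, 0 ≤ T ∧
      ∫⁻ z, ENNReal.ofReal (‖F z‖ ^ 2 * Real.exp (-Φ z)) ≤ ENNReal.ofReal T := by
    have h1 : Integrable fun z => ‖v z‖ ^ 2 * Real.exp (-Φ z) := by
      have := RD.apriori_int1 hv.memLp hv.2 (fun x hx => image_eq_zero_of_notMem_tsupport hx) hec
      rwa [flat_mu] at this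
    have h2 : 0 ≤ ∫ z, ‖v z‖ ^ 2 * Real.exp (-Φ z) := integral_nonneg fun z => by positivity
    refine ⟨2 * (∫ z, ‖v z‖ ^ 2 * Real.exp (-Φ z)) + 2 * (2 * I), by positivity, ?_⟩
    rw [← setLIntegral_univ] at hu ⊢
    refine lint_add .univ (v := fun z => 2 * (‖v z‖ ^ 2 * Real.exp (-Φ z)))
      (w := fun z => 2 * (‖v z - F z‖ ^ 2 * Real.exp (-Φ z)))
      (((hv.1.continuous.norm.pow 2).mul hec).measurable.const_mul 2) (by positivity)
      (by positivity) (fun z _ => ?_) (lint_le .univ zero_le_two (fun _ _ => le_rfl) ?_)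
      (lint_le .univ zero_le_two (fun _ _ => le_rfl) hu)
    · have := sq_add_le (v z) (-(v z - F z))
      rw [norm_neg, show v z + -(v z - F z) = F z by ring] at this
      nlinarith [Real.exp_pos (-Φ z)]
    · rw [setLIntegral_univ]
      exact (ofReal_integral_eq_lintegral_ofReal h1 (.of_forall fun z => by positivity)).ge
  obtain ⟨C, hC⟩ := growth hk hR1 hμ hμ1
    (fun z => mul_nonneg (sub_nonneg.2 hSi) (W.pos n z)) Φe hF hT0 hT
  have hp1 : ∀ b, Differentiable ℂ fun a => pt a b := fun b =>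
    differentiable_pi.2 fun j => by fin_cases j <;> simp [pt]
  have hp2 : ∀ a, Differentiable ℂ (pt a) := fun a =>
    differentiable_pi.2 fun j => by fin_cases j <;> simp [pt]
  have hP := perel_two (F := fun a b => F (pt a b)) (fun b => hF.comp (hp1 b))
    (fun a => hF.comp (hp2 a)) hC
  obtain ⟨N, hN⟩ : ∃ N : P4 → ℝ, ∀ p, N p = (∫⁻ z in ball (lam p) (1 / 4),
    ENNReal.ofReal (‖v z - F z‖ ^ 2 * Real.exp (-Φ z))).toReal := ⟨_, fun _ => rfl⟩
  have hNf : ∀ p, ∫⁻ z in ball (lam p) (1 / 4),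
      ENNReal.ofReal (‖v z - F z‖ ^ 2 * Real.exp (-Φ z)) = ENNReal.ofReal (N p) := fun p => by
    rw [hN, ENNReal.ofReal_toReal
      (((setLIntegral_le_lintegral _ _).trans hu).trans_lt ENNReal.ofReal_lt_top).ne]
  have hN0 : ∀ p, 0 ≤ N p := fun p => by rw [hN]; exact ENNReal.toReal_nonneg
  have hNs : ∀ t : Finset P4, ∑ p ∈ t, N p ≤ 2 * I := fun t => by
    rw [← ENNReal.ofReal_le_ofReal_iff (by positivity),
      ENNReal.ofReal_sum_of_nonneg fun p _ => hN0 p]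
    simp only [← hNf]
    rw [← lintegral_biUnion_finset (fun p _ q _ hpq => Set.disjoint_left.2 fun z h1 h2 =>
      hpq (lam_sep (ball_subset_ball (by norm_num) h1) (ball_subset_ball (by norm_num) h2)))
      fun p _ => measurableSet_ball]
    exact (setLIntegral_le_lintegral _ _).trans hu
  obtain ⟨U, hU⟩ : ∃ U : P4 → E3 → ℂ, ∀ p z,
    U p z = (if p ∈ s then ee (gi p.1) (gi p.2) z else 0) - F z := ⟨_, fun _ _ => rfl⟩
  have dU : ∀ p, Differentiable ℂ (U p) := fun p => by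
    rw [show U p = _ from funext (hU p)]
    split_ifs
    · exact (diff_ee _ _).sub hF
    · exact (differentiable_const _).sub hF
  have hb : ∀ p, ‖sg p * shift (gi p.1) (gi p.2) (U p) 0‖ ≤
      (2 * Cs ^ 2 * (C1 * (μ / S * (C4 * N p))) +
        (2 * Cs ^ 2)⁻¹ * (wR R (gi p.1) (gi p.2))⁻¹) / 2 := fun p => by
    have hw := wR_pos R (gi p.1) (gi p.2)
    have := hN0 p
    by_cases he : Ev p
    swap
    · rw [(norm_sg p).2 he, zero_mul, norm_zero]
      positivity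
    rw [norm_mul]
    refine (mul_le_of_le_one_left (norm_nonneg _) (norm_sg p).1).trans
      (amgm (by positivity) hw (by positivity) ?_)
    refine (hn _ (diff_shift _ _ (dU p)) (C4 / wR R (gi p.1) (gi p.2) * N p) (by positivity)
      ?_).trans (le_of_eq (by ring))
    have h1 := (hNf p).le
    rw [← lint_shift (lam p), pre_ball] at h1
    refine lint_le measurableSet_ball (by positivity) (fun z hz => ?_) h1
    have h2 : Real.exp ((1 - S⁻¹) * X n z) ≤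
        Real.exp (Real.pi * k) * Real.exp ((1 - S⁻¹) * X n (z + lam p)) := by
      rw [← Real.exp_add]
      refine Real.exp_le_exp.2 ?_
      have h3 := mul_le_mul_of_nonneg_left (show X n z ≤ Real.pi * k + X n (z + lam p) by
        linarith [W.lo n p z he, hq_small hk hz]) (sub_nonneg.2 hSi)
      have h4 : 0 ≤ S⁻¹ * (Real.pi * k) := by positivity
      linarith
    have h3 : (z + lam p) 2 = z 2 := add_zero (z 2)
    have h4 : U p (z + lam p) = v (z + lam p) - F (z + lam p) := by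
      rw [hU, hve p _ (by simpa using hz)]
    have h5 := shift_le hk hR1 (gi p.1) (gi p.2) (U p) hz
    have h6 := wR_pos R ((z + lam p) 0) ((z + lam p) 1)
    change _ ≤ _ * (‖U p (z + lam p)‖ ^ 2 * (Real.exp (-(Real.pi * hq k (z + lam p))) *
      wR R ((z + lam p) 0) ((z + lam p) 1))) at h5
    rw [Φe, h3, ← h4, hC4]
    refine (mul_le_mul h5 (div_le_div_of_nonneg_right h2 (by positivity)) (by positivity)
      (by positivity)).trans (le_of_eq (by ring))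
  have key : ∀ t : Finset P4, s ⊆ t → (R : ℝ) ^ 4 / 2 ≤ ‖∑ p ∈ t, sg p *
      (Real.exp (-(Real.pi / 2 * (‖gi p.1‖ ^ 2 + ‖gi p.2‖ ^ 2))) : ℝ) *
        F (pt (gi p.1) (gi p.2))‖ := fun t ht => by
    have e : ∀ p, sg p * (Real.exp (-(Real.pi / 2 * (‖gi p.1‖ ^ 2 + ‖gi p.2‖ ^ 2))) : ℝ) *
        F (pt (gi p.1) (gi p.2)) = (if p ∈ s then 1 else 0) -
          sg p * shift (gi p.1) (gi p.2) (U p) 0 := fun p => by
      rw [shift_zero, hU]
      split_ifs with h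
      · rw [(hs p h).2.1, sub_mul, ee_pt, hf]; ring
      · rw [hf]; ring
    simp only [e, Finset.sum_sub_distrib]
    rw [Finset.sum_ite_mem, Finset.inter_eq_right.2 ht, Finset.sum_const, hcard, nsmul_eq_mul,
      mul_one]
    have h1 : ∑ p ∈ t, (wR R (gi p.1) (gi p.2))⁻¹ ≤ (Cs * R ^ 2) * (Cs * R ^ 2) := by
      refine (Finset.sum_le_sum_of_subset_of_nonneg (Finset.subset_product (s := t))
        fun p _ _ => (inv_pos.2 (wR_pos _ _ _)).le).trans ?_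
      simp only [wR, mul_inv]
      rw [Finset.sum_product' (f := fun a b => ((1 + ‖gi a‖ ^ 2 / (R : ℝ) ^ 2) ^ 4)⁻¹ *
        ((1 + ‖gi b‖ ^ 2 / (R : ℝ) ^ 2) ^ 4)⁻¹), ← Finset.sum_mul_sum]
      have hR' : 1 ≤ R := by exact_mod_cast hR1
      exact mul_le_mul (hsum R hR' _) (hsum R hR' _) (Finset.sum_nonneg fun _ _ => by positivity)
        (by positivity)
    have h2 : ‖∑ p ∈ t, sg p * shift (gi p.1) (gi p.2) (U p) 0‖ ≤ (R : ℝ) ^ 4 / 2 := by
      refine (norm_sum_le _ _).trans ((Finset.sum_le_sum fun p _ => hb p).trans ?_)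
      simp only [← Finset.sum_div, Finset.sum_add_distrib, ← Finset.mul_sum]
      refine div_le_div_of_nonneg_right ?_ zero_le_two
      calc _ ≤ 2 * Cs ^ 2 * (C1 * (μ / S * (C4 * (2 * I)))) +
            (2 * Cs ^ 2)⁻¹ * ((Cs * R ^ 2) * (Cs * R ^ 2)) := by
            gcongr
            exact hNs t
        _ = (R : ℝ) ^ 4 * (2 * Cs ^ 2 * (C1 * C4 * (2 * (B * 18 ^ 8 * η))) + 1 / 2) := by
            rw [hI]; field_simp
        _ = _ := by rw [hηe]; ring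
    have h3 := norm_sub_norm_le ((R ^ 4 : ℕ) : ℂ)
      (∑ p ∈ t, sg p * shift (gi p.1) (gi p.2) (U p) 0)
    rw [norm_natCast, Nat.cast_pow] at h3
    linarith
  have h1 := ge_of_tendsto (Tendsto.norm hP) ((eventually_ge_atTop s).mono key)
  rw [norm_zero] at h1
  have : (0 : ℝ) < (R : ℝ) ^ 4 / 2 := by positivity
  linarith

end Pool.Agent.MP_c52a38_ag.Int

end
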