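import Pool.Agent.MP_c0606f_ag.Mg.Klt_Horm
import Pool.Agent.Lib.SCV.Osgood

-- part MP_c52a38_ag.Int.Base
section

/-! Vocabulary for the integral counterexample. -/

namespace Pool.Agent.MP_c52a38_ag.Int

open MeasureTheory Complex Metric Pool.Agent.MP_c0606f_ag.Klt
open scoped ENNReal ContDiff ComplexConjugate

/-- flat space as a Riemann domain over itself -/
def flat (ι : Type) : RD ι (ι → ℂ) := ⟨fun x => x, (Homeomorph.refl (ι → ℂ)).isLocalHomeomorph⟩

abbrev E3 : Type := Fin 3 → ℂ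

/-- the Hermitian form `diag (1, 1, k)` on the diagonal -/
noncomputable def hq (k : ℝ) (z : E3) : ℝ := ‖z 0‖ ^ 2 + ‖z 1‖ ^ 2 + k * ‖z 2‖ ^ 2

/-- Gaussian integers -/
noncomputable def gi (a : ℤ × ℤ) : ℂ := (a.1 : ℂ) + (a.2 : ℂ) * I

abbrev P4 : Type := (ℤ × ℤ) × (ℤ × ℤ)

/-- the parity condition of the lattice `D4` -/
def Ev (p : P4) : Prop := Even (p.1.1 + p.1.2 + p.2.1 + p.2.2)

/-- the point of the surface `t = 0` -/
noncomputable def pt (a b : ℂ) : E3 := ![a, b, 0]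

noncomputable def lam (p : P4) : E3 := pt (gi p.1) (gi p.2)

open Classical in
/-- the semicharacter of `D4` with a base point at the origin, extended by zero -/
noncomputable def sg (p : P4) : ℂ :=
  if Ev p then (if Even (p.1.1 * p.1.2 + p.2.1 * p.2.2 + p.1.1 + p.1.2) then 1 else -1) else 0

/-- regularised weights of a divisor whose cosupport near the origin is the origin -/
structure Wt (k : ℝ) (X : ℕ → E3 → ℝ) (g : E3 → ℝ≥0∞) : Prop where
  sm : ∀ n, (flat (Fin 3)).SmR (X n)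
  pos : ∀ n z, 0 ≤ X n z
  lev : ∀ n z ξ, (flat (Fin 3)).levi (X n) z ξ ≤ Real.pi * hq k ξ
  meas : Measurable g
  mono : ∀ z, Monotone fun n => X n z
  lim : ∀ z, ⨆ n, ENNReal.ofReal (Real.exp (X n z)) = g z
  up : ∀ n p z, Ev p → ENNReal.ofReal (Real.exp (X n (z + lam p))) ≤ g z
  lo : ∀ n p z, Ev p → X n z - Real.pi * hq k z ≤ X n (z + lam p)
  inf : ∀ ρ : ℝ, 0 < ρ → ∫⁻ z in ball (0 : E3) ρ, g z = ⊤
  fin : ∀ ρ : ℝ, 0 < ρ → ∫⁻ z in ball (0 : E3) (1 / 2) \ ball 0 ρ, g z < ⊤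

section

variable {ι : Type} [Fintype ι] [DecidableEq ι]

omit [DecidableEq ι] in
theorem sm_of {f : (ι → ℂ) → ℂ} (hf : ContDiff ℝ ∞ f) : (flat ι).Sm f :=
  RD.Sm.comp_π (R := flat ι) hf

theorem flat_db (j : ι) (f : (ι → ℂ) → ℂ) (z : ι → ℂ) : (flat ι).db j f z = fdb j f z :=
  RD.db_comp_π (R := flat ι) j f z

theorem flat_dz (j : ι) (f : (ι → ℂ) → ℂ) (z : ι → ℂ) : (flat ι).dz j f z = fdz j f z :=
  RD.dz_comp_π (R := flat ι) j f z

omit [DecidableEq ι] in
theorem contDiff_of_diff {f : (ι → ℂ) → ℂ} (hf : Differentiable ℂ f) : ContDiff ℝ ∞ f := by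
  have h := Pool.Agent.Lib.SCV.osgood isOpen_univ hf.differentiableOn
  exact (h.contDiff (n := ∞)).restrict_scalars ℝ

theorem hol_of {f : (ι → ℂ) → ℂ} (hf : Differentiable ℂ f) : (flat ι).Hol f :=
  ⟨sm_of (contDiff_of_diff hf), fun j p => by
    rw [flat_db]; exact fdb_of_differentiableAt j (hf p)⟩

theorem hol_coord (j : ι) : (flat ι).Hol fun z => z j := RD.Hol.coord (R := flat ι) j

theorem dd_coord (j : ι) (z ξ : ι → ℂ) : (flat ι).dd (fun z => z j) z ξ = ξ j :=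
  RD.dd_coord (R := flat ι) j z ξ

omit [DecidableEq ι] in
theorem flat_mu : (flat ι).mu = volume := by
  ext s hs
  rw [← lintegral_indicator_one hs, RD.lintegral_mu _ (measurable_one.indicator hs),
    ← lintegral_indicator_one hs]
  refine lintegral_congr fun q => ?_
  have e : (flat ι).π ⁻¹' {q} = {q} := rfl
  rw [e, tsum_singleton]

end

theorem smR_hq (k : ℝ) : (flat (Fin 3)).SmR (hq k) :=
  ((hol_coord 0).1.normSq.add (hol_coord 1).1.normSq).add
    ((RD.SmR.const k).mul (hol_coord 2).1.normSq)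

theorem levi_hq (k : ℝ) (z ξ : E3) : (flat (Fin 3)).levi (hq k) z ξ = hq k ξ := by
  unfold hq
  rw [RD.levi_add ((hol_coord 0).1.normSq.add (hol_coord 1).1.normSq)
      ((RD.SmR.const k).mul (hol_coord 2).1.normSq),
    RD.levi_add (hol_coord 0).1.normSq (hol_coord 1).1.normSq,
    RD.levi_const_mul (hol_coord 2).1.normSq, RD.levi_normSq (hol_coord 0),
    RD.levi_normSq (hol_coord 1), RD.levi_normSq (hol_coord 2), dd_coord, dd_coord, dd_coord]

end Pool.Agent.MP_c52a38_ag.Int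

end

-- part MP_c52a38_ag.Int.Twist
section

/-! The twisted estimate on flat space. -/

namespace Pool.Agent.MP_c52a38_ag.Int

open MeasureTheory Complex Metric Filter Topology Pool.Agent.MP_c0606f_ag.Klt
open scoped ENNReal ContDiff ComplexConjugate

variable {ι : Type} [Fintype ι] [DecidableEq ι]

omit [DecidableEq ι] in
theorem smR_nsq : (flat ι).SmR fun z => ∑ j, ‖z j‖ ^ 2 := by
  classical
  exact RD.smR_sumSq fun j => (hol_coord j).1

theorem dz_nsq (j : ι) (z : ι → ℂ) :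
    (flat ι).dz j (fun z => ((∑ i, ‖z i‖ ^ 2 : ℝ) : ℂ)) z = conj (z j) := by
  have h := RD.dd_sumSq (R := flat ι) (F := fun i z => z i) (fun i => hol_coord i) z (Pi.single j 1)
  simp only [dd_coord] at h
  simpa [RD.dd, Pi.single_apply] using h

omit [DecidableEq ι] in
theorem norm_sq_le_nsq (z : ι → ℂ) : ‖z‖ ^ 2 ≤ ∑ j, ‖z j‖ ^ 2 := by
  have h0 : 0 ≤ ∑ j, ‖z j‖ ^ 2 := by positivity
  rw [← Real.le_sqrt (norm_nonneg _) h0]
  refine (pi_norm_le_iff_of_nonneg (Real.sqrt_nonneg _)).2 fun j => ?_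
  rw [Real.le_sqrt (norm_nonneg _) h0]
  exact Finset.single_le_sum (f := fun j => ‖z j‖ ^ 2) (fun i _ => by positivity)
    (Finset.mem_univ j)

theorem exists_cut {K : Set (ι → ℂ)} (hK : IsCompact K) {δ : ℝ} (hδ : 0 < δ) :
    ∃ η : (ι → ℂ) → ℝ, (flat ι).Test (fun z => (η z : ℂ)) ∧
      (∀ x ∈ K, (fun z => (η z : ℂ)) =ᶠ[𝓝 x] fun _ => 1) ∧
      ∀ x, ∑ j, ‖(flat ι).dz j (fun z => (η z : ℂ)) x‖ ^ 2 ≤ δ := by
  obtain ⟨χ, B, hχ, χ1, χ0, -, χB, χd⟩ := exists_step (one_lt_two (α := ℝ))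
  have hn : Continuous fun z : ι → ℂ => ∑ j, ‖z j‖ ^ 2 := smR_nsq.continuous
  obtain ⟨M, hM⟩ := hK.exists_bound_of_continuousOn hn.continuousOn
  obtain ⟨c, hc, c1, c2⟩ : ∃ c : ℝ, 0 < c ∧ c * (|M| + 1) ≤ 1 ∧ 2 * (B ^ 2 + 1) * c ≤ δ := by
    refine ⟨min (1 / (|M| + 1)) (δ / (2 * (B ^ 2 + 1))), by positivity, ?_, ?_⟩
    · rw [← le_div_iff₀ (by positivity)]; exact min_le_left _ _
    · rw [mul_comm, ← le_div_iff₀ (by positivity)]; exact min_le_right _ _
  have hγ : ContDiff ℝ ∞ fun t => χ (c * t) := hχ.comp (contDiff_const.mul contDiff_id)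
  refine ⟨fun z => χ (c * ∑ j, ‖z j‖ ^ 2), ⟨smR_nsq.comp fun _ => hγ.contDiffAt,
    HasCompactSupport.intro (isCompact_closedBall 0 (√(2 / c))) fun z hz => ?_⟩,
    fun x hx => ?_, fun x => ?_⟩
  · rw [mem_closedBall_zero_iff, not_le] at hz
    rw [Real.sqrt_lt' (lt_of_le_of_lt (Real.sqrt_nonneg _) hz), div_lt_iff₀ hc] at hz
    have h2 : χ (c * ∑ j, ‖z j‖ ^ 2) = 0 := χ0 _ (by nlinarith [norm_sq_le_nsq z])
    simp only [h2, ofReal_zero]
  · have h1 : ∑ j, ‖x j‖ ^ 2 < |M| + 1 := by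
      linarith [le_abs_self M, (le_abs_self _).trans (hM x hx)]
    filter_upwards [hn.continuousAt.eventually_lt continuousAt_const h1] with y hy
    rw [χ1 _ (by nlinarith), ofReal_one]
  · have hd : deriv (fun t => χ (c * t)) (∑ j, ‖x j‖ ^ 2) = c * deriv χ (c * ∑ j, ‖x j‖ ^ 2) := by
      rw [deriv_comp_mul_left, smul_eq_mul]
    simp only [RD.dz_comp _ smR_nsq (hγ.differentiable (by simp) _), hd, dz_nsq, norm_mul,
      RCLike.norm_conj, mul_pow, ← Finset.mul_sum, norm_real, Real.norm_eq_abs, sq_abs]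
    have h0 : 0 ≤ ∑ j, ‖x j‖ ^ 2 := by positivity
    rcases le_total 2 (c * ∑ j, ‖x j‖ ^ 2) with h | h
    · rw [χd _ (Or.inr h)]
      simpa using hδ.le
    · have h2 : deriv χ (c * ∑ j, ‖x j‖ ^ 2) ^ 2 ≤ B ^ 2 + 1 := by
        have := pow_le_pow_left₀ (abs_nonneg _) (χB (c * ∑ j, ‖x j‖ ^ 2)) 2
        rw [sq_abs] at this
        linarith
      calc c ^ 2 * deriv χ (c * ∑ j, ‖x j‖ ^ 2) ^ 2 * ∑ j, ‖x j‖ ^ 2
          = (c * ∑ j, ‖x j‖ ^ 2) * deriv χ (c * ∑ j, ‖x j‖ ^ 2) ^ 2 * c := by ring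
        _ ≤ 2 * (B ^ 2 + 1) * c := by gcongr
        _ ≤ δ := c2

theorem tw_sq (u v : ℂ) {a : ℝ} (ha : 0 < a) :
    ‖u - v‖ ^ 2 ≤ (1 + a⁻¹) * ‖u‖ ^ 2 + (1 + a) * ‖v‖ ^ 2 := by
  have h1 := pow_le_pow_left₀ (norm_nonneg _) (norm_sub_le u v) 2
  have h2 : 0 ≤ a⁻¹ * (‖u‖ - a * ‖v‖) ^ 2 := by positivity
  have h3 : a⁻¹ * (‖u‖ - a * ‖v‖) ^ 2 = a⁻¹ * ‖u‖ ^ 2 - 2 * ‖u‖ * ‖v‖ + a * ‖v‖ ^ 2 := by
    field_simp
    ring
  nlinarith

/-- the twisted curvature form -/
noncomputable def tw (Φ p a : (ι → ℂ) → ℝ) (x ξ : ι → ℂ) : ℝ :=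
  (flat ι).levi (fun x => Φ x + p x) x ξ - (1 + a x) * ‖(flat ι).dd (fun x => (p x : ℂ)) x ξ‖ ^ 2

structure TwData (Φ p a : (ι → ℂ) → ℝ) : Prop where
  hΦ : (flat ι).SmR Φ
  hp : (flat ι).SmR p
  ha : Continuous a
  a0 : ∃ a0 : ℝ, 0 < a0 ∧ ∀ x, a0 ≤ a x
  p0 : ∃ P : ℝ, ∀ x, -p x ≤ P
  pos : ∀ x ξ, 0 ≤ tw Φ p a x ξ

variable {Φ p a : (ι → ℂ) → ℝ}

theorem TwData.apos (D : TwData Φ p a) (x : ι → ℂ) : 0 < a x := by
  obtain ⟨a0, h, h'⟩ := D.a0
  exact h.trans_le (h' x)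

theorem TwData.cont (D : TwData Φ p a) :
    Continuous fun x => (1 + (a x)⁻¹) * Real.exp (-(Φ x + p x)) :=
  (continuous_const.add (D.ha.inv₀ fun x => (D.apos x).ne')).mul
    (RD.apriori_cont (D.hΦ.add D.hp))

theorem tw_apriori (D : TwData Φ p a) {β : ι → (ι → ℂ) → ℂ} {h : (ι → ℂ) → ℂ}
    (hβ : (flat ι).Closed Φ β) (hh : (flat ι).Test h)
    (hT : ∀ g, (flat ι).Test g →
      ∫ x, (∑ j, β j x * (flat ι).dz j g x) * (Real.exp (-Φ x) : ℝ) ∂((flat ι).mu) =
        -∫ x, h x * g x * (Real.exp (-Φ x) : ℝ) ∂((flat ι).mu))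
    {O : Set (ι → ℂ)} (hO : IsCompact O) :
    ∫⁻ x in O, ENNReal.ofReal (tw Φ p a x (fun j => β j x) * Real.exp (-(Φ x + p x)))
      ∂((flat ι).mu) ≤ ENNReal.ofReal
        (∫ x, ‖h x‖ ^ 2 * ((1 + (a x)⁻¹) * Real.exp (-(Φ x + p x))) ∂((flat ι).mu)) := by
  obtain ⟨a0, ha0, ha1⟩ := D.a0
  obtain ⟨P, hP⟩ := D.p0
  have hψ := D.hΦ.add D.hp
  have hS : ∀ ξ : ι → ℂ, 0 ≤ ∑ j, ‖ξ j‖ ^ 2 := fun ξ => by positivity
  have iN : Integrable (fun x => (∑ j, ‖β j x‖ ^ 2) * Real.exp (-Φ x)) (flat ι).mu := by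
    simp only [Finset.sum_mul]
    refine integrable_finsetSum _ fun j _ => ⟨((hβ.meas j).norm.pow 2).mul
      (RD.apriori_cont D.hΦ).aestronglyMeasurable, ?_⟩
    exact (hasFiniteIntegral_iff_ofReal (.of_forall fun x => by positivity)).2 (hβ.fin j)
  have ih : Integrable (fun x => ‖h x‖ ^ 2 * ((1 + (a x)⁻¹) * Real.exp (-(Φ x + p x))))
      (flat ι).mu :=
    RD.apriori_int1 hh.memLp hh.2 (fun x hx => image_eq_zero_of_notMem_tsupport hx) D.cont
  obtain ⟨c, hc⟩ : ∃ c : ℝ, c = 3 * (1 + a0⁻¹) * Real.exp P := ⟨_, rfl⟩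
  have lim : Tendsto (fun δ : ℝ => ENNReal.ofReal
      (∫ x, ‖h x‖ ^ 2 * ((1 + (a x)⁻¹) * Real.exp (-(Φ x + p x))) ∂((flat ι).mu) +
        δ * c * ∫ x, (∑ j, ‖β j x‖ ^ 2) * Real.exp (-Φ x) ∂((flat ι).mu))) (𝓝[>] 0)
      (𝓝 (ENNReal.ofReal
        (∫ x, ‖h x‖ ^ 2 * ((1 + (a x)⁻¹) * Real.exp (-(Φ x + p x))) ∂((flat ι).mu)))) := by
    refine ENNReal.tendsto_ofReal (tendsto_nhdsWithin_of_tendsto_nhds ?_)
    refine Continuous.tendsto' (by fun_prop) _ _ (by simp)
  refine ge_of_tendsto lim ?_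
  filter_upwards [self_mem_nhdsWithin] with δ (hδ : 0 < δ)
  obtain ⟨η, hη, η1, ηd⟩ := exists_cut (hO.union hh.2.isCompact) hδ
  have hW := hβ.weak D.hΦ hh hT hη
  have hb := hW.bkm hη.2 hψ
  obtain ⟨i1, i2, i3⟩ := hW.apriori_int hη.2 hψ
  have e : ∀ x, (η x * h x + ∑ j, (flat ι).dz j (fun z => (η z : ℂ)) x * β j x +
      ∑ j, (flat ι).dz j (fun x => (Φ x : ℂ)) x * (η x * β j x)) -
      ∑ j, (flat ι).dz j (fun x => ((Φ x + p x : ℝ) : ℂ)) x * (η x * β j x) =
      (η x * h x + ∑ j, (flat ι).dz j (fun z => (η z : ℂ)) x * β j x) -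
        η x * (flat ι).dd (fun x => (p x : ℂ)) x (fun j => β j x) := fun x => by
    simp only [ofReal_add, RD.dz_add _ D.hΦ D.hp, add_mul, Finset.sum_add_distrib, RD.dd,
      Finset.mul_sum, mul_left_comm (η x : ℂ)]
    ring
  simp only [e] at hb i2
  have h1 := RD.apriori_abs hO.measurableSet i1 i2 i3 ih (iN.const_mul (δ * c)) hb
    (L := fun x => tw Φ p a x (fun j => β j x) * Real.exp (-(Φ x + p x)))
    (fun x => mul_nonneg (D.pos _ _) (Real.exp_pos _).le) fun x => ?_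
  · rwa [integral_const_mul] at h1
  have hL : 0 ≤ tw Φ p a x (fun j => β j x) := D.pos _ _
  have he := Real.exp_pos (-(Φ x + p x))
  have hc0 : 0 ≤ c := by rw [hc]; positivity
  simp only [RD.db_real]
  by_cases hx : x ∈ O ∪ tsupport h
  · have h2 : (η x : ℂ) = 1 := (η1 x hx).self_of_nhds
    simp only [RD.dz_congr _ (η1 x hx), RD.dz_const, h2, zero_mul, one_mul, map_zero, sub_zero,
      Finset.sum_const_zero, add_zero, norm_zero]
    have h3 := mul_le_mul_of_nonneg_right (tw_sq (h x)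
      ((flat ι).dd (fun x => (p x : ℂ)) x fun j => β j x) (D.apos x)) he.le
    have h4 : O.indicator (fun x => tw Φ p a x (fun j => β j x) * Real.exp (-(Φ x + p x))) x ≤
        tw Φ p a x (fun j => β j x) * Real.exp (-(Φ x + p x)) :=
      Set.indicator_le_self' (fun y _ => mul_nonneg (D.pos _ _) (Real.exp_pos _).le) x
    have h5 : 0 ≤ δ * c * ((∑ j, ‖β j x‖ ^ 2) * Real.exp (-Φ x)) := by
      have := hS fun j => β j x
      positivity
    refine h4.trans ?_
    unfold tw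
    simp only [ne_eq, OfNat.ofNat_ne_zero, not_false_eq_true, zero_pow, Finset.sum_const_zero,
      mul_zero, zero_mul, sub_zero]
    linarith
  · rw [Set.mem_union, not_or] at hx
    rw [Set.indicator_of_notMem hx.1, image_eq_zero_of_notMem_tsupport hx.2, RD.levi_smul,
      mul_zero, zero_add, norm_zero, norm_real, Real.norm_eq_abs, sq_abs]
    have h2 := RD.apriori_cs (fun j => (flat ι).dz j (fun z => (η z : ℂ)) x) fun j => β j x
    have h3 := tw_sq (∑ j, (flat ι).dz j (fun z => (η z : ℂ)) x * β j x)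
      (η x * (flat ι).dd (fun x => (p x : ℂ)) x fun j => β j x) (D.apos x)
    rw [norm_mul, norm_real, Real.norm_eq_abs, mul_pow, sq_abs] at h3
    have h4 := mul_nonneg (sq_nonneg (η x)) hL
    unfold tw at h4
    have h5 : (a x)⁻¹ ≤ a0⁻¹ := inv_anti₀ ha0 (ha1 x)
    have h6 : 0 < (a x)⁻¹ := inv_pos.2 (D.apos x)
    have h7 := mul_le_mul_of_nonneg_right (ηd x) (hS fun j => β j x)
    have h8 : Real.exp (-(Φ x + p x)) ≤ Real.exp P * Real.exp (-Φ x) := by
      rw [← Real.exp_add]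
      exact Real.exp_le_exp.2 (by linarith [hP x])
    generalize ‖∑ j, (flat ι).dz j (fun z => (η z : ℂ)) x * β j x‖ ^ 2 = A at *
    generalize hW' : 1 / 2 * ∑ j, ∑ k, ‖conj ((flat ι).dz k (fun z => (η z : ℂ)) x) * β j x -
      conj ((flat ι).dz j (fun z => (η z : ℂ)) x) * β k x‖ ^ 2 = W at *
    have hW0 : 0 ≤ W := by rw [← hW']; positivity
    have h9 : (1 + (a x)⁻¹) * A + W ≤ (1 + a0⁻¹) * (3 * (δ * ∑ j, ‖β j x‖ ^ 2)) := by
      have : A + W ≤ 3 * (δ * ∑ j, ‖β j x‖ ^ 2) := by linarith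
      have h10 : (1 + (a x)⁻¹) * A + W ≤ (1 + (a x)⁻¹) * (A + W) := by nlinarith
      refine h10.trans ((mul_le_mul_of_nonneg_left this (by positivity)).trans ?_)
      have := hS fun j => β j x
      gcongr
    have h10 : (1 + a0⁻¹) * (3 * (δ * ∑ j, ‖β j x‖ ^ 2)) * Real.exp (-(Φ x + p x)) ≤
        δ * c * ((∑ j, ‖β j x‖ ^ 2) * Real.exp (-Φ x)) := by
      have := hS fun j => β j x
      refine (mul_le_mul_of_nonneg_left h8 (by positivity)).trans (le_of_eq ?_)
      rw [hc]; ring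
    have h11 := mul_le_mul_of_nonneg_right h9 he.le
    have h12 := mul_le_mul_of_nonneg_right h3 he.le
    have h13 := mul_nonneg h4 he.le
    nlinarith

theorem tw_test (D : TwData Φ p a) {v : (ι → ℂ) → ℂ} (hv : (flat ι).Test v)
    {κ : (ι → ℂ) → ℝ} (hκ : Measurable κ) (hκ0 : ∀ x, 0 ≤ κ x)
    (hb : ∀ x ξ, ‖∑ j, (flat ι).db j v x * conj (ξ j)‖ ^ 2 ≤ κ x * tw Φ p a x ξ) {I : ℝ}
    (hI0 : 0 ≤ I)
    (hI : ∫⁻ x, ENNReal.ofReal (κ x * Real.exp (p x - Φ x)) ∂((flat ι).mu) ≤ ENNReal.ofReal I)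
    {α : ι → (ι → ℂ) → ℂ} (hα : ∀ j, (flat ι).Test (α j)) :
    ‖∫ x, (∑ j, (flat ι).db j v x * conj (α j x)) * (Real.exp (-Φ x) : ℝ) ∂((flat ι).mu)‖ ^ 2 ≤
      I * ∫ x, ‖(flat ι).del Φ α x‖ ^ 2 * ((1 + (a x)⁻¹) * Real.exp (-(Φ x + p x)))
        ∂((flat ι).mu) := by
  obtain ⟨β, hβ, hπ⟩ := RD.exists_proj D.hΦ hα
  have b1 := tw_apriori D hβ (RD.test_del D.hΦ hα) (fun u hu => by
    have h1 := hπ _ hu.conj
    simp only [RD.db_conj, conj_conj] at h1
    rw [RD.horm_split D.hΦ hα hβ (fun j => hu.dz j) h1, RD.ibp_del D.hΦ hα hu.1])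
    hv.2.isCompact
  have b2 : ∫ x, (∑ j, (flat ι).db j v x * conj (α j x)) * (Real.exp (-Φ x) : ℝ) ∂((flat ι).mu) =
      ∫ x in tsupport v, (∑ j, (flat ι).db j v x * conj (β j x)) *
        (Real.exp (-Φ x) : ℝ) ∂((flat ι).mu) := by
    rw [setIntegral_eq_integral_of_forall_compl_eq_zero fun x hx => by
      simp only [RD.db_eq_zero _ hx, zero_mul, Finset.sum_const_zero]]
    have h1 := congrArg conj (RD.horm_split D.hΦ hα hβ (fun j => (hv.db j).conj) (hπ v hv))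
    rw [← integral_conj, ← integral_conj] at h1
    simp only [map_mul, map_sum, conj_conj, conj_ofReal] at h1
    simp only [mul_comm ((flat ι).db _ v _), h1]
  rw [b2]
  refine horm_cs (p := fun x => κ x * Real.exp (p x - Φ x))
    (hκ.mul (Real.continuous_exp.comp (D.hp.continuous.sub D.hΦ.continuous)).measurable)
    (fun x => mul_nonneg (hκ0 x) (Real.exp_pos _).le)
    (fun x => mul_nonneg (D.pos x _) (Real.exp_pos _).le) (fun x => ?_) hI0
    (integral_nonneg fun x => by have := D.apos x; positivity)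
    ((setLIntegral_le_lintegral _ _).trans hI) b1
  rw [norm_mul, Complex.norm_of_nonneg (Real.exp_pos _).le, mul_pow, mul_mul_mul_comm,
    ← Real.exp_add, show p x - Φ x + -(Φ x + p x) = -Φ x + -Φ x by ring, Real.exp_add, ← sq]
  exact mul_le_mul_of_nonneg_right (hb x _) (sq_nonneg _)

theorem twisted (D : TwData Φ p a) {v : (ι → ℂ) → ℂ} (hv : (flat ι).Test v)
    {κ : (ι → ℂ) → ℝ} (hκ : Measurable κ) (hκ0 : ∀ x, 0 ≤ κ x)
    (hb : ∀ x ξ, ‖∑ j, (flat ι).db j v x * conj (ξ j)‖ ^ 2 ≤ κ x * tw Φ p a x ξ) {I : ℝ}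
    (hI0 : 0 ≤ I)
    (hI : ∫⁻ x, ENNReal.ofReal (κ x * Real.exp (p x - Φ x)) ∂((flat ι).mu) ≤ ENNReal.ofReal I) :
    ∃ u : (ι → ℂ) → ℂ, AEStronglyMeasurable u (flat ι).mu ∧
      ∫⁻ x, ENNReal.ofReal (‖u x‖ ^ 2 * (Real.exp (p x - Φ x) / (1 + (a x)⁻¹))) ∂((flat ι).mu) ≤
        ENNReal.ofReal I ∧ (flat ι).WHol fun x => v x - u x := by
  obtain ⟨s, hs⟩ : ∃ s : (ι → ℂ) → ℝ, ∀ x,
    s x = √((1 + (a x)⁻¹) * Real.exp (-(Φ x + p x))) := ⟨_, fun _ => rfl⟩
  have hsc : Continuous fun x => (s x : ℂ) := by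
    simp only [hs]
    exact continuous_ofReal.comp D.cont.sqrt
  have hs2 : ∀ x, s x ^ 2 = (1 + (a x)⁻¹) * Real.exp (-(Φ x + p x)) := fun x => by
    rw [hs, Real.sq_sqrt (by have := D.apos x; positivity)]
  have hm : ∀ b : (flat ι).hormV, MemLp (fun x => (s x : ℂ) * (flat ι).del Φ b x) 2 (flat ι).mu :=
    fun b => RD.apriori_memLp (RD.test_del D.hΦ b.2).memLp (RD.test_del D.hΦ b.2).2
      (fun x hx => image_eq_zero_of_notMem_tsupport hx) hsc
  obtain ⟨T, hT⟩ : ∃ T : (flat ι).hormV →ₗ[ℂ] Lp ℂ 2 (flat ι).mu,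
      ∀ b, ∀ᵐ x ∂((flat ι).mu), T b x = (s x : ℂ) * (flat ι).del Φ b x := by
    refine ⟨⟨⟨fun b => (hm b).toLp, fun b c => Lp.ext ?_⟩, fun c b => Lp.ext ?_⟩,
      fun b => (hm b).coeFn_toLp⟩
    · filter_upwards [(hm b).coeFn_toLp, (hm c).coeFn_toLp, (hm (b + c)).coeFn_toLp,
        Lp.coeFn_add (hm b).toLp (hm c).toLp] with x h1 h2 h3 h4
      rw [h3, h4, Pi.add_apply, h1, h2, RD.horm_del_add, mul_add]
    · filter_upwards [(hm b).coeFn_toLp, (hm (c • b)).coeFn_toLp,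
        Lp.coeFn_smul c (hm b).toLp] with x h1 h3 h4
      rw [RingHom.id_apply, h3, h4, Pi.smul_apply, h1, RD.horm_del_smul, smul_eq_mul,
        mul_left_comm]
  obtain ⟨Λ, hΛ⟩ := RD.horm_L D.hΦ hv.1
  obtain ⟨w, hw, hr⟩ := RD.exists_repr T Λ (Real.sqrt_nonneg I) fun b => by
    refine (abs_le_of_sq_le_sq' ?_ (by positivity)).2
    have h1 := tw_test D hv hκ hκ0 hb hI0 hI b.2
    rw [← RCLike.norm_conj, ← integral_conj] at h1
    simp only [map_mul, map_sum, conj_conj, conj_ofReal] at h1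
    rw [hΛ, mul_pow, Real.sq_sqrt hI0, horm_norm_sq]
    refine h1.trans (le_of_eq (congrArg _ (integral_congr_ae ?_)))
    filter_upwards [hT b] with x hx
    rw [hx, norm_mul, norm_real, Real.norm_eq_abs, mul_pow, sq_abs, hs2, mul_comm]
  have h1 : AEStronglyMeasurable (fun x => -w x * ((s x : ℂ) * (Real.exp (1 * Φ x) : ℝ)))
      (flat ι).mu := (Lp.aestronglyMeasurable w).neg.mul
    (hsc.mul (RD.horm_sm_exp D.hΦ _).continuous).aestronglyMeasurable
  have h2 : ∫⁻ x, ENNReal.ofReal (‖-w x * ((s x : ℂ) * (Real.exp (1 * Φ x) : ℝ))‖ ^ 2 *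
      (Real.exp (p x - Φ x) / (1 + (a x)⁻¹))) ∂((flat ι).mu) ≤ ENNReal.ofReal I := by
    have e : ∀ x, ‖-w x * ((s x : ℂ) * (Real.exp (1 * Φ x) : ℝ))‖ ^ 2 *
        (Real.exp (p x - Φ x) / (1 + (a x)⁻¹)) = ‖w x‖ ^ 2 := fun x => by
      have h3 : 0 < 1 + (a x)⁻¹ := by have := D.apos x; positivity
      have h4 : Real.exp (-(Φ x + p x)) * Real.exp (1 * Φ x) ^ 2 * Real.exp (p x - Φ x) = 1 := by
        rw [sq, ← Real.exp_add, ← Real.exp_add, ← Real.exp_add, Real.exp_eq_one_iff]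
        ring
      rw [norm_mul, norm_mul, norm_neg, norm_real, norm_real, Real.norm_eq_abs, Real.norm_eq_abs,
        mul_pow, mul_pow, sq_abs, sq_abs, hs2]
      calc _ = ‖w x‖ ^ 2 * (Real.exp (-(Φ x + p x)) * Real.exp (1 * Φ x) ^ 2 *
            Real.exp (p x - Φ x)) * ((1 + (a x)⁻¹) / (1 + (a x)⁻¹)) := by ring
        _ = _ := by rw [h4, div_self h3.ne', mul_one, mul_one]
    simp only [e]
    rw [← ofReal_integral_eq_lintegral_ofReal (horm_int_sq w)
      (.of_forall fun x => sq_nonneg _), ← horm_norm_sq]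
    exact ENNReal.ofReal_le_ofReal ((pow_le_pow_left₀ (norm_nonneg _) hw 2).trans
      (Real.sq_sqrt hI0).le)
  refine ⟨_, h1, h2, fun g hg j => ?_⟩
  have h3 := hr ⟨fun l x => if l = j then conj (g x) * (Real.exp (1 * Φ x) : ℝ) else 0,
    fun l => RD.horm_ite (hg.conj.mul_right (RD.horm_sm_exp D.hΦ 1)) _⟩
  rw [hΛ, horm_inner_one] at h3
  have h4 : ∫ x, (flat ι).db j v x * g x ∂((flat ι).mu) =
      ∫ x, w x * ((s x : ℂ) * (Real.exp (1 * Φ x) : ℝ)) * (flat ι).db j g x ∂((flat ι).mu) := by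
    refine (starRingEnd ℂ).injective ?_
    rw [← integral_conj, ← integral_conj]
    refine (integral_congr_ae (.of_forall fun x => ?_)).trans (h3.trans (integral_congr_ae ?_))
    · have h5 := RD.horm_exp 1 (-1) 0 (Φ x) (by ring)
      rw [neg_one_mul, zero_mul, Real.exp_zero, ofReal_one] at h5
      simp only [mul_ite, mul_zero, Finset.sum_ite_eq', Finset.mem_univ, if_true, map_mul]
      linear_combination (-conj ((flat ι).db j v x) * conj (g x)) * h5
    · filter_upwards [hT ⟨fun l x => if l = j then conj (g x) * (Real.exp (1 * Φ x) : ℝ) else 0,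
        fun l => RD.horm_ite (hg.conj.mul_right (RD.horm_sm_exp D.hΦ 1)) _⟩] with x hx
      rw [hx, RD.horm_del_single D.hΦ hg.1, map_mul, map_mul, map_mul, conj_ofReal, conj_ofReal]
      ring
  have hc : Continuous fun x => Real.exp (p x - Φ x) / (1 + (a x)⁻¹) :=
    (Real.continuous_exp.comp (D.hp.continuous.sub D.hΦ.continuous)).div
      (continuous_const.add (D.ha.inv₀ fun x => (D.apos x).ne'))
      fun x => by have := D.apos x; positivity
  simp only [sub_mul]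
  rw [integral_sub ((hg.db j).mul_left hv.1).integrable ((hg.db j).integrable_mul h1 hc
    (fun x => by have := D.apos x; positivity) (h2.trans_lt ENNReal.ofReal_lt_top)),
    RD.ibp_db hv.1 hg, h4]
  simp only [neg_mul, integral_neg, sub_self]

end Pool.Agent.MP_c52a38_ag.Int

end

-- part MP_c52a38_ag.Int.Weyl
section

/-! Weyl's lemma and the solution operator. -/

namespace Pool.Agent.MP_c52a38_ag.Int

open MeasureTheory Complex Metric Filter Topology Pool.Agent.MP_c0606f_ag.Klt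
open scoped ENNReal ContDiff ComplexConjugate

variable {ι : Type} [Fintype ι] [DecidableEq ι]

omit [DecidableEq ι] in
/-- the mean value inequality in real form -/
theorem mean_le {f : (ι → ℂ) → ℂ} {c : ι → ℂ} {r A : ℝ} (hr : 0 < r) (hA : 0 ≤ A)
    (hf : DifferentiableOn ℂ f (ball c r))
    (h : ∫⁻ q in ball c r, ENNReal.ofReal (‖f q‖ ^ 2) ≤ ENNReal.ofReal A) :
    ‖f c‖ ^ 2 ≤ A / (Real.pi * r ^ 2) ^ Fintype.card ι := by
  have h1 := (submean hf).trans h
  rw [volume_ball_eq c hr, ← ENNReal.ofReal_mul (by positivity),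
    ENNReal.ofReal_le_ofReal_iff hA] at h1
  rwa [le_div_iff₀ (by positivity)]

omit [DecidableEq ι] in
theorem memLp_ind {H : (ι → ℂ) → ℂ} (hm : AEStronglyMeasurable H) {w : (ι → ℂ) → ℝ}
    (hw : Continuous w) (hw0 : ∀ x, 0 < w x)
    (h2 : ∫⁻ x, ENNReal.ofReal (‖H x‖ ^ 2 * w x) < ⊤) {K : Set (ι → ℂ)} (hK : IsCompact K) :
    MemLp (K.indicator H) 2 volume := by
  obtain ⟨C, hC⟩ := hK.exists_bound_of_continuousOn
    (hw.inv₀ fun x => (hw0 x).ne').continuousOn
  have hi : Integrable fun x => ‖H x‖ ^ 2 * w x :=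
    ⟨(hm.norm.pow 2).mul hw.aestronglyMeasurable, (hasFiniteIntegral_iff_ofReal
      (Eventually.of_forall fun x => mul_nonneg (sq_nonneg _) (hw0 x).le)).2 h2⟩
  have hm' := hm.indicator hK.measurableSet
  rw [memLp_two_iff_integrable_sq_norm hm']
  refine (hi.const_mul |C|).mono' (hm'.norm.pow 2) (.of_forall fun x => ?_)
  rw [Real.norm_of_nonneg (sq_nonneg _)]
  have h0 := hw0 x
  by_cases hx : x ∈ K
  · rw [Set.indicator_of_mem hx]
    have h3 : (w x)⁻¹ ≤ |C| := (le_abs_self _).trans ((hC x hx).trans (le_abs_self C))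
    calc ‖H x‖ ^ 2 = (w x)⁻¹ * (‖H x‖ ^ 2 * w x) := by field_simp
      _ ≤ _ := by gcongr
  · rw [Set.indicator_of_notMem hx, norm_zero, zero_pow two_ne_zero]
    positivity

theorem weyl {H : (ι → ℂ) → ℂ} (hL : ∀ K, IsCompact K → MemLp (K.indicator H) 2 volume)
    (hw : ∀ g, FTest g → ∀ j, ∫ q, H q * fdb j g q = 0) :
    ∃ F : (ι → ℂ) → ℂ, Differentiable ℂ F ∧ ∀ᵐ q, F q = H q := by
  have hl : LocallyIntegrable H := fun x => by
    refine ⟨closedBall x 1, closedBall_mem_nhds x one_pos, ?_⟩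
    rw [← integrable_indicator_iff measurableSet_closedBall]
    have h1 := ((hL _ (isCompact_closedBall x 1)).locallyIntegrable one_le_two).integrableOn_isCompact
      (isCompact_closedBall x 1)
    rwa [← integrable_indicator_iff measurableSet_closedBall, Set.indicator_indicator,
      Set.inter_self] at h1
  have hd : ∀ n, Differentiable ℂ (moll n H) := fun n q =>
    differentiableAt_of_fdb ((contDiff_moll hl n).differentiable (by simp) q) fun j => by
      rw [fdb_moll hl, hw _ (fTest_ker n q), neg_zero]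
  have key : ∀ x : ι → ℂ, ∃ ε : ℕ → ℝ, Tendsto ε atTop (𝓝 0) ∧ ∀ n m, ∀ y ∈ ball x 2,
      ‖moll n H y - moll m H y‖ ≤ ε n + ε m := fun x => by
    have hK := hL _ (isCompact_closedBall x 4)
    set H' := (closedBall x 4).indicator H with hH'
    have hl' : LocallyIntegrable H' := hK.locallyIntegrable one_le_two
    have e : ∀ n, ∀ y ∈ ball x 3, moll n H y = moll n H' y := fun n y hy => by
      refine integral_congr_ae (.of_forall fun z => ?_)
      by_cases hz : ker n (y - z) = 0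
      · simp only [hz, mul_zero]
      · have h1 := moll_ker_dist hz
        have h2 : 1 / ((n : ℝ) + 1) ≤ 1 := by
          rw [div_le_one (by positivity)]; linarith [Nat.cast_nonneg (α := ℝ) n]
        have h3 : z ∈ closedBall x 4 := by
          rw [mem_closedBall]
          linarith [dist_triangle z y x, dist_comm y z, mem_ball.1 hy]
        simp only [hH', Set.indicator_of_mem h3]
    have hfin : ∀ n, eLpNorm (fun z => moll n H' z - H' z) 2 volume ≠ ⊤ := fun n =>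
      (MemLp.sub ⟨(contDiff_moll hl' n).continuous.aestronglyMeasurable,
        (eLpNorm_moll_le hK.1 n).trans_lt hK.2⟩ hK).2.ne
    have hc : 0 < √((Real.pi * 1 ^ 2) ^ Fintype.card ι) := by positivity
    refine ⟨fun n => (eLpNorm (fun z => moll n H' z - H' z) 2 volume).toReal /
      √((Real.pi * 1 ^ 2) ^ Fintype.card ι), ?_, fun n m y hy => ?_⟩
    · have h1 := (ENNReal.tendsto_toReal ENNReal.zero_ne_top).comp (tendsto_moll hK)
      have h2 := h1.div_const √((Real.pi * 1 ^ 2) ^ Fintype.card ι)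
      rw [ENNReal.toReal_zero, zero_div] at h2
      exact h2
    · have h1 : eLpNorm (fun z => moll n H' z - moll m H' z) 2 volume ≤
          eLpNorm (fun z => moll n H' z - H' z) 2 volume +
            eLpNorm (fun z => moll m H' z - H' z) 2 volume := by
        have h2 := eLpNorm_sub_le (p := 2) (μ := volume)
          ((contDiff_moll hl' n).continuous.aestronglyMeasurable.sub hK.1)
          ((contDiff_moll hl' m).continuous.aestronglyMeasurable.sub hK.1) one_le_two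
        refine le_trans (le_of_eq ?_) h2
        congr 1
        funext z
        simp
      obtain ⟨A, hA⟩ : ∃ A : ℝ, A = (eLpNorm (fun z => moll n H' z - H' z) 2 volume).toReal +
        (eLpNorm (fun z => moll m H' z - H' z) 2 volume).toReal := ⟨_, rfl⟩
      have hA0 : 0 ≤ A := by rw [hA]; positivity
      rw [← ENNReal.ofReal_toReal (hfin n), ← ENNReal.ofReal_toReal (hfin m),
        ← ENNReal.ofReal_add ENNReal.toReal_nonneg ENNReal.toReal_nonneg, ← hA,
        moll_eLpNorm] at h1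
      have h2 := ENNReal.rpow_le_rpow h1 (zero_le_two (α := ℝ))
      rw [← ENNReal.rpow_mul, show (1 / 2 * 2 : ℝ) = 1 by norm_num, ENNReal.rpow_one,
        ENNReal.rpow_two, ← ENNReal.ofReal_pow hA0] at h2
      have h3 := mean_le (f := fun z => moll n H z - moll m H z) (c := y) one_pos (sq_nonneg A)
        ((hd n).sub (hd m)).differentiableOn (le_trans (le_of_eq (setLIntegral_congr_fun
          measurableSet_ball fun z hz => by
            have h4 : z ∈ ball x 3 := by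
              rw [mem_ball] at *
              linarith [dist_triangle z y x]
            simp only [e _ z h4])) ((setLIntegral_le_lintegral _ _).trans h2))
      rw [← add_div, ← hA]
      refine (abs_le_of_sq_le_sq' ?_ (by positivity)).2
      rwa [div_pow, Real.sq_sqrt (by positivity)]
  have hC : ∀ y, ∃ l, Tendsto (fun n => moll n H y) atTop (𝓝 l) := fun y => by
    obtain ⟨ε, h1, h2⟩ := key y
    refine cauchySeq_tendsto_of_complete (Metric.cauchySeq_iff'.2 fun δ hδ => ?_)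
    obtain ⟨N, hN⟩ := eventually_atTop.1 (h1.eventually (gt_mem_nhds (half_pos hδ)))
    refine ⟨N, fun n hn => ?_⟩
    rw [dist_eq_norm]
    linarith [h2 n N y (mem_ball_self two_pos), hN n hn, hN N le_rfl]
  choose F hF using hC
  refine ⟨F, fun x => ?_, ?_⟩
  · obtain ⟨ε, h1, h2⟩ := key x
    refine Pool.Agent.Lib.SCV.differentiableAt_of_unif_limit (g := fun n => moll n H) one_pos
      (fun n => (hd n).differentiableOn) h1 fun n y hy => ?_
    have h3 := ((tendsto_const_nhds (x := moll n H y)).sub (hF y)).norm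
    have h4 := (tendsto_const_nhds (x := ε n)).add h1
    rw [add_zero] at h4
    exact le_of_tendsto_of_tendsto' h3 h4 fun m => h2 n m y (by simpa using hy)
  · filter_upwards [ae_tendsto_moll hl] with q hq
    exact tendsto_nhds_unique (hF q) hq

variable {Φ p a : (ι → ℂ) → ℝ}

/-- the twisted estimate with an entire solution -/
theorem solve (D : TwData Φ p a) {v : (ι → ℂ) → ℂ} (hv : (flat ι).Test v)
    {κ : (ι → ℂ) → ℝ} (hκ : Measurable κ) (hκ0 : ∀ x, 0 ≤ κ x)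
    (hb : ∀ x ξ, ‖∑ j, (flat ι).db j v x * conj (ξ j)‖ ^ 2 ≤ κ x * tw Φ p a x ξ) {I : ℝ}
    (hI0 : 0 ≤ I) (hI : ∫⁻ x, ENNReal.ofReal (κ x * Real.exp (p x - Φ x)) ≤ ENNReal.ofReal I) :
    ∃ F : (ι → ℂ) → ℂ, Differentiable ℂ F ∧
      ∫⁻ x, ENNReal.ofReal (‖v x - F x‖ ^ 2 * (Real.exp (p x - Φ x) / (1 + (a x)⁻¹))) ≤
        ENNReal.ofReal I := by
  obtain ⟨u, h1, h2, h3⟩ := twisted D hv hκ hκ0 hb hI0 (by rwa [flat_mu])
  rw [flat_mu] at h1 h2
  have hc : Continuous fun x => Real.exp (p x - Φ x) / (1 + (a x)⁻¹) :=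
    (Real.continuous_exp.comp (D.hp.continuous.sub D.hΦ.continuous)).div
      (continuous_const.add (D.ha.inv₀ fun x => (D.apos x).ne'))
      fun x => by have := D.apos x; positivity
  obtain ⟨F, hF, e⟩ := weyl (H := fun x => v x - u x) (fun K hK => by
    have h4 := memLp_ind h1 hc (fun x => by have := D.apos x; positivity)
      (h2.trans_lt ENNReal.ofReal_lt_top) hK
    have h5 : MemLp v 2 volume := by
      have := hv.memLp
      rwa [flat_mu] at this
    have h6 := (h5.indicator hK.measurableSet).sub h4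
    rwa [← Set.indicator_sub'] at h6) fun g hg j => by
      have h4 := h3 g ⟨sm_of hg.1, hg.2⟩ j
      simpa only [flat_mu, flat_db] using h4
  refine ⟨F, hF, le_trans (le_of_eq (lintegral_congr_ae ?_)) h2⟩
  filter_upwards [e] with x hx
  rw [hx, sub_sub_cancel]

/-- the untwisted case -/
theorem solve0 (hΦ : (flat ι).SmR Φ) (hp : ∀ x ξ, 0 ≤ (flat ι).levi Φ x ξ) {v : (ι → ℂ) → ℂ}
    (hv : (flat ι).Test v) {κ : (ι → ℂ) → ℝ} (hκ : Measurable κ) (hκ0 : ∀ x, 0 ≤ κ x)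
    (hb : ∀ x ξ, ‖∑ j, (flat ι).db j v x * conj (ξ j)‖ ^ 2 ≤ κ x * (flat ι).levi Φ x ξ) {I : ℝ}
    (hI0 : 0 ≤ I) (hI : ∫⁻ x, ENNReal.ofReal (κ x * Real.exp (-Φ x)) ≤ ENNReal.ofReal I) :
    ∃ F : (ι → ℂ) → ℂ, Differentiable ℂ F ∧
      ∫⁻ x, ENNReal.ofReal (‖v x - F x‖ ^ 2 * Real.exp (-Φ x)) ≤ ENNReal.ofReal (2 * I) := by
  have e : ∀ x ξ, tw Φ (fun _ => 0) (fun _ => 1) x ξ = (flat ι).levi Φ x ξ := fun x ξ => by
    simp [tw, RD.dd, RD.dz_const]
  obtain ⟨F, hF, h⟩ := solve (Φ := Φ) (p := fun _ => 0) (a := fun _ => 1)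
    ⟨hΦ, RD.SmR.const 0, continuous_const, ⟨1, one_pos, fun _ => le_rfl⟩, ⟨0, fun _ => by simp⟩,
      fun x ξ => by rw [e]; exact hp x ξ⟩ hv hκ hκ0 (fun x ξ => by rw [e]; exact hb x ξ) hI0
    (by simpa only [zero_sub] using hI)
  refine ⟨F, hF, ?_⟩
  rw [ENNReal.ofReal_mul zero_le_two]
  refine le_trans (le_of_eq ?_) (mul_le_mul_right h _)
  rw [← lintegral_const_mul' _ _ ENNReal.ofReal_ne_top]
  refine lintegral_congr fun x => ?_
  rw [← ENNReal.ofReal_mul zero_le_two, zero_sub]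
  congr 1
  ring

end Pool.Agent.MP_c52a38_ag.Int

end

-- part MP_c52a38_ag.Int.Prof
section

/-! The one-variable profiles of the twisted estimate. -/

namespace Pool.Agent.MP_c52a38_ag.Int

open MeasureTheory Filter Topology
open scoped ContDiff

theorem exists_anti : ∃ (b : ℝ → ℝ) (L : ℝ), 0 < L ∧ ContDiff ℝ ∞ b ∧ (∀ t, t ≤ 1 → b t = 1) ∧
    (∀ t, 2 ≤ t → b t = 0) ∧ (∀ t, 0 ≤ b t ∧ b t ≤ 1) ∧ (∀ t, -L ≤ deriv b t ∧ deriv b t ≤ 0) ∧
    ∀ t, t ≤ 1 ∨ 2 ≤ t → deriv b t = 0 := by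
  set b : ℝ → ℝ := fun t => Real.smoothTransition (2 - t) with hb
  have hs : ContDiff ℝ ∞ b := Real.smoothTransition.contDiff.comp (contDiff_const.sub contDiff_id)
  have h1 : ∀ t, t ≤ 1 → b t = 1 := fun t ht =>
    Real.smoothTransition.one_of_one_le (by linarith)
  have h0 : ∀ t, 2 ≤ t → b t = 0 := fun t ht =>
    Real.smoothTransition.zero_of_nonpos (by linarith)
  have h01 : ∀ t, 0 ≤ b t ∧ b t ≤ 1 := fun t =>
    ⟨Real.smoothTransition.nonneg _, Real.smoothTransition.le_one _⟩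
  have hd : ∀ t, t ≤ 1 ∨ 2 ≤ t → deriv b t = 0 := by
    rintro t (ht | ht)
    · exact IsLocalMax.deriv_eq_zero (Eventually.of_forall fun y => (h01 y).2.trans (h1 t ht).ge)
    · exact IsLocalMin.deriv_eq_zero (Eventually.of_forall fun y => (h0 t ht).le.trans (h01 y).1)
  have ha : Antitone b := fun s t h => Real.smoothTransition.monotone (by linarith)
  obtain ⟨B, hB⟩ := (isCompact_Icc (a := (1 : ℝ)) (b := 2)).exists_bound_of_continuousOn
    (hs.continuous_deriv (by simp)).continuousOn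
  refine ⟨b, |B| + 1, by positivity, hs, h1, h0, h01, fun t => ⟨?_, ha.deriv_nonpos⟩, hd⟩
  by_cases ht : t ∈ Set.Icc (1 : ℝ) 2
  · linarith [neg_abs_le (deriv b t), le_abs_self B, show |deriv b t| ≤ B from hB t ht]
  · rw [hd t (by rcases not_and_or.1 ht with h' | h' <;> [left; right] <;> linarith [not_le.1 h'])]
    linarith [abs_nonneg B]

theorem exists_profile : ∃ L : ℝ, 0 < L ∧ ∀ S : ℝ, 1 ≤ S → ∃ P c a : ℝ → ℝ,
    (∀ t, 0 ≤ t → ContDiffAt ℝ ∞ P t) ∧ ContDiff ℝ ∞ c ∧ Continuous a ∧ Measurable P ∧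
    (∀ t, 0 ≤ t → (4 * Real.exp (2 * S))⁻¹ ≤ a t) ∧ (∀ t, 0 ≤ t → -P t ≤ 4 * S) ∧
    (∀ t, 0 ≤ t → -2 ≤ deriv P t ∧ deriv P t ≤ 0) ∧
    (∀ t, 0 ≤ t → 0 ≤ deriv (deriv P) t - (1 + a t) * deriv P t ^ 2) ∧
    (∀ t, 0 ≤ t → deriv c t ^ 2 ≤
      L / S * Real.exp (-P t) * (deriv (deriv P) t - (1 + a t) * deriv P t ^ 2)) ∧
    (∀ t, t ≤ S ∨ 2 * S ≤ t → deriv c t = 0) ∧ (∀ t, 0 ≤ c t ∧ c t ≤ 1) ∧
    (∀ t, t ≤ S → c t = 0) ∧ (∀ t, 2 * S ≤ t → c t = 1) ∧
    (∀ t, S ≤ t → Real.exp (P t) ≤ 1 / S) ∧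
    ∀ t, 0 ≤ t → Real.exp (-min t (2 * S)) / 6 ≤ Real.exp (P t) / (1 + (a t)⁻¹) := by
  obtain ⟨b0, L, hL, hb0, b1, b2, b3, b4, b5⟩ := exists_anti
  refine ⟨L, hL, fun S hS => ?_⟩
  have hS0 : 0 < S := by linarith
  set b : ℝ → ℝ := fun t => b0 (S⁻¹ * t) with hbd
  have hb : ContDiff ℝ ∞ b := hb0.comp (contDiff_const.mul contDiff_id)
  have db : ∀ t, deriv b t = S⁻¹ * deriv b0 (S⁻¹ * t) := fun t => by
    rw [hbd, deriv_comp_mul_left, smul_eq_mul]
  have l1 : ∀ t, t ≤ S → S⁻¹ * t ≤ 1 := fun t ht => by rwa [inv_mul_le_iff₀ hS0, mul_one]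
  have l2 : ∀ t, 2 * S ≤ t → 2 ≤ S⁻¹ * t := fun t ht => by rwa [le_inv_mul_iff₀ hS0, mul_comm]
  set k : ℝ → ℝ := fun t => (1 + Real.exp (-t)) * b t with hkd
  have hk : ContDiff ℝ ∞ k := (contDiff_const.add (Real.contDiff_exp.comp contDiff_neg)).mul hb
  have hc := hk.continuous
  have k0 : ∀ t, 0 ≤ k t := fun t => mul_nonneg (by positivity) (b3 _).1
  have ex : ∀ t, 0 ≤ t → Real.exp (-t) ≤ 1 := fun t ht => Real.exp_le_one_iff.2 (by linarith)
  have k2 : ∀ t, 0 ≤ t → k t ≤ 2 * b t := fun t ht =>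
    mul_le_mul_of_nonneg_right (by linarith [ex t ht]) (b3 _).1
  have dk : ∀ t, HasDerivAt k (-Real.exp (-t) * b t + (1 + Real.exp (-t)) * deriv b t) t :=
    fun t => by
      have h1 : HasDerivAt (fun t => 1 + Real.exp (-t)) (-Real.exp (-t)) t := by
        simpa using ((hasDerivAt_neg t).exp).const_add 1
      exact h1.mul (hb.differentiable (by simp) t).hasDerivAt
  set T : ℝ → ℝ := fun t => 1 + ∫ x in (0 : ℝ)..t, k x with hTd
  have dT : ∀ t, HasDerivAt T (k t) t := fun t =>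
    (hc.integral_hasStrictDerivAt 0 t).hasDerivAt.const_add 1
  have hT : ContDiff ℝ ∞ T := contDiff_infty_iff_deriv.2 ⟨fun t => (dT t).differentiableAt, by
    rwa [show deriv T = k from funext fun t => (dT t).deriv]⟩
  have split : ∀ s t, T t = T s + ∫ x in s..t, k x := fun s t => by
    simp only [hTd]
    rw [add_assoc, intervalIntegral.integral_add_adjacent_intervals (hc.intervalIntegrable _ _)
      (hc.intervalIntegrable _ _)]
  have Tm : ∀ s t, s ≤ t → T s ≤ T t := fun s t h => by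
    rw [split s t]
    linarith [intervalIntegral.integral_nonneg (μ := volume) h fun x _ => k0 x]
  have T0 : T 0 = 1 := by simp [hTd]
  have T1 : ∀ t, 0 ≤ t → 1 ≤ T t := fun t ht => T0 ▸ Tm 0 t ht
  have T2 : ∀ t, 0 ≤ t → T t ≤ 1 + 2 * t := fun t ht => by
    have h2 := intervalIntegral.integral_mono_on (μ := volume) ht (hc.intervalIntegrable 0 t)
      ((continuous_const (y := (2 : ℝ))).intervalIntegrable 0 t)
      fun x hx => (k2 x hx.1).trans (by linarith [(b3 (S⁻¹ * x)).2])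
    rw [intervalIntegral.integral_const, smul_eq_mul] at h2
    simp only [hTd]
    linarith
  have T3 : ∀ t, 2 * S ≤ t → T t = T (2 * S) := fun t ht => by
    rw [split (2 * S) t, intervalIntegral.integral_congr (g := fun _ => 0)]
    · simp
    · intro x hx
      rw [Set.uIcc_of_le ht] at hx
      simp only [hkd, hbd, b2 _ (l2 x hx.1), mul_zero]
  have T4 : ∀ t, 0 ≤ t → T t ≤ 1 + 2 * min t (2 * S) := fun t ht => by
    rcases le_total t (2 * S) with h | h
    · rw [min_eq_left h]; exact T2 t ht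
    · rw [min_eq_right h, T3 t h]; exact T2 _ (by linarith)
  have T5 : ∀ t, S ≤ t → S ≤ T t := fun t ht => by
    have h2 := intervalIntegral.integral_mono_on (μ := volume) hS0.le
      ((continuous_const (y := (1 : ℝ))).intervalIntegrable 0 S) (hc.intervalIntegrable 0 S)
      fun x hx => by
        simp only [hkd, hbd, b1 _ (l1 x hx.2), mul_one]
        linarith [Real.exp_pos (-x)]
    rw [intervalIntegral.integral_const, smul_eq_mul] at h2
    have h3 := Tm S t ht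
    simp only [hTd] at h3 ⊢
    linarith
  have dP : ∀ t, 0 < T t → HasDerivAt (fun t => -Real.log (T t)) (-(k t / T t)) t :=
    fun t ht => ((dT t).log ht.ne').neg
  have ddP : ∀ t, 0 ≤ t → deriv (deriv fun t => -Real.log (T t)) t =
      -(((-Real.exp (-t) * b t + (1 + Real.exp (-t)) * deriv b t) * T t - k t * k t) / T t ^ 2) :=
    fun t ht => by
      have h1 : 0 < T t := by linarith [T1 t ht]
      have h2 : (deriv fun t => -Real.log (T t)) =ᶠ[𝓝 t] fun t => -(k t / T t) := by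
        filter_upwards [hT.continuous.continuousAt.eventually (lt_mem_nhds h1)] with s hs
        exact (dP s hs).deriv
      rw [h2.deriv_eq]
      exact (((dk t).div (dT t) h1.ne').neg).deriv
  have eP : ∀ t, 0 ≤ t → Real.exp (-Real.log (T t)) = (T t)⁻¹ := fun t ht => by
    rw [Real.exp_neg, Real.exp_log (by linarith [T1 t ht])]
  have key : ∀ t, 0 ≤ t → -deriv b t ≤ T t * (deriv (deriv fun t => -Real.log (T t)) t -
      (1 + T t / (4 * Real.exp (min t (2 * S)))) * deriv (fun t => -Real.log (T t)) t ^ 2) :=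
    fun t ht => by
      have h1 : 0 < T t := by linarith [T1 t ht]
      rw [ddP t ht, (dP t h1).deriv]
      have h2 : T t * (-(((-Real.exp (-t) * b t + (1 + Real.exp (-t)) * deriv b t) * T t -
          k t * k t) / T t ^ 2) - (1 + T t / (4 * Real.exp (min t (2 * S)))) * (-(k t / T t)) ^ 2) =
          Real.exp (-t) * b t - (1 + Real.exp (-t)) * deriv b t -
            k t ^ 2 / (4 * Real.exp (min t (2 * S))) := by
        field_simp
        ring
      have h3 : k t ^ 2 / (4 * Real.exp (min t (2 * S))) ≤ Real.exp (-t) * b t := by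
        rcases le_total t (2 * S) with h | h
        · rw [min_eq_left h, Real.exp_neg, div_le_iff₀ (by positivity)]
          have h4 := pow_le_pow_left₀ (k0 t) (k2 t ht) 2
          have h5 : b t ^ 2 ≤ b t := by nlinarith [b3 (S⁻¹ * t)]
          have h6 : (Real.exp t)⁻¹ * b t * (4 * Real.exp t) = 4 * b t := by field_simp
          linarith
        · simp only [hkd, hbd, b2 _ (l2 t h), mul_zero]
          simp
      have h4 : deriv b t ≤ 0 := by
        rw [db]; exact mul_nonpos_of_nonneg_of_nonpos (by positivity) (b4 _).2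
      rw [h2]
      nlinarith [Real.exp_pos (-t)]
  have dc : ∀ t, deriv (fun t => 1 - b t) t = -deriv b t := fun t => by
    rw [deriv_const_sub]
  have hb4 : ∀ t, 0 ≤ -deriv b t ∧ -deriv b t ≤ L / S := fun t => by
    rw [db, div_eq_inv_mul, ← mul_neg]
    exact ⟨mul_nonneg (by positivity) (by linarith [(b4 (S⁻¹ * t)).2]),
      mul_le_mul_of_nonneg_left (by linarith [(b4 (S⁻¹ * t)).1]) (by positivity)⟩
  refine ⟨fun t => -Real.log (T t), fun t => 1 - b t,
    fun t => T t / (4 * Real.exp (min t (2 * S))), fun t ht => ?_, contDiff_const.sub hb, ?_,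
    hT.continuous.measurable.log.neg,
    fun t ht => ?_, fun t ht => ?_, fun t ht => ?_, fun t ht => ?_, fun t ht => ?_,
    fun t ht => ?_, fun t => ?_, fun t ht => ?_, fun t ht => ?_, fun t ht => ?_, fun t ht => ?_⟩
  · exact (hT.contDiffAt.log (by linarith [T1 t ht])).neg
  · exact hT.continuous.div (by fun_prop) fun t => by positivity
  · rw [le_div_iff₀ (by positivity), inv_mul_le_iff₀ (by positivity)]
    have := Real.exp_le_exp.2 (min_le_right t (2 * S))
    nlinarith [T1 t ht, Real.exp_pos (2 * S)]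
  · have h1 := Real.log_le_sub_one_of_pos (show 0 < T t by linarith [T1 t ht])
    have h2 := T4 t ht
    have h3 := min_le_right t (2 * S)
    linarith
  · have h1 : 0 < T t := by linarith [T1 t ht]
    rw [(dP t h1).deriv]
    refine ⟨neg_le_neg ((div_le_iff₀ h1).2 ?_), neg_nonpos.2 (div_nonneg (k0 t) h1.le)⟩
    linarith [k2 t ht, (b3 (S⁻¹ * t)).2, T1 t ht]
  · exact nonneg_of_mul_nonneg_right ((hb4 t).1.trans (key t ht)) (by linarith [T1 t ht])
  · rw [dc, neg_neg, Real.exp_log (by linarith [T1 t ht]), mul_assoc, sq]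
    exact mul_le_mul (hb4 t).2 (key t ht) (hb4 t).1 (by positivity)
  · rw [dc, db, b5 _ (ht.imp (l1 t) (l2 t)), mul_zero, neg_zero]
  · constructor <;> linarith [(b3 (S⁻¹ * t)).1, (b3 (S⁻¹ * t)).2]
  · simp only [hbd, b1 _ (l1 t ht), sub_self]
  · simp only [hbd, b2 _ (l2 t ht), sub_zero]
  · rw [eP t (by linarith), one_div]
    exact inv_anti₀ hS0 (T5 t ht)
  · have h1 : 0 < T t := by linarith [T1 t ht]
    have h2 := Real.add_one_le_exp (min t (2 * S))
    have h3 := T4 t ht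
    have h4 := Real.exp_pos (min t (2 * S))
    rw [eP t ht, Real.exp_neg, inv_div, div_le_div_iff₀ (by norm_num) (by positivity)]
    have h5 : (Real.exp (min t (2 * S)))⁻¹ * (1 + 4 * Real.exp (min t (2 * S)) / T t) =
        (T t)⁻¹ * ((T t + 4 * Real.exp (min t (2 * S))) / Real.exp (min t (2 * S))) := by
      field_simp
    rw [h5]
    refine mul_le_mul_of_nonneg_left ((div_le_iff₀ h4).2 ?_) (by positivity)
    linarith

end Pool.Agent.MP_c52a38_ag.Int

end

-- part MP_c52a38_ag.Int.Local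
section

/-! The local twisted problem. -/

namespace Pool.Agent.MP_c52a38_ag.Int

open MeasureTheory Complex Metric Filter Topology Pool.Agent.MP_c0606f_ag.Klt
open scoped ENNReal ContDiff ComplexConjugate

theorem nsq_le (z : E3) : ∑ j, ‖z j‖ ^ 2 ≤ 3 * ‖z‖ ^ 2 := by
  rw [Fin.sum_univ_three]
  have h : ∀ j, ‖z j‖ ^ 2 ≤ ‖z‖ ^ 2 := fun j =>
    pow_le_pow_left₀ (norm_nonneg _) (norm_le_pi_norm z j) 2
  linarith [h 0, h 1, h 2]

theorem exists_bump : ∃ B : ℝ, 0 < B ∧ ∀ (c : E3) (r : ℝ), 0 < r → ∃ χ : E3 → ℝ,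
    (∀ z, 0 ≤ χ z ∧ χ z ≤ 1) ∧ (∀ z ∈ ball c r, χ z = 1) ∧ (∀ z, z ∉ ball c (2 * r) → χ z = 0) ∧
    ∀ g : E3 → ℂ, Differentiable ℂ g → (flat (Fin 3)).Test (fun z => g z * χ z) ∧ ∀ z ξ : E3,
      ‖∑ j, (flat (Fin 3)).db j (fun z => g z * χ z) z * conj (ξ j)‖ ^ 2 ≤
        (ball c (2 * r) \ ball c r).indicator (fun z => B / r ^ 2 * ‖g z‖ ^ 2) z *
          ∑ j, ‖ξ j‖ ^ 2 := by
  obtain ⟨χ, B, hχ, χ1, χ0, χ01, χB, χd⟩ := exists_step (show (3 : ℝ) < 4 by norm_num)
  refine ⟨4 * (B ^ 2 + 1), by positivity, fun c r hr => ?_⟩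
  have hF : ∀ i, (flat (Fin 3)).Hol fun z => z i - c i := fun i =>
    (hol_coord i).sub (RD.Hol.const _)
  have hγ : ContDiff ℝ ∞ fun t => χ ((r ^ 2)⁻¹ * t) := hχ.comp (contDiff_const.mul contDiff_id)
  have n1 : ∀ z ∈ ball c r, (r ^ 2)⁻¹ * ∑ i, ‖z i - c i‖ ^ 2 ≤ 3 := fun z hz => by
    rw [inv_mul_le_iff₀ (by positivity)]
    have h1 := nsq_le (z - c)
    have h2 := pow_le_pow_left₀ (norm_nonneg _) (mem_ball_iff_norm.1 hz).le 2
    simp only [Pi.sub_apply] at h1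
    linarith
  have n2 : ∀ z, z ∉ ball c (2 * r) → 4 ≤ (r ^ 2)⁻¹ * ∑ i, ‖z i - c i‖ ^ 2 := fun z hz => by
    rw [le_inv_mul_iff₀ (by positivity)]
    have h1 := norm_sq_le_nsq (z - c)
    have h2 := pow_le_pow_left₀ (by positivity) (not_lt.1 (mem_ball_iff_norm.not.1 hz)) 2
    simp only [Pi.sub_apply] at h1
    linarith
  refine ⟨fun z => χ ((r ^ 2)⁻¹ * ∑ i, ‖z i - c i‖ ^ 2), fun z => χ01 _, fun z hz => χ1 _ (n1 z hz),
    fun z hz => χ0 _ (n2 z hz), fun g hg => ⟨⟨RD.sm_cut hF (hol_of hg) hγ,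
      HasCompactSupport.intro (isCompact_closedBall c (2 * r)) fun z hz => ?_⟩, fun z ξ => ?_⟩⟩
  · simp only [χ0 _ (n2 z fun h => hz (ball_subset_closedBall h)), ofReal_zero, mul_zero]
  · refine (RD.db_cut hF (hol_of hg) hγ z ξ).trans ?_
    simp only [RD.dd_sub_const (hol_coord _).1, dd_coord]
    refine mul_le_mul_of_nonneg_right ?_ (by positivity)
    rw [deriv_comp_mul_left, smul_eq_mul]
    by_cases h : z ∈ ball c (2 * r) \ ball c r
    · rw [Set.indicator_of_mem h]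
      have h0 : 0 ≤ (r ^ 2)⁻¹ * ∑ i, ‖z i - c i‖ ^ 2 := by positivity
      rcases le_total 4 ((r ^ 2)⁻¹ * ∑ i, ‖z i - c i‖ ^ 2) with h1 | h1
      · rw [χd _ (Or.inr h1)]
        simp only [mul_zero, ne_eq, OfNat.ofNat_ne_zero, not_false_eq_true, zero_pow, zero_mul]
        positivity
      · have h2 := pow_le_pow_left₀ (abs_nonneg _) (χB ((r ^ 2)⁻¹ * ∑ i, ‖z i - c i‖ ^ 2)) 2
        rw [sq_abs] at h2
        calc _ = ((r ^ 2)⁻¹ * ∑ i, ‖z i - c i‖ ^ 2) *
              deriv χ ((r ^ 2)⁻¹ * ∑ i, ‖z i - c i‖ ^ 2) ^ 2 / r ^ 2 * ‖g z‖ ^ 2 := by ring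
          _ ≤ _ := by gcongr; linarith
    · rw [Set.indicator_of_notMem h]
      have h1 : deriv χ ((r ^ 2)⁻¹ * ∑ i, ‖z i - c i‖ ^ 2) = 0 := by
        by_cases h2 : z ∈ ball c r
        · exact χd _ (Or.inl (n1 z h2))
        · exact χd _ (Or.inr (n2 z fun h3 => h ⟨h3, h2⟩))
      simp [h1]

/-- the set that carries the error term -/
def band (x : E3 → ℝ) (S : ℝ) : Set E3 :=
  {z | z ∈ ball (0 : E3) (1 / 8) ∧ S < x z ∧ (x z < 2 * S ∨ z ∉ ball (0 : E3) (1 / 16))}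

theorem measurableSet_band {x : E3 → ℝ} (hx : Continuous x) (S : ℝ) : MeasurableSet (band x S) :=
  measurableSet_ball.inter ((isOpen_lt continuous_const hx).measurableSet.inter
    ((isOpen_lt hx continuous_const).measurableSet.union measurableSet_ball.compl))

theorem sq_add_le (a b : ℂ) : ‖a + b‖ ^ 2 ≤ 2 * ‖a‖ ^ 2 + 2 * ‖b‖ ^ 2 := by
  nlinarith [pow_le_pow_left₀ (norm_nonneg _) (norm_add_le a b) 2, sq_nonneg (‖a‖ - ‖b‖)]

theorem local_solve {Q : ℝ} (hQ : 0 ≤ Q) : ∃ C : ℝ, 0 < C ∧ ∀ x : E3 → ℝ, (flat (Fin 3)).SmR x →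
    (∀ z, 0 ≤ x z) → (∀ z ξ, (flat (Fin 3)).levi x z ξ ≤ Q * ∑ j, ‖ξ j‖ ^ 2) → ∀ S : ℝ, 1 ≤ S →
    ∀ f : E3 → ℂ, Differentiable ℂ f → ∀ J : ℝ, 0 ≤ J →
    ∫⁻ z in band x S, ENNReal.ofReal (‖f z‖ ^ 2 * Real.exp (x z)) ≤ ENNReal.ofReal (S * J) →
    ∃ (G : E3 → ℂ) (c : E3 → ℝ), Differentiable ℂ G ∧ Continuous c ∧ (∀ z, 0 ≤ c z ∧ c z ≤ 1) ∧
      (∀ z, x z ≤ S → c z = 0) ∧ (∀ z, 2 * S ≤ x z → c z = 1) ∧
      ∫⁻ z in ball (0 : E3) (1 / 16), ENNReal.ofReal (‖f z * c z - G z‖ ^ 2 *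
        Real.exp (x z - min (x z) (2 * S))) ≤ ENNReal.ofReal (C * J) := by
  obtain ⟨B, hB, hbump⟩ := exists_bump
  obtain ⟨L, hL, hprof⟩ := exists_profile
  obtain ⟨χ, χ01, χ1, χ0, hχ⟩ := hbump 0 (1 / 16) (by norm_num)
  rw [show 2 * (1 / 16 : ℝ) = 1 / 8 by norm_num] at χ0 hχ
  refine ⟨6 * Real.exp (3 * Q + 1) * (512 * B + 2 * L), by positivity,
    fun x hx x0 xl S hS f hf J hJ hI => ?_⟩
  obtain ⟨P, c, a, hP, hc, ha, mP, a0, P0, dP, θ0, dc, dc0, c01, c0, c1, PS, out⟩ := hprof S hS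
  obtain ⟨hv, hdv⟩ := hχ f hf
  have hS0 : 0 < S := by linarith
  have hxc := hx.continuous
  have sp : (flat (Fin 3)).SmR fun z => P (x z) := hx.comp fun z => hP _ (x0 z)
  have sc : (flat (Fin 3)).SmR fun z => c (x z) := hx.comp fun z => hc.contDiffAt
  have s1 : (flat (Fin 3)).SmR fun z => (-1) * x z := (RD.SmR.const _).mul hx
  have s2 : (flat (Fin 3)).SmR fun z : E3 => (3 * Q + 1) * ∑ j, ‖z j‖ ^ 2 :=
    (RD.SmR.const _).mul smR_nsq
  have hn : ∀ ξ : E3, 0 ≤ ∑ j, ‖ξ j‖ ^ 2 := fun ξ => by positivity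
  have ddc : ∀ {γ : ℝ → ℝ} (z ξ : E3), DifferentiableAt ℝ γ (x z) →
      (flat (Fin 3)).dd (fun z => (γ (x z) : ℂ)) z ξ =
        (deriv γ (x z) : ℝ) * (flat (Fin 3)).dd (fun z => (x z : ℂ)) z ξ := fun z ξ h => by
    simp only [RD.dd, RD.dz_comp _ hx h, Finset.mul_sum, mul_assoc]
  have htw : ∀ z ξ : E3, ∑ j, ‖ξ j‖ ^ 2 + (deriv (deriv P) (x z) - (1 + a (x z)) *
      deriv P (x z) ^ 2) * ‖(flat (Fin 3)).dd (fun z => (x z : ℂ)) z ξ‖ ^ 2 ≤
      tw (fun z => (-1) * x z + (3 * Q + 1) * ∑ j, ‖z j‖ ^ 2) (fun z => P (x z))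
        (fun z => a (x z)) z ξ := fun z ξ => by
    unfold tw
    rw [RD.levi_add (s1.add s2) sp, RD.levi_add s1 s2, RD.levi_const_mul hx,
      RD.levi_const_mul smR_nsq, RD.levi_comp hx fun z => hP _ (x0 z),
      RD.levi_sumSq fun j => hol_coord j, ddc z ξ ((hP _ (x0 z)).differentiableAt (by simp)),
      norm_mul, mul_pow, norm_real, Real.norm_eq_abs, sq_abs]
    simp only [dd_coord]
    have h1 := mul_le_mul_of_nonneg_left (xl z ξ)
      (show 0 ≤ 1 - deriv P (x z) by linarith [(dP _ (x0 z)).2])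
    have h2 := mul_le_mul_of_nonneg_right
      (show 1 - deriv P (x z) ≤ 3 by linarith [(dP _ (x0 z)).1]) (mul_nonneg hQ (hn ξ))
    linarith
  have D : TwData (fun z => (-1) * x z + (3 * Q + 1) * ∑ j, ‖z j‖ ^ 2) (fun z => P (x z))
      (fun z => a (x z)) :=
    ⟨s1.add s2, sp, ha.comp hxc, ⟨_, by positivity, fun z => a0 _ (x0 z)⟩,
      ⟨_, fun z => P0 _ (x0 z)⟩, fun z ξ => le_trans
        (add_nonneg (hn ξ) (mul_nonneg (θ0 _ (x0 z)) (sq_nonneg _))) (htw z ξ)⟩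
  obtain ⟨K, hK⟩ : ∃ K : ℝ, K = (512 * B + 2 * L) / S := ⟨_, rfl⟩
  have hK0 : 0 ≤ K := by rw [hK]; positivity
  have hsol := solve D (v := fun z => f z * χ z * c (x z)) (hv.mul_right sc)
    (κ := (band x S).indicator fun z => K * ‖f z‖ ^ 2 * Real.exp (-P (x z)))
    (((hf.continuous.norm.pow 2).measurable.const_mul K).mul
      (mP.comp hxc.measurable).neg.exp |>.indicator (measurableSet_band hxc S))
    (fun z => Set.indicator_nonneg (fun z _ => by positivity) z) (fun z ξ => ?_)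
    (I := (512 * B + 2 * L) * J) (by positivity) ?_
  · obtain ⟨G, hG, h⟩ := hsol
    refine ⟨G, fun z => c (x z), hG, hc.continuous.comp hxc, fun z => c01 _, fun z => c0 _,
      fun z => c1 _, ?_⟩
    rw [mul_assoc, ENNReal.ofReal_mul (by positivity)]
    refine le_trans ?_ (mul_le_mul_right ((setLIntegral_le_lintegral (ball 0 (1 / 16)) _).trans h) _)
    rw [← lintegral_const_mul' _ _ ENNReal.ofReal_ne_top]
    refine setLIntegral_mono' measurableSet_ball fun z hz => ?_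
    rw [← ENNReal.ofReal_mul (by positivity), χ1 z hz, ofReal_one, mul_one, mul_left_comm]
    refine ENNReal.ofReal_le_ofReal (mul_le_mul_of_nonneg_left ?_ (sq_nonneg _))
    have h1 : ∑ j, ‖z j‖ ^ 2 ≤ 1 := by
      have := pow_le_pow_left₀ (norm_nonneg _) (mem_ball_zero_iff.1 hz).le 2
      linarith [nsq_le z]
    have h2 := out _ (x0 z)
    have h3 : 0 < 1 + (a (x z))⁻¹ := by have := D.apos z; positivity
    have h4 : Real.exp (P (x z)) * Real.exp (x z) ≤ Real.exp (3 * Q + 1) *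
        Real.exp (P (x z) - ((-1) * x z + (3 * Q + 1) * ∑ j, ‖z j‖ ^ 2)) := by
      rw [← Real.exp_add, ← Real.exp_add]
      exact Real.exp_le_exp.2 (by nlinarith)
    calc Real.exp (x z - min (x z) (2 * S))
        = 6 * (Real.exp (-min (x z) (2 * S)) / 6 * Real.exp (x z)) := by
          rw [sub_eq_add_neg, Real.exp_add]; ring
      _ ≤ 6 * (Real.exp (P (x z)) / (1 + (a (x z))⁻¹) * Real.exp (x z)) := by gcongr
      _ = 6 * (Real.exp (P (x z)) * Real.exp (x z) / (1 + (a (x z))⁻¹)) := by ring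
      _ ≤ 6 * (Real.exp (3 * Q + 1) * Real.exp (P (x z) - ((-1) * x z + (3 * Q + 1) *
          ∑ j, ‖z j‖ ^ 2)) / (1 + (a (x z))⁻¹)) := by gcongr
      _ = _ := by ring
  · have e : ∑ j, (flat (Fin 3)).db j (fun z => f z * χ z * c (x z)) z * conj (ξ j) =
        c (x z) * ∑ j, (flat (Fin 3)).db j (fun z => f z * χ z) z * conj (ξ j) +
          f z * χ z * (deriv c (x z) : ℝ) *
            conj ((flat (Fin 3)).dd (fun z => (x z : ℂ)) z ξ) := by
      simp only [RD.db_mul _ hv.1 sc, RD.db_comp _ hx (hc.differentiable (by simp) _), RD.db_real,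
        RD.dd, map_sum, map_mul, Finset.mul_sum, ← Finset.sum_add_distrib]
      exact Finset.sum_congr rfl fun j _ => by ring
    rw [e]
    refine (sq_add_le _ _).trans ?_
    simp only [norm_mul, mul_pow, norm_real, Real.norm_eq_abs, sq_abs, RCLike.norm_conj]
    have h1 := hdv z ξ
    have h2 := htw z ξ
    have h3 := mul_nonneg (θ0 _ (x0 z)) (sq_nonneg ‖(flat (Fin 3)).dd (fun z => (x z : ℂ)) z ξ‖)
    have hc2 : c (x z) ^ 2 ≤ 1 := pow_le_one₀ (c01 _).1 (c01 _).2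
    have hχ2 : χ z ^ 2 ≤ 1 := pow_le_one₀ (χ01 _).1 (χ01 _).2
    by_cases hz : z ∈ band x S
    · rw [Set.indicator_of_mem hz]
      have h4 : (ball (0 : E3) (1 / 8) \ ball 0 (1 / 16)).indicator
          (fun z => B / (1 / 16) ^ 2 * ‖f z‖ ^ 2) z ≤ 256 * B * ‖f z‖ ^ 2 :=
        (Set.indicator_le_self' (fun _ _ => by positivity) z).trans (le_of_eq (by ring))
      have h5 : 1 ≤ Real.exp (-P (x z)) / S := by
        rw [Real.exp_neg, le_div_iff₀ hS0, one_mul, le_inv_comm₀ hS0 (Real.exp_pos _), ← one_div]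
        exact PS _ hz.2.1.le
      have h6 := dc _ (x0 z)
      generalize tw (fun z => (-1) * x z + (3 * Q + 1) * ∑ j, ‖z j‖ ^ 2) (fun z => P (x z))
        (fun z => a (x z)) z ξ = Θ at *
      generalize deriv (deriv P) (x z) - (1 + a (x z)) * deriv P (x z) ^ 2 = θ at *
      have h7 : c (x z) ^ 2 * ‖∑ j, (flat (Fin 3)).db j (fun z => f z * χ z) z * conj (ξ j)‖ ^ 2 ≤
          256 * B * ‖f z‖ ^ 2 * (Real.exp (-P (x z)) / S * Θ) := by
        refine (mul_le_of_le_one_left (sq_nonneg _) hc2).trans (h1.trans ?_)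
        refine mul_le_mul h4 ?_ (hn ξ) (by positivity)
        nlinarith [hn ξ]
      have h8 : ‖f z‖ ^ 2 * χ z ^ 2 * deriv c (x z) ^ 2 *
          ‖(flat (Fin 3)).dd (fun z => (x z : ℂ)) z ξ‖ ^ 2 ≤
          ‖f z‖ ^ 2 * (L / S * Real.exp (-P (x z)) * Θ) := by
        rw [mul_assoc, mul_assoc]
        refine mul_le_mul_of_nonneg_left ((mul_le_of_le_one_left (by positivity) hχ2).trans
          ((mul_le_mul_of_nonneg_right h6 (sq_nonneg _)).trans ?_)) (sq_nonneg _)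
        rw [mul_assoc]
        exact mul_le_mul_of_nonneg_left (by linarith [hn ξ]) (by positivity)
      refine (add_le_add (mul_le_mul_of_nonneg_left h7 zero_le_two)
        (mul_le_mul_of_nonneg_left h8 zero_le_two)).trans (le_of_eq ?_)
      rw [hK]
      ring
    · rw [Set.indicator_of_notMem hz, zero_mul]
      by_cases z1 : z ∈ ball (0 : E3) (1 / 8)
      · by_cases z2 : S < x z
        · have z3 : ¬(x z < 2 * S ∨ z ∉ ball (0 : E3) (1 / 16)) := fun h => hz ⟨z1, z2, h⟩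
          rw [not_or, not_not, not_lt] at z3
          rw [Set.indicator_of_notMem (fun h => h.2 z3.2), zero_mul] at h1
          rw [dc0 _ (Or.inr z3.1), le_antisymm h1 (sq_nonneg _)]
          simp
        · rw [dc0 _ (Or.inl (not_lt.1 z2)), c0 _ (not_lt.1 z2)]
          simp
      · rw [Set.indicator_of_notMem (fun h => z1 h.1), zero_mul] at h1
        rw [χ0 z z1, le_antisymm h1 (sq_nonneg _)]
        simp
  · have e : (512 * B + 2 * L) * J = K * (S * J) := by rw [hK]; field_simp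
    rw [e, ENNReal.ofReal_mul hK0]
    refine le_trans ?_ (mul_le_mul_right hI _)
    rw [← lintegral_const_mul' _ _ ENNReal.ofReal_ne_top,
      ← lintegral_indicator (measurableSet_band hxc S)]
    refine lintegral_mono fun z => ?_
    by_cases hz : z ∈ band x S
    · rw [Set.indicator_of_mem hz, Set.indicator_of_mem hz, ← ENNReal.ofReal_mul hK0, mul_assoc,
        mul_assoc, ← Real.exp_add]
      refine ENNReal.ofReal_le_ofReal (mul_le_mul_of_nonneg_left (mul_le_mul_of_nonneg_left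
        (Real.exp_le_exp.2 ?_) (sq_nonneg _)) hK0)
      nlinarith [hn z]
    · rw [Set.indicator_of_notMem hz, zero_mul, ENNReal.ofReal_zero]
      exact zero_le

end Pool.Agent.MP_c52a38_ag.Int

end

-- part MP_c52a38_ag.Int.Value
section

/-! The bound for the value at the singular point. -/

namespace Pool.Agent.MP_c52a38_ag.Int

open MeasureTheory Complex Metric Filter Topology Pool.Agent.MP_c0606f_ag.Klt
open scoped ENNReal ContDiff ComplexConjugate

theorem tail_small {ν : Measure E3} {g : E3 → ℝ≥0∞} (hg : Measurable g) (h : ∫⁻ z, g z ∂ν ≠ ⊤)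
    {η : ℝ} (hη : 0 < η) : ∀ᶠ S : ℝ in atTop,
      ∫⁻ z in {z | ENNReal.ofReal (Real.exp S) ≤ g z}, g z ∂ν ≤ ENNReal.ofReal η := by
  have h1 : Tendsto (ν ∘ fun S : ℝ => {z | ENNReal.ofReal (Real.exp S) ≤ g z}) atTop (𝓝 0) := by
    have h2 : Tendsto (fun S : ℝ => (∫⁻ z, g z ∂ν) * ENNReal.ofReal (Real.exp (-S))) atTop
        (𝓝 0) := by
      have h3 := ENNReal.Tendsto.const_mul (a := ∫⁻ z, g z ∂ν)
        (ENNReal.tendsto_ofReal Real.tendsto_exp_neg_atTop_nhds_zero) (Or.inr h)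
      simpa using h3
    refine tendsto_of_tendsto_of_tendsto_of_le_of_le tendsto_const_nhds h2 (fun _ => zero_le)
      fun S => ?_
    refine (meas_ge_le_lintegral_div hg.aemeasurable (by simp [Real.exp_pos])
      ENNReal.ofReal_ne_top).trans (le_of_eq ?_)
    rw [Real.exp_neg, ENNReal.ofReal_inv_of_pos (Real.exp_pos _), div_eq_mul_inv]
  exact ((tendsto_setLIntegral_zero h h1).eventually
    (gt_mem_nhds (ENNReal.ofReal_pos.2 hη))).mono fun S hS => hS.le

theorem lint_le {s : Set E3} (hs : MeasurableSet s) {u v : E3 → ℝ} {c A : ℝ} (hc : 0 ≤ c)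
    (h : ∀ z ∈ s, u z ≤ c * v z) (hv : ∫⁻ z in s, ENNReal.ofReal (v z) ≤ ENNReal.ofReal A) :
    ∫⁻ z in s, ENNReal.ofReal (u z) ≤ ENNReal.ofReal (c * A) := by
  rw [ENNReal.ofReal_mul hc]
  refine le_trans ?_ (mul_le_mul_right hv _)
  rw [← lintegral_const_mul' _ _ ENNReal.ofReal_ne_top]
  refine setLIntegral_mono' hs fun z hz => ?_
  rw [← ENNReal.ofReal_mul hc]
  exact ENNReal.ofReal_le_ofReal (h z hz)

theorem lint_add {s : Set E3} (hs : MeasurableSet s) {u v w : E3 → ℝ} {A B : ℝ}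
    (hm : Measurable v) (hA : 0 ≤ A) (hB : 0 ≤ B) (h : ∀ z ∈ s, u z ≤ v z + w z)
    (hv : ∫⁻ z in s, ENNReal.ofReal (v z) ≤ ENNReal.ofReal A)
    (hw : ∫⁻ z in s, ENNReal.ofReal (w z) ≤ ENNReal.ofReal B) :
    ∫⁻ z in s, ENNReal.ofReal (u z) ≤ ENNReal.ofReal (A + B) := by
  rw [ENNReal.ofReal_add hA hB]
  refine le_trans ?_ (add_le_add hv hw)
  rw [← lintegral_add_left hm.ennreal_ofReal]
  exact setLIntegral_mono' hs fun z hz =>
    (ENNReal.ofReal_le_ofReal (h z hz)).trans ENNReal.ofReal_add_le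

theorem mean3 {f : E3 → ℂ} (hf : Differentiable ℂ f) {c y : E3} {r A : ℝ} (hr : 0 < r)
    (hA : 0 ≤ A) (hy : y ∈ ball c r)
    (h : ∫⁻ q in ball c (2 * r), ENNReal.ofReal (‖f q‖ ^ 2) ≤ ENNReal.ofReal A) :
    ‖f y‖ ^ 2 ≤ A / (Real.pi * r ^ 2) ^ 3 := by
  have h1 := mean_le hr hA hf.differentiableOn ((lintegral_mono_set (t := ball c (2 * r))
    (ball_subset_ball' (by linarith [mem_ball.1 hy]))).trans h)
  rwa [Fintype.card_fin] at h1

variable {k : ℝ} {X : ℕ → E3 → ℝ} {g : E3 → ℝ≥0∞}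

theorem Wt.le (W : Wt k X g) (n : ℕ) (z : E3) : ENNReal.ofReal (Real.exp (X n z)) ≤ g z := by
  rw [← W.lim z]
  exact le_iSup (fun n => ENNReal.ofReal (Real.exp (X n z))) n

theorem Wt.big (W : Wt k X g) {ρ : ℝ} (hρ : 0 < ρ) (M : ℝ) : ∀ᶠ n in atTop,
    ENNReal.ofReal M < ∫⁻ z in ball (0 : E3) ρ, ENNReal.ofReal (Real.exp (X n z)) := by
  have hm : Monotone fun n z => ENNReal.ofReal (Real.exp (X n z)) := fun a b h z =>
    ENNReal.ofReal_le_ofReal (Real.exp_le_exp.2 (W.mono z h))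
  have h1 := lintegral_iSup (μ := volume.restrict (ball (0 : E3) ρ))
    (fun n => (Real.continuous_exp.comp (W.sm n).continuous).measurable.ennreal_ofReal) hm
  simp only [Function.comp_apply, W.lim, W.inf ρ hρ] at h1
  obtain ⟨n, hn⟩ := lt_iSup_iff.1 (h1 ▸ ENNReal.ofReal_lt_top (r := M))
  filter_upwards [eventually_ge_atTop n] with m h
  exact hn.trans_le (lintegral_mono (hm h))

theorem hq_le (hk : 1 ≤ k) (ξ : E3) : ∑ j, ‖ξ j‖ ^ 2 ≤ hq k ξ ∧ hq k ξ ≤ k * ∑ j, ‖ξ j‖ ^ 2 := by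
  rw [Fin.sum_univ_three, hq]
  constructor <;> nlinarith [sq_nonneg ‖ξ 0‖, sq_nonneg ‖ξ 1‖, sq_nonneg ‖ξ 2‖]

theorem value_bound (W : Wt k X g) (hk : 1 ≤ k) : ∃ C : ℝ, 0 < C ∧ ∀ μ : ℝ, 0 < μ → μ ≤ 1 →
    ∀ᶠ S : ℝ in atTop, ∀ᶠ n in atTop, ∀ f : E3 → ℂ, Differentiable ℂ f → ∀ N : ℝ, 0 ≤ N →
      ∫⁻ z in ball (0 : E3) (1 / 4), ENNReal.ofReal (‖f z‖ ^ 2 *
        (Real.exp ((1 - S⁻¹) * X n z) / (‖z 2‖ ^ 2 + μ))) ≤ ENNReal.ofReal N →
      ‖f 0‖ ^ 2 ≤ C * (μ / S * N) := by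
  have hπ := Real.pi_pos
  obtain ⟨C0, hC0, hsol⟩ := local_solve (Q := Real.pi * k) (by positivity)
  obtain ⟨c1, hc1⟩ : ∃ c1 : ℝ, c1 = 2 / (Real.pi * (1 / 8) ^ 2) ^ 3 := ⟨_, rfl⟩
  obtain ⟨c2, hc2⟩ : ∃ c2 : ℝ, c2 = 2 * Real.exp 2 + c1 := ⟨_, rfl⟩
  obtain ⟨c3, hc3⟩ : ∃ c3 : ℝ, c3 = 2 + 2 * (C0 * c2) := ⟨_, rfl⟩
  obtain ⟨c4, hc4⟩ : ∃ c4 : ℝ, c4 = (4 + 2 * c3) / (Real.pi * (1 / 32) ^ 2) ^ 3 := ⟨_, rfl⟩
  have p1 : 0 < c1 := by rw [hc1]; positivity
  have p2 : 0 < c2 := by rw [hc2]; positivity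
  have p3 : 0 < c3 := by rw [hc3]; positivity
  have p4 : 0 < c4 := by rw [hc4]; positivity
  refine ⟨2 + 2 * (c3 / (Real.pi * (1 / 32) ^ 2) ^ 3), by positivity, fun μ hμ hμ1 => ?_⟩
  have hρ0 : 0 < min (1 / 16) √μ := by positivity
  have t1 := tail_small W.meas (W.fin _ hρ0).ne hμ
  have t2 : ∀ᶠ S : ℝ in atTop, S ^ 1 * Real.exp (-S) < μ / (2 * Real.exp 1) :=
    (Real.tendsto_pow_mul_exp_neg_atTop_nhds_zero 1).eventually (gt_mem_nhds (by positivity))
  filter_upwards [t1, t2, eventually_ge_atTop 1] with S t1 t2 hS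
  have hS0 : 0 < S := by linarith
  have hSi : S⁻¹ ≤ 1 := inv_le_one_of_one_le₀ hS
  have hd : 0 < μ / S := by positivity
  have hd1 : μ / S ≤ 1 := (div_le_one hS0).2 (hμ1.trans hS)
  obtain ⟨ρ, hρ, ρ1, ρ2⟩ : ∃ ρ : ℝ, 0 < ρ ∧ ρ ≤ 1 / 32 ∧ 64 * √c4 * ρ ≤ √(μ / S) / 2 := by
    refine ⟨min (1 / 32) (√(μ / S) / 2 / (64 * √c4)), by positivity, min_le_left _ _, ?_⟩
    rw [mul_comm, ← le_div_iff₀ (by positivity)]
    exact min_le_right _ _
  filter_upwards [W.big hρ (Real.exp (2 * S) * (Real.pi * ρ ^ 2) ^ 3 +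
    4 * Real.exp (2 * S) * (C0 * c2))] with n hn f hf N hN hI
  have hx := (W.sm n).continuous
  have x0 := W.pos n
  set x := X n with hxd
  have tb : ∀ z ∈ ball (0 : E3) (1 / 4), ‖z 2‖ ^ 2 + μ ≤ 2 := fun z hz => by
    have := pow_le_pow_left₀ (norm_nonneg _)
      ((norm_le_pi_norm z 2).trans (mem_ball_zero_iff.1 hz).le) 2
    linarith
  have hA : ∫⁻ z in ball (0 : E3) (2 * (1 / 8)), ENNReal.ofReal (‖f z‖ ^ 2) ≤
      ENNReal.ofReal (2 * N) := by
    rw [show 2 * (1 / 8 : ℝ) = 1 / 4 by norm_num]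
    refine lint_le measurableSet_ball zero_le_two (fun z hz => ?_) hI
    rw [mul_left_comm]
    refine le_mul_of_one_le_right (sq_nonneg _) ?_
    rw [← mul_div_assoc, le_div_iff₀ (by positivity)]
    have := Real.one_le_exp (mul_nonneg (sub_nonneg.2 hSi) (x0 z))
    linarith [tb z hz]
  have hsup : ∀ y ∈ ball (0 : E3) (1 / 8), ‖f y‖ ^ 2 ≤ c1 * N := fun y hy =>
    (mean3 hf (by norm_num) (by positivity) hy hA).trans (le_of_eq (by rw [hc1]; ring))
  have hJ : ∫⁻ z in band x S, ENNReal.ofReal (‖f z‖ ^ 2 * Real.exp (x z)) ≤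
      ENNReal.ofReal (S * (c2 * (μ / S * N))) := by
    have sub : band x S ⊆ {z | z ∈ ball (0 : E3) (1 / 4) ∧ ‖z 2‖ ^ 2 < μ ∧ x z < 2 * S} ∪
        ({z | ENNReal.ofReal (Real.exp S) ≤ g z} ∩ (ball 0 (1 / 2) \ ball 0 (min (1 / 16) √μ)) ∩
          ball 0 (1 / 8)) := by
      rintro z ⟨z1, z2, z3⟩
      by_cases h : z ∈ ball (0 : E3) (min (1 / 16) √μ)
      · left
        rw [mem_ball_zero_iff, lt_min_iff] at h
        refine ⟨ball_subset_ball (by norm_num) z1, ?_,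
          z3.resolve_right (not_not.2 (mem_ball_zero_iff.2 h.1))⟩
        exact (Real.lt_sqrt (norm_nonneg _)).1 ((norm_le_pi_norm z 2).trans_lt h.2)
      · exact Or.inr ⟨⟨(ENNReal.ofReal_le_ofReal (Real.exp_le_exp.2 z2.le)).trans (W.le n z),
          ball_subset_ball (by norm_num) z1, h⟩, z1⟩
    have m1 : MeasurableSet {z | z ∈ ball (0 : E3) (1 / 4) ∧ ‖z 2‖ ^ 2 < μ ∧ x z < 2 * S} :=
      measurableSet_ball.inter ((isOpen_lt (f := fun z : E3 => ‖z 2‖ ^ 2) (by fun_prop)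
        continuous_const).measurableSet.inter (isOpen_lt hx continuous_const).measurableSet)
    have m2 : MeasurableSet {z | ENNReal.ofReal (Real.exp S) ≤ g z} :=
      measurableSet_le measurable_const W.meas
    have e : S * (c2 * (μ / S * N)) = 2 * Real.exp 2 * μ * N + c1 * N * μ := by
      rw [hc2]; field_simp
    rw [e, ENNReal.ofReal_add (by positivity) (by positivity)]
    refine (lintegral_mono_set sub).trans ((lintegral_union_le _ _ _).trans (add_le_add ?_ ?_))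
    · refine lint_le m1 (by positivity) (fun z hz => ?_)
        ((lintegral_mono_set fun z hz => hz.1).trans hI)
      rw [mul_left_comm]
      refine mul_le_mul_of_nonneg_left ?_ (sq_nonneg _)
      rw [← mul_div_assoc, le_div_iff₀ (by positivity)]
      have h1 : Real.exp (x z) ≤ Real.exp 2 * Real.exp ((1 - S⁻¹) * x z) := by
        rw [← Real.exp_add]
        refine Real.exp_le_exp.2 ?_
        have : S⁻¹ * x z ≤ 2 := by
          rw [inv_mul_le_iff₀ hS0]; linarith [hz.2.2]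
        linarith
      calc Real.exp (x z) * (‖z 2‖ ^ 2 + μ)
          ≤ Real.exp 2 * Real.exp ((1 - S⁻¹) * x z) * (2 * μ) := by
            gcongr; linarith [hz.2.1]
        _ = _ := by ring
    · rw [Measure.restrict_restrict m2] at t1
      rw [ENNReal.ofReal_mul (by positivity)]
      refine le_trans ?_ (mul_le_mul_right ((lintegral_mono_set Set.inter_subset_left
        (s := _ ∩ ball 0 (1 / 8))).trans t1) _)
      rw [← lintegral_const_mul' _ _ ENNReal.ofReal_ne_top]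
      refine setLIntegral_mono' ((m2.inter (measurableSet_ball.diff measurableSet_ball)).inter
        measurableSet_ball) fun z hz => ?_
      rw [ENNReal.ofReal_mul (sq_nonneg _)]
      exact mul_le_mul' (ENNReal.ofReal_le_ofReal (hsup z hz.2)) (W.le n z)
  obtain ⟨G, c, hG, hc, c01, c0, c1', hE⟩ := hsol x (W.sm n) x0 (fun z ξ => (W.lev n z ξ).trans (by
    rw [mul_assoc]; exact mul_le_mul_of_nonneg_left (hq_le hk ξ).2 hπ.le)) S hS f hf
    (c2 * (μ / S * N)) (by positivity) hJ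
  have b16 : ball (0 : E3) (1 / 16) ⊆ ball 0 (1 / 4) := ball_subset_ball (by norm_num)
  have hG2 : ∫⁻ z in ball (0 : E3) (2 * (1 / 32)), ENNReal.ofReal (‖G z‖ ^ 2) ≤
      ENNReal.ofReal (c3 * (μ / S * N)) := by
    rw [show 2 * (1 / 32 : ℝ) = 1 / 16 by norm_num, show c3 * (μ / S * N) =
      2 * (μ / S) * N + 2 * (C0 * (c2 * (μ / S * N))) by rw [hc3]; ring]
    refine lint_add measurableSet_ball (v := fun z => 2 * ‖f z * c z‖ ^ 2)
      (w := fun z => 2 * ‖f z * c z - G z‖ ^ 2)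
      ((hf.continuous.mul (continuous_ofReal.comp hc)).norm.pow 2 |>.measurable.const_mul 2)
      (by positivity) (by positivity) (fun z _ => ?_)
      (lint_le measurableSet_ball (by positivity) (fun z hz => ?_)
        ((lintegral_mono_set b16).trans hI))
      (lint_le measurableSet_ball zero_le_two (fun z _ => ?_) hE)
    · have := sq_add_le (f z * c z) (-(f z * c z - G z))
      rwa [norm_neg, show f z * c z + -(f z * c z - G z) = G z by ring] at this
    · rcases le_or_gt (x z) S with h | h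
      · rw [c0 z h]
        simp only [ofReal_zero, mul_zero, norm_zero, ne_eq, OfNat.ofNat_ne_zero, not_false_eq_true,
          zero_pow]
        positivity
      · rw [mul_assoc, mul_left_comm (μ / S), norm_mul, mul_pow, norm_real, Real.norm_eq_abs,
          sq_abs]
        refine mul_le_mul_of_nonneg_left (mul_le_mul_of_nonneg_left
          ((pow_le_one₀ (c01 z).1 (c01 z).2).trans ?_) (sq_nonneg _)) zero_le_two
        rw [← mul_div_assoc, le_div_iff₀ (by positivity), div_mul_eq_mul_div, le_div_iff₀ hS0]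
        have h1 : Real.exp (S - 1) ≤ Real.exp ((1 - S⁻¹) * x z) := by
          refine Real.exp_le_exp.2 (le_trans (le_of_eq ?_)
            (mul_le_mul_of_nonneg_left h.le (sub_nonneg.2 hSi)))
          field_simp
        have h2 : S * 2 ≤ μ * Real.exp (S - 1) := by
          rw [pow_one, lt_div_iff₀ (by positivity)] at t2
          have h3 : S * 2 = S * Real.exp (-S) * (2 * Real.exp 1) * Real.exp (S - 1) := by
            have : Real.exp (-S) * Real.exp 1 * Real.exp (S - 1) = 1 := by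
              rw [← Real.exp_add, ← Real.exp_add, Real.exp_eq_one_iff]; ring
            linear_combination (-2 * S) * this
          rw [h3]
          exact mul_le_mul_of_nonneg_right t2.le (Real.exp_pos _).le
        nlinarith [tb z (b16 hz), mul_le_mul_of_nonneg_left h1 hμ.le]
    · exact mul_le_mul_of_nonneg_left (le_mul_of_one_le_right (sq_nonneg _)
        (Real.one_le_exp (sub_nonneg.2 (min_le_left _ _)))) zero_le_two
  have hG0 := mean3 hG (by norm_num) (by positivity) (mem_ball_self (by norm_num)) hG2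
  have hE2 : ∫⁻ z in ball (0 : E3) (2 * (1 / 32)), ENNReal.ofReal (‖f z - G z‖ ^ 2) ≤
      ENNReal.ofReal (2 * (2 * N) + 2 * (c3 * (μ / S * N))) := by
    refine lint_add measurableSet_ball (v := fun z => 2 * ‖f z‖ ^ 2) (w := fun z => 2 * ‖G z‖ ^ 2)
      ((hf.continuous.norm.pow 2).measurable.const_mul 2) (by positivity) (by positivity)
      (fun z _ => ?_) (lint_le measurableSet_ball zero_le_two (fun _ _ => le_rfl)
        ((lintegral_mono_set (ball_subset_ball (by norm_num))).trans hA))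
      (lint_le measurableSet_ball zero_le_two (fun _ _ => le_rfl) hG2)
    have := sq_add_le (f z) (-G z)
    rwa [norm_neg, ← sub_eq_add_neg] at this
  have hEs : ∀ y ∈ ball (0 : E3) (1 / 32), ‖f y - G y‖ ^ 2 ≤ c4 * N := fun y hy => by
    refine (mean3 (f := fun z => f z - G z) (hf.sub hG) (by norm_num)
      (add_nonneg (by positivity) (by positivity)) hy hE2).trans ?_
    rw [hc4, div_mul_eq_mul_div (4 + 2 * c3)]
    have := mul_le_mul_of_nonneg_left (mul_le_of_le_one_left hN hd1) p3.le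
    exact div_le_div_of_nonneg_right (by linarith) (by positivity)
  have hE0 : ‖f 0 - G 0‖ ^ 2 ≤ μ / S * N := by
    by_contra hcon
    rw [not_le] at hcon
    have hN0 : 0 < N := by
      refine lt_of_le_of_ne hN fun h => ?_
      have := hEs 0 (mem_ball_self (by norm_num))
      rw [← h, mul_zero] at this hcon
      linarith
    have hs : ∀ y ∈ ball (0 : E3) (1 / 32), ‖f y - G y‖ ≤ √c4 * √N := fun y hy => by
      rw [← Real.sqrt_mul p4.le]
      exact Real.le_sqrt_of_sq_le (hEs y hy)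
    have low : ∀ z ∈ ball (0 : E3) ρ, μ / S * N / 4 ≤ ‖f z - G z‖ ^ 2 := fun z hz => by
      have h1 := Complex.dist_le_div_mul_dist_of_mapsTo_ball (f := fun z => f z - G z)
        (R₂ := 2 * (√c4 * √N)) (hf.sub hG).differentiableOn (fun y hy => by
          rw [mem_closedBall, dist_eq_norm]
          linarith [norm_sub_le (f y - G y) (f 0 - G 0), hs y hy,
            hs 0 (mem_ball_self (by norm_num))]) (ball_subset_ball ρ1 hz)
      have h2 : 2 * (√c4 * √N) / (1 / 32) * dist z 0 ≤ √(μ / S) / 2 * √N := by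
        calc _ ≤ 2 * (√c4 * √N) / (1 / 32) * ρ := by gcongr; exact (mem_ball.1 hz).le
          _ = 64 * √c4 * ρ * √N := by ring
          _ ≤ _ := by gcongr
      have h3 : √(μ / S) * √N ≤ ‖f 0 - G 0‖ := by
        rw [← Real.sqrt_mul hd.le]
        exact Real.sqrt_le_iff.2 ⟨norm_nonneg _, hcon.le⟩
      have h4 : √(μ / S) * √N / 2 ≤ ‖f z - G z‖ := by
        rw [dist_comm, dist_eq_norm] at h1
        linarith [norm_sub_norm_le (f 0 - G 0) (f z - G z)]
      have h5 := pow_le_pow_left₀ (by positivity) h4 2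
      rw [div_pow, mul_pow, Real.sq_sqrt hd.le, Real.sq_sqrt hN] at h5
      linarith
    refine hn.not_ge ?_
    have e : 4 * Real.exp (2 * S) * (C0 * c2) =
        4 * Real.exp (2 * S) / (μ / S * N) * (C0 * (c2 * (μ / S * N))) := by field_simp
    rw [e]
    refine lint_add measurableSet_ball (v := fun _ => Real.exp (2 * S))
      (w := fun z => 4 * Real.exp (2 * S) / (μ / S * N) * (‖f z * c z - G z‖ ^ 2 *
        Real.exp (x z - min (x z) (2 * S)))) measurable_const (by positivity) (by positivity)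
      (fun z hz => ?_) ?_ (lint_le measurableSet_ball (by positivity) (fun _ _ => le_rfl)
        ((lintegral_mono_set (ball_subset_ball (by linarith))).trans hE))
    · rcases le_total (x z) (2 * S) with h | h
      · exact (Real.exp_le_exp.2 h).trans (le_add_of_nonneg_right (by positivity))
      · rw [c1' z h, min_eq_right h, ofReal_one, mul_one]
        refine le_add_of_nonneg_of_le (Real.exp_pos _).le ?_
        calc Real.exp (x z) = 4 * Real.exp (2 * S) / (μ / S * N) *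
              (μ / S * N / 4 * Real.exp (x z - 2 * S)) := by
              rw [Real.exp_sub]; field_simp
          _ ≤ _ := by gcongr; exact low z hz
    · rw [setLIntegral_const, volume_ball_eq _ hρ, Fintype.card_fin,
        ← ENNReal.ofReal_mul (Real.exp_pos _).le]
  have := sq_add_le (f 0 - G 0) (G 0)
  rw [sub_add_cancel] at this
  refine this.trans ((add_le_add (mul_le_mul_of_nonneg_left hE0 zero_le_two)
    (mul_le_mul_of_nonneg_left hG0 zero_le_two)).trans (le_of_eq (by ring)))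

end Pool.Agent.MP_c52a38_ag.Int

end
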