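import Mathlib
import Pool.Agent.MP_c52a38_ag.Defs
import Pool.Agent.MP_c52a38_ag.Mg.Int_Value

-- part MP_c52a38_ag.OneVar
section

namespace Pool.Agent.MP_c52a38_ag

open Metric Filter MeasureTheory
open scoped ENNReal Topology

theorem dslope_entire {f : ℂ → ℂ} (hf : Differentiable ℂ f) (a : ℂ) :
    Differentiable ℂ (dslope f a) := by
  rw [← differentiableOn_univ]
  exact (Complex.differentiableOn_dslope Filter.univ_mem).mpr hf.differentiableOn

theorem factor_one {f : ℂ → ℂ} (hf : Differentiable ℂ f) {a : ℂ} (ha : f a = 0) :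
    ∃ g : ℂ → ℂ, Differentiable ℂ g ∧ ∀ z, f z = (z - a) * g z := by
  refine ⟨dslope f a, dslope_entire hf a, fun z => ?_⟩
  have := sub_smul_dslope f a z
  rw [ha, sub_zero, smul_eq_mul] at this
  exact this.symm

theorem order_pow_mul {g : ℂ → ℂ} (hg : Differentiable ℂ g) (a : ℂ) (n : ℕ) :
    analyticOrderAt (fun z => (z - a) ^ n * g z) a = n + analyticOrderAt g a := by
  have h1 : AnalyticAt ℂ (fun z : ℂ => (z - a) ^ n) a := by fun_prop
  have h2 : AnalyticAt ℂ g a := hg.analyticAt a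
  have := analyticOrderAt_mul h1 h2
  have h3 : analyticOrderAt (fun z : ℂ => (z - a) ^ n) a = n :=
    analyticOrderAt_centeredMonomial
  rw [h3] at this
  exact this

theorem factor_pow {f : ℂ → ℂ} (hf : Differentiable ℂ f) (a : ℂ) (n : ℕ)
    (h : (n : ℕ∞) ≤ analyticOrderAt f a) :
    ∃ g : ℂ → ℂ, Differentiable ℂ g ∧ ∀ z, f z = (z - a) ^ n * g z := by
  induction n with
  | zero => exact ⟨f, hf, fun z => by simp⟩
  | succ n ih =>
    obtain ⟨g, hg, hfg⟩ := ih (le_trans (by exact_mod_cast Nat.le_succ n) h)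
    have hfe : f = fun z => (z - a) ^ n * g z := funext hfg
    have h1 := order_pow_mul hg a n
    rw [← hfe] at h1
    have h2 : g a = 0 := by
      by_contra hne
      have : analyticOrderAt g a = 0 := (hg.analyticAt a).analyticOrderAt_eq_zero.mpr hne
      rw [h1, this, add_zero] at h
      have : n + 1 ≤ n := by exact_mod_cast h
      omega
    obtain ⟨g', hg', hgg'⟩ := factor_one hg h2
    exact ⟨g', hg', fun z => by rw [hfg z, hgg' z]; ring⟩

theorem le_order_of_factor {f g : ℂ → ℂ} (hg : Differentiable ℂ g) (a : ℂ) (n : ℕ)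
    (h : ∀ z, f z = (z - a) ^ n * g z) : (n : ℕ∞) ≤ analyticOrderAt f a := by
  have hfe : f = fun z => (z - a) ^ n * g z := funext h
  rw [hfe, order_pow_mul hg]
  exact le_self_add

theorem factor_finset {f : ℂ → ℂ} (hf : Differentiable ℂ f) (m : ℕ) (S : Finset ℂ)
    (h : ∀ a ∈ S, (m : ℕ∞) ≤ analyticOrderAt f a) :
    ∃ g : ℂ → ℂ, Differentiable ℂ g ∧ ∀ z, f z = (∏ a ∈ S, (z - a) ^ m) * g z := by
  classical
  induction S using Finset.induction_on with
  | empty => exact ⟨f, hf, fun z => by simp⟩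
  | insert a S ha ih =>
    obtain ⟨g, hg, hfg⟩ := ih (fun b hb => h b (Finset.mem_insert_of_mem hb))
    have hfe : f = (fun z => ∏ a ∈ S, (z - a) ^ m) * g := funext hfg
    have h1 : AnalyticAt ℂ (fun z : ℂ => ∏ a ∈ S, (z - a) ^ m) a := by
      have : Differentiable ℂ (fun z : ℂ => ∏ a ∈ S, (z - a) ^ m) := by fun_prop
      exact this.analyticAt a
    have h2 := analyticOrderAt_mul h1 (hg.analyticAt a)
    have h3 : analyticOrderAt (fun z : ℂ => ∏ a ∈ S, (z - a) ^ m) a = 0 := by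
      apply h1.analyticOrderAt_eq_zero.mpr
      apply Finset.prod_ne_zero_iff.mpr
      intro b hb
      apply pow_ne_zero
      rw [sub_ne_zero]
      rintro rfl
      exact ha hb
    rw [← hfe, h3, zero_add] at h2
    have h4 := h a (Finset.mem_insert_self a S)
    rw [h2] at h4
    obtain ⟨g', hg', hgg'⟩ := factor_pow hg a m h4
    refine ⟨g', hg', fun z => ?_⟩
    rw [hfg z, hgg' z, Finset.prod_insert ha]
    ring

/-- maximum modulus principle on a closed disc for entire functions -/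
theorem max_mod {g : ℂ → ℂ} (hg : Differentiable ℂ g) {R C : ℝ} (hR : 0 < R)
    (h : ∀ z, ‖z‖ = R → ‖g z‖ ≤ C) {z : ℂ} (hz : ‖z‖ ≤ R) : ‖g z‖ ≤ C := by
  apply Complex.norm_le_of_forall_mem_frontier_norm_le (U := ball 0 R) isBounded_ball
    hg.diffContOnCl
  · intro w hw
    rw [frontier_ball _ hR.ne'] at hw
    exact h w (by simpa using hw)
  · rw [closure_ball _ hR.ne']
    simpa using hz

/-- minimum modulus principle on a closed disc -/
theorem min_mod {g : ℂ → ℂ} (hg : Differentiable ℂ g) {R η : ℝ} (hR : 0 < R) (hη : 0 < η)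
    (h : ∀ z, ‖z‖ = R → η ≤ ‖g z‖) (h0 : ∀ z, ‖z‖ < R → g z ≠ 0) {z : ℂ} (hz : ‖z‖ ≤ R) :
    η ≤ ‖g z‖ := by
  have hne : ∀ w, ‖w‖ ≤ R → g w ≠ 0 := by
    intro w hw
    rcases lt_or_eq_of_le hw with hw | hw
    · exact h0 w hw
    · intro e
      have := h w hw
      rw [e, norm_zero] at this
      linarith
  have hd : DiffContOnCl ℂ (fun w => (g w)⁻¹) (ball 0 R) := by
    apply DifferentiableOn.diffContOnCl
    rw [closure_ball _ hR.ne']
    intro w hw
    exact ((hg w).inv (hne w (by simpa using hw))).differentiableWithinAt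
  have := Complex.norm_le_of_forall_mem_frontier_norm_le (U := ball 0 R) isBounded_ball hd
    (C := η⁻¹) (z := z) (by
      intro w hw
      rw [frontier_ball _ hR.ne'] at hw
      rw [norm_inv]
      exact inv_anti₀ hη (h w (by simpa using hw))) (by
      rw [closure_ball _ hR.ne']
      simpa using hz)
  rw [norm_inv] at this
  have hp : 0 < ‖g z‖ := norm_pos_iff.mpr (hne z hz)
  exact (inv_le_inv₀ hp hη).mp this

/-- Lower bound by a product of distances to the zeros. -/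
theorem lower_prod (d : ℕ) {δ η : ℝ} (hδ : 0 < δ) (hδ2 : δ ≤ 1 / 2) (hη : 0 < η) :
    ∀ f : ℂ → ℂ, Differentiable ℂ f → (∀ z, ‖z‖ = δ → η ≤ ‖f z‖) →
    (∀ (s : List ℂ) (g : ℂ → ℂ), Differentiable ℂ g → (∀ a ∈ s, ‖a‖ < δ) →
      (∀ z, f z = (s.map (fun a => z - a)).prod * g z) → s.length ≤ d) →
    ∃ s : List ℂ, s.length ≤ d ∧ (∀ a ∈ s, ‖a‖ < δ) ∧
      ∀ z, ‖z‖ ≤ δ → η * (s.map (fun a => ‖z - a‖)).prod ≤ ‖f z‖ := by
  induction d with
  | zero =>
    intro f hf hb hc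
    refine ⟨[], le_rfl, by simp, fun z hz => ?_⟩
    simp only [List.map_nil, List.prod_nil, mul_one]
    apply min_mod hf hδ hη hb _ hz
    intro a ha h0
    obtain ⟨g, hg, hfg⟩ := factor_one hf h0
    have := hc [a] g hg (by simpa using ha) (by simpa using hfg)
    simp at this
  | succ d ih =>
    intro f hf hb hc
    by_cases h0 : ∀ a, ‖a‖ < δ → f a ≠ 0
    · refine ⟨[], by simp, by simp, fun z hz => ?_⟩
      simp only [List.map_nil, List.prod_nil, mul_one]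
      exact min_mod hf hδ hη hb h0 hz
    · push Not at h0
      obtain ⟨a, ha, h0⟩ := h0
      obtain ⟨g, hg, hfg⟩ := factor_one hf h0
      obtain ⟨s, hs1, hs2, hs3⟩ := ih g hg (by
        intro z hz
        have h1 := hb z hz
        rw [hfg z, norm_mul] at h1
        have h2 : ‖z - a‖ ≤ 1 := by
          have := norm_sub_le z a
          linarith
        have h3 : ‖z - a‖ * ‖g z‖ ≤ ‖g z‖ := mul_le_of_le_one_left (norm_nonneg _) h2
        linarith) (by
        intro s g' hg' hs hgs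
        have := hc (a :: s) g' hg' (by
          intro b hb
          rcases List.mem_cons.mp hb with rfl | hb
          · exact ha
          · exact hs b hb) (by
          intro z
          rw [hfg z, hgs z]
          simp [mul_assoc])
        simpa using this)
      refine ⟨a :: s, by simpa using hs1, ?_, fun z hz => ?_⟩
      · intro b hb
        rcases List.mem_cons.mp hb with rfl | hb
        · exact ha
        · exact hs2 b hb
      · rw [hfg z, norm_mul]
        simp only [List.map_cons, List.prod_cons]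
        have := hs3 z hz
        calc η * (‖z - a‖ * (s.map (fun a => ‖z - a‖)).prod)
            = ‖z - a‖ * (η * (s.map (fun a => ‖z - a‖)).prod) := by ring
          _ ≤ ‖z - a‖ * ‖g z‖ := mul_le_mul_of_nonneg_left this (norm_nonneg _)

theorem norm_list_prod_le (s : List ℂ) (z : ℂ) (B : ℝ) (h : ∀ a ∈ s, ‖z - a‖ ≤ B) :
    ‖(s.map (fun a => z - a)).prod‖ ≤ B ^ s.length := by
  induction s with
  | nil => simp
  | cons a s ih =>
    simp only [List.map_cons, List.prod_cons, norm_mul, List.length_cons, pow_succ']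
    have h1 := h a (by simp)
    exact mul_le_mul h1 (ih fun b hb => h b (by simp [hb])) (norm_nonneg _)
      ((norm_nonneg _).trans h1)

theorem le_norm_list_prod (s : List ℂ) (z : ℂ) (B : ℝ) (hB : 0 ≤ B)
    (h : ∀ a ∈ s, B ≤ ‖z - a‖) :
    B ^ s.length ≤ ‖(s.map (fun a => z - a)).prod‖ := by
  induction s with
  | nil => simp
  | cons a s ih =>
    simp only [List.map_cons, List.prod_cons, norm_mul, List.length_cons, pow_succ']
    have h1 := h a (by simp)
    exact mul_le_mul h1 (ih fun b hb => h b (by simp [hb])) (pow_nonneg hB _) (norm_nonneg _)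

/-- Counting zeros in a small disc. -/
theorem count_le {f : ℂ → ℂ} {j : ℕ} {A R δ : ℝ} (hA : 0 < A) (hR : 0 < R)
    (hδ : δ = R / (13 * 4 ^ (j + 1)))
    (hup : ∀ z, ‖z‖ = R → ‖f z‖ ≤ 3 * A * R ^ j)
    (hlow : A / 4 * δ ^ j ≤ ‖f δ‖)
    (s : List ℂ) (g : ℂ → ℂ) (hg : Differentiable ℂ g) (hs : ∀ a ∈ s, ‖a‖ < δ)
    (hfg : ∀ z, f z = (s.map (fun a => z - a)).prod * g z) : s.length ≤ j := by
  by_contra hlt
  push Not at hlt
  set e := s.length with he
  set t : ℝ := 1 / (13 * 4 ^ (j + 1)) with ht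
  have h4 : (1 : ℝ) ≤ 4 ^ j := one_le_pow₀ (by norm_num)
  have htpos : 0 < t := by positivity
  have ht4 : 4 * t ≤ 1 / 13 := by
    rw [ht, pow_succ]
    rw [show (4 : ℝ) * (1 / (13 * (4 ^ j * 4))) = 1 / (13 * 4 ^ j) by field_simp]
    apply one_div_le_one_div_of_le (by norm_num)
    linarith
  have hδt : δ = t * R := by rw [hδ, ht]; ring
  have hδpos : 0 < δ := by rw [hδt]; positivity
  have hδR : δ ≤ R / 4 := by rw [hδt]; nlinarith
  have hgR : ∀ z, ‖z‖ = R → ‖g z‖ ≤ 3 * A * R ^ j / (R / 2) ^ e := by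
    intro z hz
    have h1 := hup z hz
    rw [hfg z, norm_mul] at h1
    have h2 := le_norm_list_prod s z (R / 2) (by positivity) (by
      intro a ha
      have := norm_sub_norm_le z a
      have := hs a ha
      linarith)
    rw [le_div_iff₀ (by positivity)]
    calc ‖g z‖ * (R / 2) ^ e ≤ ‖g z‖ * ‖(s.map (fun a => z - a)).prod‖ :=
          mul_le_mul_of_nonneg_left h2 (norm_nonneg _)
      _ ≤ _ := by rw [mul_comm]; exact h1
  have hnδ : ‖(δ : ℂ)‖ = δ := by simp [abs_of_pos hδpos]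
  have hgδ := max_mod hg hR hgR (z := δ) (by rw [hnδ]; linarith)
  have h3 := norm_list_prod_le s δ (2 * δ) (by
    intro a ha
    have := norm_sub_le (δ : ℂ) a
    have := hs a ha
    linarith)
  rw [hfg δ, norm_mul] at hlow
  have h5 : A / 4 * δ ^ j ≤ (2 * δ) ^ e * (3 * A * R ^ j / (R / 2) ^ e) :=
    hlow.trans (mul_le_mul h3 hgδ (norm_nonneg _) (by positivity))
  have h6 : (2 * δ) ^ e * (3 * A * R ^ j / (R / 2) ^ e) = 3 * A * R ^ j * (4 * t) ^ e := by
    have : (2 * δ) ^ e = (4 * t) ^ e * (R / 2) ^ e := by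
      rw [← mul_pow, hδt]; congr 1; ring
    rw [this]
    field_simp
  have h7 : (4 * t) ^ e ≤ (4 * t) ^ (j + 1) :=
    pow_le_pow_of_le_one (by positivity) (by linarith) hlt
  have h8 : A / 4 * δ ^ j ≤ 3 * A * R ^ j * (4 * t) ^ (j + 1) := by
    rw [h6] at h5
    exact h5.trans (mul_le_mul_of_nonneg_left h7 (by positivity))
  have h9 : (4 * t) ^ (j + 1) = t ^ j / 13 := by
    rw [mul_pow, pow_succ t]
    have : (4 : ℝ) ^ (j + 1) * t = 1 / 13 := by rw [ht]; field_simp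
    calc (4 : ℝ) ^ (j + 1) * (t ^ j * t) = t ^ j * (4 ^ (j + 1) * t) := by ring
      _ = t ^ j / 13 := by rw [this]; ring
  rw [h9, hδt, mul_pow] at h8
  have h10 : 0 < A * (t ^ j * R ^ j) := by positivity
  nlinarith

end Pool.Agent.MP_c52a38_ag

end

-- part MP_c52a38_ag.Integrals
section

namespace Pool.Agent.MP_c52a38_ag

open Metric Filter MeasureTheory Set
open scoped ENNReal Topology

theorem enorm_rpow_inv_eq {u : ℂ} (hu : u ≠ 0) (p : ℝ) :
    (‖u‖ₑ ^ p)⁻¹ = ‖(‖u‖ ^ (-p) : ℝ)‖ₑ := by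
  have h : 0 < ‖u‖ := norm_pos_iff.mpr hu
  rw [Real.enorm_eq_ofReal (by positivity), ← ENNReal.rpow_neg, ← ofReal_norm,
    ENNReal.ofReal_rpow_of_pos h]

theorem ae_ne_zero (s : Set ℂ) : ∀ᵐ u ∂(volume.restrict s), u ≠ (0 : ℂ) := by
  apply ae_restrict_of_ae
  rw [ae_iff]
  simp

theorem lint_fin {p : ℝ} (hp : p < 2) (r : ℝ) :
    ∫⁻ u in ball (0 : ℂ) r, (‖u‖ₑ ^ p)⁻¹ < ∞ := by
  have h : IntegrableOn (fun u : ℂ => (‖u‖ ^ (-p) : ℝ)) (ball 0 r) volume := by
    refine integrableOn_ball_of_norm_le_rpow (C := 1) (α := p) ?_ ?_ ?_ ?_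
    · simp
    · simpa using hp
    · filter_upwards with x
      rw [one_mul, Real.norm_of_nonneg (by positivity)]
    · apply Measurable.aestronglyMeasurable
      fun_prop
  have h2 := h.2
  rw [HasFiniteIntegral] at h2
  refine lt_of_eq_of_lt ?_ h2
  apply lintegral_congr_ae
  filter_upwards [ae_ne_zero (ball 0 r)] with u hu
  exact enorm_rpow_inv_eq hu p

theorem lint_inf {r : ℝ} (hr : 0 < r) :
    ∫⁻ u in ball (0 : ℂ) r, (‖u‖ₑ ^ (2 : ℝ))⁻¹ = ∞ := by
  by_contra hne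
  have h : IntegrableOn (fun u : ℂ => (‖u‖ ^ (-2 : ℝ) : ℝ)) (ball 0 r) volume := by
    constructor
    · apply Measurable.aestronglyMeasurable
      fun_prop
    · rw [HasFiniteIntegral]
      refine lt_of_eq_of_lt ?_ (lt_top_iff_ne_top.mpr hne)
      apply lintegral_congr_ae
      filter_upwards [ae_ne_zero (ball 0 r)] with u hu
      exact (enorm_rpow_inv_eq hu 2).symm
  rw [integrableOn_fun_norm_addHaar volume (f := fun y : ℝ => y ^ (-2 : ℝ))] at h
  have h2 : IntegrableOn (fun y : ℝ => y ^ (-1 : ℝ)) (Ioo 0 r) := by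
    apply h.congr_fun _ measurableSet_Ioo
    intro y hy
    have hy0 : 0 < y := hy.1
    simp only [Complex.finrank_real_complex, smul_eq_mul]
    rw [show (-1 : ℝ) = 1 + -2 by norm_num, Real.rpow_add hy0]
    simp
  rw [intervalIntegral.integrableOn_Ioo_rpow_iff hr] at h2
  exact lt_irrefl _ h2

theorem lint_shift (p : ℝ) {δ : ℝ} (hδ : δ ≤ 1 / 2) {a : ℂ} (ha : ‖a‖ < δ) :
    ∫⁻ z in ball (0 : ℂ) δ, (‖z - a‖ₑ ^ p)⁻¹ ≤ ∫⁻ u in ball (0 : ℂ) 1, (‖u‖ₑ ^ p)⁻¹ := by
  rw [← lintegral_indicator measurableSet_ball, ← lintegral_indicator measurableSet_ball,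
    ← lintegral_sub_right_eq_self
      (fun u => (ball (0 : ℂ) 1).indicator (fun u : ℂ => (‖u‖ₑ ^ p)⁻¹) u) a]
  apply lintegral_mono
  intro z
  by_cases hz : z ∈ ball (0 : ℂ) δ
  · have : z - a ∈ ball (0 : ℂ) 1 := by
      rw [mem_ball_zero_iff] at hz ⊢
      have := norm_sub_le z a
      linarith
    simp only [indicator_of_mem hz, indicator_of_mem this, le_refl]
  · simp only [indicator_of_notMem hz, zero_le]

theorem list_prod_ge (x : ℂ → ℝ) (hx : ∀ a, 0 ≤ x a) (s : List ℂ) :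
    s = [] ∨ ∃ a ∈ s, x a ^ s.length ≤ (s.map x).prod := by
  induction s with
  | nil => exact Or.inl rfl
  | cons a s ih =>
    right
    rcases ih with rfl | ⟨b, hb, hbs⟩
    · exact ⟨a, by simp, by simp⟩
    · simp only [List.map_cons, List.prod_cons, List.length_cons, pow_succ']
      rcases le_total (x a) (x b) with h | h
      · refine ⟨a, by simp, mul_le_mul_of_nonneg_left ?_ (hx a)⟩
        exact (pow_le_pow_left₀ (hx a) h _).trans hbs
      · exact ⟨b, by simp [hb], mul_le_mul h hbs (pow_nonneg (hx b) _) (hx a)⟩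

theorem lint_list_sum (F : ℂ → ℂ → ℝ≥0∞) (hF : ∀ a, Measurable (F a)) (μ : Measure ℂ)
    (s : List ℂ) (B : ℝ≥0∞) (h : ∀ a ∈ s, ∫⁻ z, F a z ∂μ ≤ B) :
    ∫⁻ z, (s.map (fun a => F a z)).sum ∂μ ≤ s.length * B := by
  induction s with
  | nil => simp
  | cons a s ih =>
    simp only [List.map_cons, List.sum_cons, List.length_cons]
    rw [lintegral_add_left (hF a)]
    push_cast
    rw [add_mul, one_mul, add_comm]
    exact add_le_add (ih fun b hb => h b (by simp [hb])) (h a (by simp))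

theorem unif_bound {d : ℕ} {q δ η : ℝ} (hq : 0 ≤ q) (hδ : δ ≤ 1 / 2) (hη : 0 < η)
    {f : ℂ → ℂ} {s : List ℂ} (hs1 : s.length ≤ d) (hs2 : ∀ a ∈ s, ‖a‖ < δ)
    (hs3 : ∀ z, ‖z‖ ≤ δ → η * (s.map (fun a => ‖z - a‖)).prod ≤ ‖f z‖) :
    ∫⁻ z in ball (0 : ℂ) δ, (‖f z‖ₑ ^ q)⁻¹ ≤ (ENNReal.ofReal η ^ q)⁻¹ *
      (volume (ball (0 : ℂ) δ) + d * ∫⁻ u in ball (0 : ℂ) 1, (‖u‖ₑ ^ (d * q))⁻¹) := by
  have hK : (ENNReal.ofReal η ^ q)⁻¹ ≠ ∞ := by
    apply ENNReal.inv_ne_top.mpr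
    have : 0 < ENNReal.ofReal η := ENNReal.ofReal_pos.mpr hη
    exact (ENNReal.rpow_pos this ENNReal.ofReal_ne_top).ne'
  have hK0 : ENNReal.ofReal η ^ q ≠ ∞ := ENNReal.rpow_ne_top_of_nonneg hq ENNReal.ofReal_ne_top
  have hpt : ∀ z ∈ ball (0 : ℂ) δ, (‖f z‖ₑ ^ q)⁻¹ ≤ (ENNReal.ofReal η ^ q)⁻¹ *
      (1 + (s.map (fun a => (‖z - a‖ₑ ^ (d * q))⁻¹)).sum) := by
    intro z hz
    rw [mem_ball_zero_iff] at hz
    have h1 := hs3 z hz.le
    rcases list_prod_ge (fun a => ‖z - a‖) (fun a => norm_nonneg _) s with rfl | ⟨a, ha, has⟩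
    · simp only [List.map_nil, List.prod_nil, mul_one, List.sum_nil, add_zero] at h1 ⊢
      apply ENNReal.inv_le_inv.mpr
      apply ENNReal.rpow_le_rpow _ hq
      rw [← ofReal_norm]
      exact ENNReal.ofReal_le_ofReal h1
    · have h2 : ‖z - a‖ ≤ 1 := by
        have := norm_sub_le z a
        have := hs2 a ha
        linarith
      have h3 : ‖z - a‖ ^ d ≤ ‖z - a‖ ^ s.length :=
        pow_le_pow_of_le_one (norm_nonneg _) h2 hs1
      have h4 : η * ‖z - a‖ ^ d ≤ ‖f z‖ :=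
        (mul_le_mul_of_nonneg_left (h3.trans has) hη.le).trans h1
      have h5 : ENNReal.ofReal η ^ q * ‖z - a‖ₑ ^ (d * q) ≤ ‖f z‖ₑ ^ q := by
        rw [ENNReal.rpow_mul, ← ENNReal.mul_rpow_of_nonneg _ _ hq]
        apply ENNReal.rpow_le_rpow _ hq
        rw [ENNReal.rpow_natCast, ← ofReal_norm, ← ofReal_norm,
          ← ENNReal.ofReal_pow (norm_nonneg _), ← ENNReal.ofReal_mul hη.le]
        exact ENNReal.ofReal_le_ofReal h4
      calc (‖f z‖ₑ ^ q)⁻¹ ≤ (ENNReal.ofReal η ^ q * ‖z - a‖ₑ ^ (d * q))⁻¹ :=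
            ENNReal.inv_le_inv.mpr h5
        _ = (ENNReal.ofReal η ^ q)⁻¹ * (‖z - a‖ₑ ^ (d * q))⁻¹ := by
            apply ENNReal.mul_inv
            · left; exact ENNReal.inv_ne_top.mp hK
            · left; exact hK0
        _ ≤ _ := by
            gcongr
            refine le_trans ?_ le_add_self
            apply List.single_le_sum (fun x _ => zero_le)
            exact List.mem_map.mpr ⟨a, ha, rfl⟩
  calc ∫⁻ z in ball (0 : ℂ) δ, (‖f z‖ₑ ^ q)⁻¹
      ≤ ∫⁻ z in ball (0 : ℂ) δ, (ENNReal.ofReal η ^ q)⁻¹ *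
        (1 + (s.map (fun a => (‖z - a‖ₑ ^ (d * q))⁻¹)).sum) :=
        setLIntegral_mono' measurableSet_ball hpt
    _ = (ENNReal.ofReal η ^ q)⁻¹ * ∫⁻ z in ball (0 : ℂ) δ,
        (1 + (s.map (fun a => (‖z - a‖ₑ ^ (d * q))⁻¹)).sum) :=
        lintegral_const_mul' _ _ hK
    _ ≤ _ := by
        gcongr
        rw [lintegral_add_left measurable_const]
        simp only [lintegral_const, MeasurableSet.univ, Measure.restrict_apply, univ_inter,
          one_mul]
        gcongr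
        refine (lint_list_sum (fun a z => (‖z - a‖ₑ ^ (d * q))⁻¹) (fun a => by fun_prop) _ s _
          (fun a ha => lint_shift _ hδ (hs2 a ha))).trans ?_
        gcongr

end Pool.Agent.MP_c52a38_ag

end

-- part MP_c52a38_ag.ZeroBound
section

namespace Pool.Agent.MP_c52a38_ag

open Metric Filter MeasureTheory Complex
open scoped ENNReal Topology

theorem norm_factor (h : ℝ) (z l : ℂ) :
    ‖Complex.exp (Real.pi * (h * z * (starRingEnd ℂ) l) +
      Real.pi / 2 * (h * l * (starRingEnd ℂ) l))‖ =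
      Real.exp (Real.pi * h / 2 * (‖z + l‖ ^ 2 - ‖z‖ ^ 2)) := by
  rw [Complex.norm_exp]
  congr 1
  rw [Complex.sq_norm, Complex.sq_norm]
  simp [Complex.normSq_apply]
  ring

theorem growth {c : ℂ → ℂ} (hc : Differentiable ℂ c) {h : ℝ} (hh0 : 0 ≤ h)
    (hper : ∀ p q : ℤ, ∃ χ : ℂ, ‖χ‖ = 1 ∧ ∀ z, c (z + (p + q * I)) =
      χ * Complex.exp (Real.pi * (h * z * (starRingEnd ℂ) (p + q * I)) +
        Real.pi / 2 * (h * (p + q * I) * (starRingEnd ℂ) (p + q * I))) * c z) :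
    ∃ M : ℝ, 0 ≤ M ∧ ∀ z, ‖c z‖ ≤ M * Real.exp (Real.pi * h / 2 * ‖z‖ ^ 2) := by
  obtain ⟨M, hM⟩ := (isCompact_closedBall (0 : ℂ) 2).exists_bound_of_continuousOn
    hc.continuous.continuousOn
  have hM0 : 0 ≤ M := (norm_nonneg _).trans (hM 0 (by simp))
  refine ⟨M, hM0, fun z => ?_⟩
  obtain ⟨χ, hχ, hz⟩ := hper ⌊z.re⌋ ⌊z.im⌋
  set l : ℂ := (⌊z.re⌋ : ℤ) + (⌊z.im⌋ : ℤ) * I with hl
  have h1 := hz (z - l)
  rw [sub_add_cancel] at h1
  have h2 : ‖z - l‖ ≤ 2 := by
    have := Complex.norm_le_abs_re_add_abs_im (z - l)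
    have hre : (z - l).re = Int.fract z.re := by simp [hl]
    have him : (z - l).im = Int.fract z.im := by simp [hl]
    rw [hre, him, abs_of_nonneg (Int.fract_nonneg _), abs_of_nonneg (Int.fract_nonneg _)] at this
    have := Int.fract_lt_one z.re
    have := Int.fract_lt_one z.im
    linarith
  rw [h1, norm_mul, norm_mul, hχ, one_mul, norm_factor, sub_add_cancel, mul_comm]
  apply mul_le_mul (hM _ (by simpa using h2)) _ (Real.exp_pos _).le hM0
  apply Real.exp_le_exp.mpr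
  apply mul_le_mul_of_nonneg_left _ (by have := Real.pi_pos; positivity)
  have := sq_nonneg ‖z - l‖
  linarith

theorem order_lt {c : ℂ → ℂ} (hc : Differentiable ℂ c) (hne : ∃ z, c z ≠ 0) {h : ℝ} {m : ℕ}
    (hm : 0 < m) (hh0 : 0 ≤ h) (hh : h ≤ m / 500)
    (hper : ∀ p q : ℤ, ∃ χ : ℂ, ‖χ‖ = 1 ∧ ∀ z, c (z + (p + q * I)) =
      χ * Complex.exp (Real.pi * (h * z * (starRingEnd ℂ) (p + q * I)) +
        Real.pi / 2 * (h * (p + q * I) * (starRingEnd ℂ) (p + q * I))) * c z) :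
    analyticOrderAt c 0 < m := by
  classical
  by_contra hge
  push Not at hge
  obtain ⟨z₀, hz₀⟩ := hne
  obtain ⟨M, hM0, hM⟩ := growth hc hh0 hper
  obtain ⟨g₀, hg₀, hcg₀⟩ := factor_pow hc 0 m hge
  have hord : ∀ p q : ℤ, (m : ℕ∞) ≤ analyticOrderAt c (p + q * I) := by
    intro p q
    obtain ⟨χ, hχ, hz⟩ := hper p q
    set l : ℂ := p + q * I with hl
    apply le_order_of_factor (g := fun z => χ * Complex.exp (Real.pi * (h * (z - l) *
      (starRingEnd ℂ) l) + Real.pi / 2 * (h * l * (starRingEnd ℂ) l)) * g₀ (z - l))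
    · fun_prop
    · intro z
      have h1 := hz (z - l)
      rw [sub_add_cancel] at h1
      rw [h1, hcg₀ (z - l), sub_zero]
      ring
  set r : ℝ := Real.exp (32 * Real.pi / 500) / 2 with hr
  have hr0 : 0 < r := by positivity
  have hr1 : r < 1 := by
    rw [hr, div_lt_one (by norm_num)]
    have h1 : 32 * Real.pi / 500 < Real.log 2 := by
      have := Real.pi_lt_four
      have := Real.log_two_gt_d9
      linarith
    calc Real.exp (32 * Real.pi / 500) < Real.exp (Real.log 2) := Real.exp_lt_exp.mpr h1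
      _ = 2 := Real.exp_log (by norm_num)
  have key : ∀ N : ℕ, 1 ≤ N → ‖z₀‖ ≤ N → ‖c z₀‖ ≤ M * r ^ N := by
    intro N hN1 hN
    have hNpos : (0 : ℝ) < N := by exact_mod_cast hN1
    set S : Finset ℂ := (Finset.range N ×ˢ Finset.range N).image
      (fun x => ((x.1 : ℤ) : ℂ) + ((x.2 : ℤ) : ℂ) * I) with hS
    have hcard : S.card = N * N := by
      rw [hS, Finset.card_image_of_injective]
      · simp
      · intro x y hxy
        have h1 := congrArg Complex.re hxy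
        have h2 := congrArg Complex.im hxy
        simp at h1 h2
        exact Prod.ext h1 h2
    have hSn : ∀ a ∈ S, ‖a‖ ≤ 2 * N := by
      intro a ha
      rw [hS, Finset.mem_image] at ha
      obtain ⟨x, hx, rfl⟩ := ha
      rw [Finset.mem_product, Finset.mem_range, Finset.mem_range] at hx
      have h1 : (x.1 : ℝ) ≤ N := by exact_mod_cast hx.1.le
      have h2 : (x.2 : ℝ) ≤ N := by exact_mod_cast hx.2.le
      refine (norm_add_le _ _).trans ?_
      simp
      linarith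
    obtain ⟨g, hg, hcg⟩ := factor_finset hc m S (by
      intro a ha
      rw [hS, Finset.mem_image] at ha
      obtain ⟨x, hx, rfl⟩ := ha
      exact hord _ _)
    have hup : ∀ z, ‖z‖ = 8 * N → ‖g z‖ ≤
        M * Real.exp (32 * Real.pi / 500) ^ (m * (N * N)) / (6 * N) ^ (m * (N * N)) := by
      intro z hz
      rw [le_div_iff₀ (by positivity)]
      have h1 := hM z
      rw [hcg z, norm_mul, hz] at h1
      have h2 : (6 * (N : ℝ)) ^ (m * (N * N)) ≤ ‖∏ a ∈ S, (z - a) ^ m‖ := by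
        rw [norm_prod, pow_mul, ← hcard, ← Finset.prod_const]
        apply Finset.prod_le_prod
        · intro a _; positivity
        · intro a ha
          rw [norm_pow]
          apply pow_le_pow_left₀ (by positivity)
          have := norm_sub_norm_le z a
          have := hSn a ha
          linarith
      have h3 : Real.exp (Real.pi * h / 2 * (8 * N) ^ 2) ≤
          Real.exp (32 * Real.pi / 500) ^ (m * (N * N)) := by
        rw [← Real.exp_nat_mul]
        apply Real.exp_le_exp.mpr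
        push_cast
        have := Real.pi_pos
        have h4 : Real.pi * h / 2 * (8 * N) ^ 2 = 32 * Real.pi * (N * N) * h := by ring
        have h5 : (m : ℝ) * (N * N) * (32 * Real.pi / 500) =
          32 * Real.pi * (N * N) * (m / 500) := by ring
        rw [h4, h5]
        exact mul_le_mul_of_nonneg_left hh (by positivity)
      calc ‖g z‖ * (6 * (N : ℝ)) ^ (m * (N * N)) ≤ ‖g z‖ * ‖∏ a ∈ S, (z - a) ^ m‖ :=
            mul_le_mul_of_nonneg_left h2 (norm_nonneg _)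
        _ ≤ M * Real.exp (Real.pi * h / 2 * (8 * N) ^ 2) := by rw [mul_comm]; exact h1
        _ ≤ _ := mul_le_mul_of_nonneg_left h3 hM0
    have hg0 := max_mod hg (by positivity) hup (z := z₀) (by linarith)
    have h2 : ‖∏ a ∈ S, (z₀ - a) ^ m‖ ≤ (3 * (N : ℝ)) ^ (m * (N * N)) := by
      rw [norm_prod, pow_mul, ← hcard, ← Finset.prod_const]
      apply Finset.prod_le_prod
      · intro a _; positivity
      · intro a ha
        rw [norm_pow]
        apply pow_le_pow_left₀ (by positivity)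
        have := norm_sub_le z₀ a
        have := hSn a ha
        linarith
    rw [hcg z₀, norm_mul]
    calc ‖∏ a ∈ S, (z₀ - a) ^ m‖ * ‖g z₀‖ ≤ (3 * (N : ℝ)) ^ (m * (N * N)) *
          (M * Real.exp (32 * Real.pi / 500) ^ (m * (N * N)) / (6 * N) ^ (m * (N * N))) :=
          mul_le_mul h2 hg0 (norm_nonneg _) (by positivity)
      _ = M * r ^ (m * (N * N)) := by
          rw [hr, div_pow, show (6 * (N : ℝ)) = 2 * (3 * N) by ring, mul_pow 2]
          field_simp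
      _ ≤ M * r ^ N := by
          apply mul_le_mul_of_nonneg_left _ hM0
          apply pow_le_pow_of_le_one hr0.le hr1.le
          calc N = 1 * (1 * N) := by ring
            _ ≤ m * (N * N) := Nat.mul_le_mul hm (Nat.mul_le_mul hN1 le_rfl)
  have hlim : Tendsto (fun N : ℕ => M * r ^ N) atTop (𝓝 (M * 0)) :=
    (tendsto_pow_atTop_nhds_zero_of_lt_one hr0.le hr1).const_mul M
  rw [mul_zero] at hlim
  have : ‖c z₀‖ ≤ 0 := by
    apply ge_of_tendsto hlim
    filter_upwards [eventually_ge_atTop 1, eventually_ge_atTop ⌈‖z₀‖⌉₊] with N h1 h2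
    exact key N h1 ((Nat.le_ceil _).trans (by exact_mod_cast h2))
  exact hz₀ (norm_le_zero_iff.mp this)

end Pool.Agent.MP_c52a38_ag

end

-- part MP_c52a38_ag.TwoVar
section

namespace Pool.Agent.MP_c52a38_ag

open Metric Filter MeasureTheory Set Complex
open scoped ENNReal Topology

theorem exists_factor {F : ℂ × ℂ → ℂ} (hF : Differentiable ℂ F) (hne : ∃ p, F p ≠ 0) :
    ∃ (k : ℕ) (g : ℂ → ℂ → ℂ), (∀ z, Differentiable ℂ (g z)) ∧
      (∀ z w, F (z, w) = w ^ k * g z w) ∧ ∃ z, g z 0 ≠ 0 := by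
  have hd : ∀ z, Differentiable ℂ (fun w => F (z, w)) := fun z => by fun_prop
  obtain ⟨o, ⟨z₁, rfl⟩, hmin⟩ := (wellFounded_lt (α := ℕ∞)).has_min
    (Set.range fun z => analyticOrderAt (fun w => F (z, w)) 0) (Set.range_nonempty _)
  have hle : ∀ z, analyticOrderAt (fun w => F (z₁, w)) 0 ≤
      analyticOrderAt (fun w => F (z, w)) 0 := fun z => not_lt.mp (hmin _ ⟨z, rfl⟩)
  obtain ⟨⟨z₀, w₀⟩, hp⟩ := hne
  have hfin : analyticOrderAt (fun w => F (z₁, w)) 0 ≠ ⊤ := by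
    intro htop
    have h1 := hle z₀
    rw [htop, top_le_iff, AnalyticOnNhd.analyticOrderAt_eq_top_iff_eq_zero 0
      (fun w => (hd z₀).analyticAt w)] at h1
    exact hp (congrFun h1 w₀)
  obtain ⟨k, hk⟩ := ENat.ne_top_iff_exists.mp hfin
  have hex : ∀ z, ∃ g : ℂ → ℂ, Differentiable ℂ g ∧ ∀ w, F (z, w) = (w - 0) ^ k * g w :=
    fun z => factor_pow (hd z) 0 k (hk ▸ hle z)
  choose g hg hFg using hex
  refine ⟨k, g, hg, fun z w => by simpa using hFg z w, z₁, fun h0 => ?_⟩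
  obtain ⟨g', hg', hgg'⟩ := factor_one (hg z₁) h0
  have := le_order_of_factor (f := fun w => F (z₁, w)) hg' 0 (k + 1) (by
    intro w
    rw [hFg z₁ w, hgg' w]; ring)
  rw [← hk] at this
  have : k + 1 ≤ k := by exact_mod_cast this
  omega

theorem g_bound {F : ℂ × ℂ → ℂ} (hF : Differentiable ℂ F) {k : ℕ} {g : ℂ → ℂ → ℂ}
    (hg : ∀ z, Differentiable ℂ (g z)) (hFg : ∀ z w, F (z, w) = w ^ k * g z w) (R : ℝ) :
    ∃ M : ℝ, 0 < M ∧ (∀ z w, ‖z‖ ≤ R → ‖w‖ ≤ 1 → ‖g z w‖ ≤ M) ∧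
      ∀ z w, ‖z‖ ≤ R → ‖w‖ < 1 → ‖g z w - g z 0‖ ≤ 2 * M * ‖w‖ := by
  obtain ⟨M, hM⟩ := ((isCompact_closedBall (0 : ℂ) R).prod
    (isCompact_closedBall (0 : ℂ) 1)).exists_bound_of_continuousOn hF.continuous.continuousOn
  have h1 : ∀ z w, ‖z‖ ≤ R → ‖w‖ ≤ 1 → ‖g z w‖ ≤ max M 1 := by
    intro z w hz hw
    apply max_mod (hg z) one_pos _ hw
    intro u hu
    have := hM (z, u) ⟨by simpa using hz, by simp [hu]⟩
    rw [hFg, norm_mul, norm_pow, hu, one_pow, one_mul] at this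
    exact this.trans (le_max_left _ _)
  refine ⟨max M 1, lt_of_lt_of_le one_pos (le_max_right _ _), h1, fun z w hz hw => ?_⟩
  have := Complex.dist_le_div_mul_dist_of_mapsTo_ball (f := g z) (c := 0) (z := w) (R₁ := 1)
    (R₂ := 2 * max M 1) (hg z).differentiableOn (by
      intro u hu
      rw [mem_ball_zero_iff] at hu
      rw [mem_closedBall, dist_eq_norm]
      have h2 := h1 z u hz hu.le
      have h3 := h1 z 0 hz (by simp)
      have := norm_sub_le (g z u) (g z 0)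
      linarith) (by simpa using hw)
  simpa [dist_eq_norm] using this

theorem g_slice_diff {F : ℂ × ℂ → ℂ} (hF : Differentiable ℂ F) {k : ℕ} {g : ℂ → ℂ → ℂ}
    (hFg : ∀ z w, F (z, w) = w ^ k * g z w) {w : ℂ} (hw : w ≠ 0) :
    Differentiable ℂ (fun z => g z w) := by
  have : (fun z => g z w) = fun z => F (z, w) / w ^ k := by
    ext z
    rw [hFg]
    field_simp
  rw [this]
  fun_prop

theorem c_diff {F : ℂ × ℂ → ℂ} (hF : Differentiable ℂ F) {k : ℕ} {g : ℂ → ℂ → ℂ}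
    (hg : ∀ z, Differentiable ℂ (g z)) (hFg : ∀ z w, F (z, w) = w ^ k * g z w) :
    Differentiable ℂ (fun z => g z 0) := by
  intro z₀
  obtain ⟨M, hM0, -, hM⟩ := g_bound hF hg hFg (‖z₀‖ + 1)
  have hU : TendstoUniformlyOn (fun w z => g z w) (fun z => g z 0) (𝓝[≠] (0 : ℂ))
      (ball 0 (‖z₀‖ + 1)) := by
    rw [Metric.tendstoUniformlyOn_iff]
    intro ε hε
    have : ∀ᶠ w in 𝓝 (0 : ℂ), ‖w‖ < min 1 (ε / (2 * M)) := by
      filter_upwards [ball_mem_nhds (0 : ℂ) (show 0 < min 1 (ε / (2 * M)) by positivity)]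
        with w hw
      simpa using hw
    filter_upwards [mem_nhdsWithin_of_mem_nhds this] with w hw z hz
    rw [dist_comm, dist_eq_norm]
    rw [mem_ball_zero_iff] at hz
    have h1 := hM z w hz.le (lt_of_lt_of_le hw (min_le_left _ _))
    have h2 : ‖w‖ < ε / (2 * M) := lt_of_lt_of_le hw (min_le_right _ _)
    rw [lt_div_iff₀ (by positivity)] at h2
    linarith
  have := hU.tendstoLocallyUniformlyOn.differentiableOn (by
    filter_upwards [self_mem_nhdsWithin] with w hw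
    exact (g_slice_diff hF hFg hw).differentiableOn) isOpen_ball
  exact this.differentiableAt (isOpen_ball.mem_nhds (by simp))

theorem c_per {F : ℂ × ℂ → ℂ} {k : ℕ} {g : ℂ → ℂ → ℂ}
    (hg : ∀ z, Differentiable ℂ (g z)) (hFg : ∀ z w, F (z, w) = w ^ k * g z w)
    {l χ : ℂ} {h h' : ℝ}
    (hper : ∀ z w, F (z + l, w) = χ * Complex.exp (Real.pi * ((h * z + h' * w) *
      (starRingEnd ℂ) l) + Real.pi / 2 * (h * l * (starRingEnd ℂ) l)) * F (z, w)) (z : ℂ) :
    g (z + l) 0 = χ * Complex.exp (Real.pi * (h * z * (starRingEnd ℂ) l) +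
        Real.pi / 2 * (h * l * (starRingEnd ℂ) l)) * g z 0 := by
  have h1 : Continuous (g (z + l)) := (hg _).continuous
  have h2 : Continuous (fun w => χ * Complex.exp (Real.pi * ((h * z + h' * w) *
      (starRingEnd ℂ) l) + Real.pi / 2 * (h * l * (starRingEnd ℂ) l)) * g z w) := by
    have := (hg z).continuous
    fun_prop
  have h3 := Continuous.ext_on (dense_compl_singleton (0 : ℂ)) h1 h2 (by
    intro w hw
    have hw' : w ^ k ≠ 0 := pow_ne_zero _ hw
    have := hper z w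
    rw [hFg, hFg] at this
    apply mul_left_cancel₀ hw'
    rw [this]; ring)
  have := congrFun h3 0
  simpa using this

theorem meas_F {F : ℂ × ℂ → ℂ} (hF : Differentiable ℂ F) (q : ℝ) :
    Measurable (fun p => (‖F p‖ₑ ^ q)⁻¹) := by
  have := hF.continuous.measurable
  fun_prop

theorem case_big {F : ℂ × ℂ → ℂ} (hF : Differentiable ℂ F) {k m : ℕ} {g : ℂ → ℂ → ℂ}
    (hg : ∀ z, Differentiable ℂ (g z)) (hFg : ∀ z w, F (z, w) = w ^ k * g z w)
    (hm : 0 < m) (hmk : m ≤ k) (z₀ : ℂ) {r : ℝ} (hr : 0 < r) (hr1 : r ≤ 1) :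
    ∫⁻ p in ball z₀ r ×ˢ ball (0 : ℂ) r, (‖F p‖ₑ ^ (2 / (m : ℝ)))⁻¹ = ∞ := by
  obtain ⟨M, hM0, hM, -⟩ := g_bound hF hg hFg (‖z₀‖ + 1)
  have hmR : (0 : ℝ) < m := by exact_mod_cast hm
  have hq : (0 : ℝ) ≤ 2 / (m : ℝ) := by positivity
  set K : ℝ≥0∞ := (ENNReal.ofReal M ^ (2 / (m : ℝ)))⁻¹ with hK
  have hK0 : K ≠ 0 :=
    ENNReal.inv_ne_zero.mpr (ENNReal.rpow_ne_top_of_nonneg hq ENNReal.ofReal_ne_top)
  have hKtop : K ≠ ∞ := ENNReal.inv_ne_top.mpr
    (ENNReal.rpow_pos (ENNReal.ofReal_pos.mpr hM0) ENNReal.ofReal_ne_top).ne'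
  have hpt : ∀ z ∈ ball z₀ r, ∀ w ∈ ball (0 : ℂ) r,
      K * (‖w‖ₑ ^ (2 : ℝ))⁻¹ ≤ (‖F (z, w)‖ₑ ^ (2 / (m : ℝ)))⁻¹ := by
    intro z hz w hw
    rw [mem_ball_zero_iff] at hw
    have hw1 : ‖w‖ ≤ 1 := by linarith
    have hz1 : ‖z‖ ≤ ‖z₀‖ + 1 := by
      rw [mem_ball, dist_eq_norm] at hz
      have := norm_sub_norm_le z z₀
      linarith
    have h1 : ‖F (z, w)‖ ≤ M * ‖w‖ ^ m := by
      rw [hFg, norm_mul, norm_pow, mul_comm]
      exact mul_le_mul (hM z w hz1 hw1) (pow_le_pow_of_le_one (norm_nonneg _) hw1 hmk)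
        (by positivity) hM0.le
    have h2 : ‖F (z, w)‖ₑ ^ (2 / (m : ℝ)) ≤
        ENNReal.ofReal M ^ (2 / (m : ℝ)) * ‖w‖ₑ ^ (2 : ℝ) := by
      have e : (2 : ℝ) = m * (2 / m) := by field_simp
      conv_rhs => rw [show ‖w‖ₑ ^ (2 : ℝ) = ‖w‖ₑ ^ ((m : ℝ) * (2 / m)) by rw [← e]]
      rw [ENNReal.rpow_mul, ← ENNReal.mul_rpow_of_nonneg _ _ hq]
      apply ENNReal.rpow_le_rpow _ hq
      rw [ENNReal.rpow_natCast, ← ofReal_norm, ← ofReal_norm,
        ← ENNReal.ofReal_pow (norm_nonneg _), ← ENNReal.ofReal_mul hM0.le]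
      exact ENNReal.ofReal_le_ofReal h1
    refine le_trans (le_of_eq ?_) (ENNReal.inv_le_inv.mpr h2)
    symm
    apply ENNReal.mul_inv
    · left; exact ENNReal.inv_ne_top.mp hKtop
    · left; exact ENNReal.inv_ne_zero.mp hK0
  rw [Measure.volume_eq_prod, setLIntegral_prod _ (meas_F hF _).aemeasurable, eq_top_iff]
  calc (⊤ : ℝ≥0∞) = ∫⁻ _z in ball z₀ r, (⊤ : ℝ≥0∞) := by
        rw [setLIntegral_const, ENNReal.top_mul]
        exact (measure_ball_pos volume z₀ hr).ne'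
    _ ≤ _ := by
        apply setLIntegral_mono' measurableSet_ball
        intro z hz
        calc (⊤ : ℝ≥0∞) = K * ∫⁻ w in ball (0 : ℂ) r, (‖w‖ₑ ^ (2 : ℝ))⁻¹ := by
              rw [lint_inf hr, ENNReal.mul_top hK0]
          _ = ∫⁻ w in ball (0 : ℂ) r, K * (‖w‖ₑ ^ (2 : ℝ))⁻¹ :=
              (lintegral_const_mul' _ _ hKtop).symm
          _ ≤ _ := setLIntegral_mono' measurableSet_ball (hpt z hz)

theorem case_small {F : ℂ × ℂ → ℂ} (hF : Differentiable ℂ F) {k m : ℕ} {g : ℂ → ℂ → ℂ}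
    (hg : ∀ z, Differentiable ℂ (g z)) (hFg : ∀ z w, F (z, w) = w ^ k * g z w)
    (hkm : k < m) (hord : analyticOrderAt (fun z => g z 0) 0 < m) :
    ∃ δ > 0, ∃ ρ > 0,
      ∫⁻ p in ball (0 : ℂ) δ ×ˢ ball (0 : ℂ) ρ, (‖F p‖ₑ ^ (2 / (m : ℝ)))⁻¹ < ∞ := by
  have hm : 0 < m := by omega
  have hmR : (0 : ℝ) < m := by exact_mod_cast hm
  have hq : (0 : ℝ) ≤ 2 / (m : ℝ) := by positivity
  have hc := c_diff hF hg hFg
  obtain ⟨j, hj⟩ := ENat.ne_top_iff_exists.mp (ne_top_of_lt hord)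
  have hjm : j < m := by
    rw [← hj] at hord
    exact_mod_cast hord
  obtain ⟨u, hu, hcu⟩ := factor_pow hc 0 j hj.le
  simp only [sub_zero] at hcu
  have hu0 : u 0 ≠ 0 := by
    intro h0
    obtain ⟨u', hu', huu'⟩ := factor_one hu h0
    have := le_order_of_factor (f := fun z => g z 0) hu' 0 (j + 1) (by
      intro z
      rw [hcu z, huu' z]; ring)
    rw [← hj] at this
    have : j + 1 ≤ j := by exact_mod_cast this
    omega
  set A : ℝ := ‖u 0‖ with hA
  have hA0 : 0 < A := norm_pos_iff.mpr hu0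
  obtain ⟨R₀, hR₀, hRu⟩ := Metric.continuousAt_iff.mp (hu.continuous.continuousAt (x := 0))
    (A / 2) (by positivity)
  set R : ℝ := min (R₀ / 2) (1 / 2) with hR
  have hR0 : 0 < R := by positivity
  have hR1 : R ≤ 1 / 2 := min_le_right _ _
  have huR : ∀ z, ‖z‖ ≤ R → A / 2 ≤ ‖u z‖ ∧ ‖u z‖ ≤ 2 * A := by
    intro z hz
    have h1 : dist z 0 < R₀ := by
      rw [dist_zero_right]
      have : R ≤ R₀ / 2 := min_le_left _ _
      linarith
    have h2 := hRu h1
    rw [dist_eq_norm] at h2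
    have h3 := norm_sub_norm_le (u z) (u 0)
    have h4 := norm_sub_norm_le (u 0) (u z)
    rw [norm_sub_rev] at h4
    constructor <;> linarith
  set δ : ℝ := R / (13 * 4 ^ (j + 1)) with hδ
  have hδ0 : 0 < δ := by positivity
  have hδR : δ ≤ R := by
    rw [hδ]
    apply div_le_self hR0.le
    have : (1 : ℝ) ≤ 4 ^ (j + 1) := one_le_pow₀ (by norm_num)
    linarith
  obtain ⟨M, hM0, -, hM⟩ := g_bound hF hg hFg R
  set η : ℝ := A / 4 * δ ^ j with hη
  have hη0 : 0 < η := by positivity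
  set ρ : ℝ := min 1 (η / (2 * M)) with hρ
  have hρ0 : 0 < ρ := by positivity
  refine ⟨δ, hδ0, ρ, hρ0, ?_⟩
  set K : ℝ≥0∞ := (ENNReal.ofReal η ^ (2 / (m : ℝ)))⁻¹ *
      (volume (ball (0 : ℂ) δ) + j * ∫⁻ u in ball (0 : ℂ) 1, (‖u‖ₑ ^ (j * (2 / (m : ℝ))))⁻¹)
    with hK
  have hlt : ∀ i : ℕ, i < m → (i : ℝ) * (2 / (m : ℝ)) < 2 := by
    intro i hi
    have : (i : ℝ) < m := by exact_mod_cast hi
    rw [mul_div_assoc', div_lt_iff₀ hmR]
    linarith
  have hKtop : K ≠ ∞ := by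
    apply ENNReal.mul_ne_top
    · exact ENNReal.inv_ne_top.mpr
        (ENNReal.rpow_pos (ENNReal.ofReal_pos.mpr hη0) ENNReal.ofReal_ne_top).ne'
    · apply ENNReal.add_ne_top.mpr
      exact ⟨measure_ball_lt_top.ne, ENNReal.mul_ne_top (ENNReal.natCast_ne_top _)
        (lint_fin (hlt j hjm) 1).ne⟩
  have hslice : ∀ w : ℂ, w ≠ 0 → ‖w‖ < ρ →
      ∫⁻ z in ball (0 : ℂ) δ, (‖g z w‖ₑ ^ (2 / (m : ℝ)))⁻¹ ≤ K := by
    intro w hw0 hw
    have hclose : ∀ z, ‖z‖ ≤ R → ‖g z w - g z 0‖ ≤ η := by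
      intro z hz
      have h1 := hM z w hz (lt_of_lt_of_le hw (min_le_left _ _))
      have h2 : ‖w‖ < η / (2 * M) := lt_of_lt_of_le hw (min_le_right _ _)
      rw [lt_div_iff₀ (by positivity)] at h2
      linarith
    have hlow : ∀ z, ‖z‖ = δ → η ≤ ‖g z w‖ := by
      intro z hz
      have h1 := hclose z (by linarith)
      have h2 := (huR z (by linarith)).1
      have h3 : 2 * η ≤ ‖g z 0‖ := by
        rw [hcu z, norm_mul, norm_pow, hz, hη]
        have : 0 < δ ^ j := by positivity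
        nlinarith
      have h4 := norm_sub_norm_le (g z 0) (g z w)
      rw [norm_sub_rev] at h4
      linarith
    have hup : ∀ z, ‖z‖ = R → ‖g z w‖ ≤ 3 * A * R ^ j := by
      intro z hz
      have h1 := hclose z hz.le
      have h2 := (huR z hz.le).2
      have h3 : ‖g z 0‖ ≤ 2 * A * R ^ j := by
        rw [hcu z, norm_mul, norm_pow, hz, mul_comm]
        exact mul_le_mul_of_nonneg_right h2 (by positivity)
      have h4 := norm_sub_norm_le (g z w) (g z 0)
      have h5 : η ≤ A * R ^ j := by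
        rw [hη]
        exact mul_le_mul (by linarith) (pow_le_pow_left₀ hδ0.le hδR _) (by positivity) hA0.le
      linarith
    obtain ⟨s, hs1, hs2, hs3⟩ := lower_prod j hδ0 (hδR.trans hR1) hη0 (fun z => g z w)
      (g_slice_diff hF hFg hw0) hlow (fun s g' hg' hs hfg =>
        count_le hA0 hR0 hδ hup (hlow δ (by simp [abs_of_pos hδ0])) s g' hg' hs hfg)
    exact unif_bound hq (hδR.trans hR1) hη0 hs1 hs2 hs3
  rw [Measure.volume_eq_prod, setLIntegral_prod_symm _ (meas_F hF _).aemeasurable]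
  calc ∫⁻ w in ball (0 : ℂ) ρ, ∫⁻ z in ball (0 : ℂ) δ, (‖F (z, w)‖ₑ ^ (2 / (m : ℝ)))⁻¹
      ≤ ∫⁻ w in ball (0 : ℂ) ρ, K * (‖w‖ₑ ^ (k * (2 / (m : ℝ))))⁻¹ := by
        apply lintegral_mono_ae
        filter_upwards [ae_ne_zero (ball 0 ρ), ae_restrict_mem measurableSet_ball] with w hw0 hw
        rw [mem_ball_zero_iff] at hw
        have hwe : 0 < ‖w‖ₑ := by simpa [pos_iff_ne_zero] using hw0
        have hwt : (‖w‖ₑ ^ (k * (2 / (m : ℝ))))⁻¹ ≠ ∞ :=
          ENNReal.inv_ne_top.mpr (ENNReal.rpow_pos hwe enorm_ne_top).ne'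
        have e : ∀ z, (‖F (z, w)‖ₑ ^ (2 / (m : ℝ)))⁻¹ =
            (‖w‖ₑ ^ (k * (2 / (m : ℝ))))⁻¹ * (‖g z w‖ₑ ^ (2 / (m : ℝ)))⁻¹ := by
          intro z
          rw [hFg, enorm_mul, ENNReal.mul_rpow_of_nonneg _ _ hq, enorm_pow, ENNReal.rpow_mul,
            ENNReal.rpow_natCast]
          apply ENNReal.mul_inv
          · left
            exact (ENNReal.rpow_pos (ENNReal.pow_pos hwe _)
              (ENNReal.pow_ne_top enorm_ne_top)).ne'
          · left
            exact ENNReal.rpow_ne_top_of_nonneg hq (ENNReal.pow_ne_top enorm_ne_top)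
        simp only [e]
        rw [lintegral_const_mul' _ _ hwt, mul_comm]
        gcongr
        exact hslice w hw0 hw
    _ = K * ∫⁻ w in ball (0 : ℂ) ρ, (‖w‖ₑ ^ (k * (2 / (m : ℝ))))⁻¹ :=
        lintegral_const_mul' _ _ hKtop
    _ < ∞ := ENNReal.mul_lt_top hKtop.lt_top (lint_fin (hlt k hkm) ρ)

theorem dichotomy {F : ℂ × ℂ → ℂ} (hF : Differentiable ℂ F) (hne : ∃ p, F p ≠ 0)
    {h h' : ℝ} {m : ℕ} (hm : 0 < m) (hh0 : 0 ≤ h) (hh : h ≤ m / 500)
    (hper : ∀ p q : ℤ, ∃ χ : ℂ, ‖χ‖ = 1 ∧ ∀ z w, F (z + (p + q * I), w) =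
      χ * Complex.exp (Real.pi * ((h * z + h' * w) * (starRingEnd ℂ) (p + q * I)) +
        Real.pi / 2 * (h * (p + q * I) * (starRingEnd ℂ) (p + q * I))) * F (z, w)) :
    (∃ δ > 0, ∃ ρ > 0,
      ∫⁻ p in ball (0 : ℂ) δ ×ˢ ball (0 : ℂ) ρ, (‖F p‖ₑ ^ (2 / (m : ℝ)))⁻¹ < ∞) ∨
    (∀ z₀ : ℂ, ∀ r : ℝ, 0 < r → r ≤ 1 →
      ∫⁻ p in ball z₀ r ×ˢ ball (0 : ℂ) r, (‖F p‖ₑ ^ (2 / (m : ℝ)))⁻¹ = ∞) := by
  obtain ⟨k, g, hg, hFg, hz⟩ := exists_factor hF hne
  rcases lt_or_ge k m with hkm | hkm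
  · left
    apply case_small hF hg hFg hkm
    apply order_lt (c_diff hF hg hFg) hz hm hh0 hh
    intro p q
    obtain ⟨χ, hχ, hp⟩ := hper p q
    exact ⟨χ, hχ, fun z => c_per hg hFg hp z⟩
  · right
    intro z₀ r hr hr1
    exact case_big hF hg hFg hm hkm z₀ hr hr1

end Pool.Agent.MP_c52a38_ag

end

-- part MP_c52a38_ag.Example
section

namespace Pool.Agent.MP_c52a38_ag

open Metric Filter MeasureTheory Set Complex Matrix
open scoped ENNReal Topology ComplexOrder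

noncomputable def vec : Fin 4 → (Fin 2 → ℂ) := ![![1, 0], ![I, 0], ![0, 1], ![0, I]]

theorem vec_li : LinearIndependent ℝ vec := by
  rw [Fintype.linearIndependent_iff]
  intro c hc i
  have h0 := congrFun hc 0
  have h1 := congrFun hc 1
  simp [vec, Fin.sum_univ_four, Complex.ext_iff] at h0 h1
  fin_cases i <;> simp [h0.1, h0.2, h1.1, h1.2]

theorem vec_span : ⊤ ≤ Submodule.span ℝ (Set.range vec) := by
  intro x _
  rw [Submodule.mem_span_range_iff_exists_fun]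
  refine ⟨![(x 0).re, (x 0).im, (x 1).re, (x 1).im], ?_⟩
  ext i
  fin_cases i <;> simp [vec, Fin.sum_univ_four]

noncomputable def bas : Module.Basis (Fin (2 * 2)) ℝ (Fin 2 → ℂ) :=
  Module.Basis.mk (ι := Fin 4) vec_li vec_span

theorem bas_eq : ⇑bas = vec := Module.Basis.coe_mk vec_li vec_span

theorem mem_lattice (x : Fin 2 → ℂ) : x ∈ lattice bas ↔
    ∃ p q r s : ℤ, x 0 = p + q * I ∧ x 1 = r + s * I := by
  unfold lattice
  rw [SetLike.mem_coe, bas_eq, Submodule.mem_span_range_iff_exists_fun]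
  constructor
  · rintro ⟨c, rfl⟩
    refine ⟨c 0, c 1, c 2, c 3, ?_, ?_⟩ <;> simp [vec, Fin.sum_univ_four]
  · rintro ⟨p, q, r, s, h0, h1⟩
    refine ⟨![p, q, r, s], ?_⟩
    ext i
    fin_cases i <;> simp [vec, Fin.sum_univ_four, h0, h1]

noncomputable def HH : Matrix (Fin 2) (Fin 2) ℂ := !![1 / 500, 1 / 1000; 1 / 1000, 2000]

theorem herm_HH (z w : Fin 2 → ℂ) : herm HH z w =
    (starRingEnd ℂ) (w 0) * (z 0 / 500 + z 1 / 1000) +
      (starRingEnd ℂ) (w 1) * (z 0 / 1000 + 2000 * z 1) := by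
  simp [herm, HH, dotProduct, Matrix.mulVec, Fin.sum_univ_two]
  ring

theorem herm_smul (m : ℂ) (H : Matrix (Fin 2) (Fin 2) ℂ) (z w : Fin 2 → ℂ) :
    herm (m • H) z w = m * herm H z w := by
  unfold herm
  rw [Matrix.smul_mulVec, dotProduct_smul, smul_eq_mul]

theorem HH_posDef : HH.PosDef := by
  apply Matrix.PosDef.of_dotProduct_mulVec_pos
  · ext i j
    fin_cases i <;> fin_cases j <;> simp [HH, Matrix.conjTranspose_apply]
  · intro x hx
    have h := herm_HH x x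
    unfold herm at h
    rw [h, Complex.pos_iff]
    have hx' : x 0 ≠ 0 ∨ x 1 ≠ 0 := by
      by_contra hcon
      push Not at hcon
      apply hx
      ext i
      fin_cases i
      · exact hcon.1
      · exact hcon.2
    constructor
    · simp
      have h0 : 0 < (x 0).re ^ 2 + (x 0).im ^ 2 + (x 1).re ^ 2 + (x 1).im ^ 2 := by
        rcases hx' with h | h
        · have := Complex.normSq_pos.mpr h
          rw [Complex.normSq_apply] at this
          nlinarith [sq_nonneg (x 1).re, sq_nonneg (x 1).im]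
        · have := Complex.normSq_pos.mpr h
          rw [Complex.normSq_apply] at this
          nlinarith [sq_nonneg (x 0).re, sq_nonneg (x 0).im]
      nlinarith [sq_nonneg ((x 0).re + (x 1).re), sq_nonneg ((x 0).im + (x 1).im),
        sq_nonneg (x 1).re, sq_nonneg (x 1).im]
    · simp
      ring

theorem ample : IsAmpleQClass bas HH := by
  refine ⟨HH_posDef, ?_⟩
  intro l hl l' hl'
  obtain ⟨p, q, r, s, h0, h1⟩ := (mem_lattice l).mp hl
  obtain ⟨p', q', r', s', h0', h1'⟩ := (mem_lattice l').mp hl'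
  refine ⟨p' * (q / 500 + s / 1000) - q' * (p / 500 + r / 1000) +
    (r' * (q / 1000 + 2000 * s) - s' * (p / 1000 + 2000 * r)), ?_⟩
  rw [herm_HH, h0, h1, h0', h1']
  simp
  ring

theorem big : ((2 : ℕ) : ℝ) ^ 2 < selfInter bas HH := by
  unfold selfInter
  have hM : (Matrix.of fun i j => (herm HH (bas i) (bas j)).im) =
      (!![0, -1 / 500, 0, -1 / 1000; 1 / 500, 0, 1 / 1000, 0;
        0, -1 / 1000, 0, -2000; 1 / 1000, 0, 2000, 0] : Matrix (Fin 4) (Fin 4) ℝ) := by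
    ext i j
    rw [Matrix.of_apply, bas_eq, herm_HH]
    fin_cases i <;> fin_cases j <;> simp [vec] <;> norm_num
  have hd : (!![0, -1 / 500, 0, -1 / 1000; 1 / 500, 0, 1 / 1000, 0;
        0, -1 / 1000, 0, -2000; 1 / 1000, 0, 2000, 0] : Matrix (Fin 4) (Fin 4) ℝ).det =
        (4 - 1 / 1000000) ^ 2 := by
    simp [Matrix.det_succ_row_zero, Fin.sum_univ_succ, Fin.succAbove]
    norm_num
  rw [hM]
  erw [hd]
  rw [Real.sqrt_sq (by norm_num)]
  norm_num [Nat.factorial]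

theorem herm_conj (z w : Fin 2 → ℂ) (h : herm HH z w = 0) : herm HH w z = 0 := by
  have := congrArg (starRingEnd ℂ) h
  rw [herm_HH] at this ⊢
  simp only [map_add, map_mul, map_div₀, Complex.conj_conj, map_zero, map_ofNat] at this
  rw [← this]
  ring

theorem not_split_aux (W₁ W₂ : Submodule ℂ (Fin 2 → ℂ)) (h2 : W₂ ≠ ⊥)
    (he : (![1, 0] : Fin 2 → ℂ) ∈ W₁)
    (hl : ∃ l₁ ∈ lattice bas, ∃ l₂ ∈ lattice bas, l₁ ∈ W₁ ∧ l₂ ∈ W₂ ∧
      (![0, 1] : Fin 2 → ℂ) = l₁ + l₂)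
    (ho : ∀ w₁ ∈ W₁, ∀ w₂ ∈ W₂, herm HH w₂ w₁ = 0) : False := by
  obtain ⟨l₁, -, l₂, hl₂, hw₁, hw₂, hsum⟩ := hl
  obtain ⟨w, hw, hw0⟩ := (Submodule.ne_bot_iff W₂).mp h2
  have e1 := ho _ he _ hw
  have e2 := ho _ he _ hw₂
  have e3 := ho _ hw₁ _ hw
  rw [herm_HH] at e1 e2 e3
  simp at e1 e2
  have hs1 := congrFun hsum 1
  simp at hs1
  have hw1 : w 1 ≠ 0 := by
    intro h
    apply hw0
    ext i
    fin_cases i
    · rw [h] at e1
      simpa using e1
    · exact h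
  have e4 : w 0 = -w 1 / 2 := by linear_combination 500 * e1
  have e5 : (starRingEnd ℂ) (l₁ 1) * (w 1 * (2000 - 1 / 2000)) = 0 := by
    rw [e4] at e3
    linear_combination e3
  have e6 : l₁ 1 = 0 := by
    rcases mul_eq_zero.mp e5 with h | h
    · simpa using h
    · rcases mul_eq_zero.mp h with h | h
      · exact absurd h hw1
      · norm_num at h
  obtain ⟨p, q, r, s, h0, h1⟩ := (mem_lattice l₂).mp hl₂
  have e7 : l₂ 0 = -1 / 2 := by
    rw [e6, zero_add] at hs1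
    rw [← hs1] at e2
    linear_combination 500 * e2
  rw [h0] at e7
  have e8 := congrArg Complex.re e7
  simp at e8
  have e9 : (2 * p : ℝ) = -1 := by linarith
  have e10 : 2 * p = -1 := by exact_mod_cast e9
  omega

theorem not_splits : ¬ Splits bas HH := by
  rintro ⟨W₁, W₂, h1, h2, -, -, -, hl, ho⟩
  have he1 : (![1, 0] : Fin 2 → ℂ) ∈ lattice bas :=
    (mem_lattice _).mpr ⟨1, 0, 0, 0, by simp, by simp⟩
  have he2 : (![0, 1] : Fin 2 → ℂ) ∈ lattice bas :=
    (mem_lattice _).mpr ⟨0, 0, 1, 0, by simp, by simp⟩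
  obtain ⟨l₁, hl₁, l₂, hl₂, hw₁, hw₂, hsum⟩ := hl _ he1
  have e := ho _ hw₁ _ hw₂
  rw [herm_HH] at e
  have hs0 := congrFun hsum 0
  have hs1 := congrFun hsum 1
  simp at hs0 hs1
  obtain ⟨p, q, r, s, h0, h1'⟩ := (mem_lattice l₁).mp hl₁
  have f0 : l₂ 0 = 1 - (p + q * I) := by rw [← h0]; linear_combination -hs0
  have f1 : l₂ 1 = -(r + s * I) := by rw [← h1']; linear_combination -hs1
  rw [f0, f1, h0, h1'] at e
  have ere := congrArg Complex.re e
  simp at ere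
  have ere' : (2 * p + r : ℝ) = 2 * p ^ 2 + 2 * q ^ 2 + 2 * p * r + 2 * q * s +
      2000000 * r ^ 2 + 2000000 * s ^ 2 := by linarith
  have eint : 2 * p + r = 2 * p ^ 2 + 2 * q ^ 2 + 2 * p * r + 2 * q * s +
      2000000 * r ^ 2 + 2000000 * s ^ 2 := by exact_mod_cast ere'
  have hr : r = 0 := by
    by_contra hr
    have : 1 ≤ r ^ 2 := by have := sq_pos_of_ne_zero hr; omega
    nlinarith [sq_nonneg (2 * p + r - 1), sq_nonneg (2 * q + s), sq_nonneg s]
  have hs : s = 0 := by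
    by_contra hs
    have : 1 ≤ s ^ 2 := by have := sq_pos_of_ne_zero hs; omega
    nlinarith [sq_nonneg (2 * p + r - 1), sq_nonneg (2 * q + s), sq_nonneg r]
  subst hr hs
  have hq : q = 0 := by
    by_contra hq
    have : 1 ≤ q ^ 2 := by have := sq_pos_of_ne_zero hq; omega
    nlinarith [sq_nonneg (2 * p - 1)]
  subst hq
  have hp : p * (p - 1) = 0 := by nlinarith
  rcases mul_eq_zero.mp hp with hp | hp
  · subst hp
    have : l₂ = ![1, 0] := by
      ext i
      fin_cases i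
      · simpa using f0
      · simpa using f1
    obtain ⟨k₁, hk₁, k₂, hk₂, a, b, c⟩ := hl _ he2
    exact not_split_aux W₂ W₁ h1 (this ▸ hw₂) ⟨k₂, hk₂, k₁, hk₁, b, a, by rw [c, add_comm]⟩
      (fun w₁ hw₁ w₂ hw₂ => ho _ hw₂ _ hw₁)
  · have hp' : p = 1 := by omega
    subst hp'
    have : l₁ = ![1, 0] := by
      ext i
      fin_cases i
      · simpa using h0
      · simpa using h1'
    exact not_split_aux W₁ W₂ h2 (this ▸ hw₁) (hl _ he2)
      (fun w₁ hw₁ w₂ hw₂ => herm_conj _ _ (ho _ hw₁ _ hw₂))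

end Pool.Agent.MP_c52a38_ag

end

-- part MP_c52a38_ag.Main
section

namespace Pool.Agent.MP_c52a38_ag

open Metric Filter MeasureTheory Set Complex Matrix
open scoped ENNReal Topology ComplexOrder

theorem lint_transfer (G : ℂ × ℂ → ℝ≥0∞) (S : Set (ℂ × ℂ)) :
    ∫⁻ x in {x : Fin 2 → ℂ | (x 0, x 1) ∈ S}, G (x 0, x 1) = ∫⁻ p in S, G p :=
  (volume_preserving_finTwoArrow ℂ).setLIntegral_comp_preimage_emb
    (MeasurableEquiv.measurableEmbedding _) G S

theorem vec_eta (x : Fin 2 → ℂ) : ![x 0, x 1] = x := by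
  ext i; fin_cases i <;> rfl

theorem cosupport_ne (θ : (Fin 2 → ℂ) → ℂ) (m : ℕ)
    (h : IsEffectiveQDivisorOfClass bas HH θ m) :
    cosupport θ m ≠ subtorusPreimage bas ⊥ := by
  obtain ⟨hm, hne, hd, hper⟩ := h
  intro heq
  set F : ℂ × ℂ → ℂ := fun p => θ ![p.1, p.2] with hF
  have hFd : Differentiable ℂ F := by
    apply hd.comp
    rw [differentiable_pi]
    intro i
    fin_cases i
    · exact differentiable_fst
    · exact differentiable_snd
  have hFθ : ∀ x : Fin 2 → ℂ, θ x = F (x 0, x 1) := by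
    intro x
    simp only [hF, vec_eta]
  have hmR : (0 : ℝ) < m := by exact_mod_cast hm
  rcases dichotomy hFd (h := m / 500) (h' := m / 1000) (m := m) (by
      obtain ⟨x, hx⟩ := Function.ne_iff.mp hne
      exact ⟨(x 0, x 1), by rw [← hFθ]; exact hx⟩) hm (by positivity) le_rfl (by
      intro p q
      obtain ⟨χ, hχ, hz⟩ := hper ![p + q * I, 0]
        ((mem_lattice _).mpr ⟨p, q, 0, 0, by simp, by simp⟩)
      refine ⟨χ, hχ, fun z w => ?_⟩
      have h1 := hz ![z, w]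
      rw [hFθ, hFθ ![z, w], herm_smul, herm_smul, herm_HH, herm_HH] at h1
      simp only [Pi.add_apply, Matrix.cons_val_zero, Matrix.cons_val_one, add_zero,
        map_zero, zero_mul, zero_div] at h1
      rw [h1]
      congr 3
      push_cast; ring) with ⟨δ, hδ, ρ, hρ, hfin⟩ | hinf
  · have h0 : (0 : Fin 2 → ℂ) ∈ cosupport θ m := by
      rw [heq]
      exact ⟨0, Submodule.zero_mem _, 0, (mem_lattice _).mpr ⟨0, 0, 0, 0, by simp, by simp⟩,
        by simp⟩
    apply h0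
    ext f
    constructor
    · exact fun hf => hf.1
    · intro hf
      refine ⟨hf, ?_⟩
      have hc : ContinuousAt f 0 := AnalyticAt.continuousAt hf
      obtain ⟨ε, hε, hb⟩ := Metric.continuousAt_iff.mp hc 1 one_pos
      set S : Set (Fin 2 → ℂ) := {x | (x 0, x 1) ∈ ball (0 : ℂ) δ ×ˢ ball (0 : ℂ) ρ} with hS
      have hSo : IsOpen S := by
        apply (isOpen_ball.prod isOpen_ball).preimage
        fun_prop
      have hS0 : (0 : Fin 2 → ℂ) ∈ S := by simp [hS, hδ, hρ]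
      refine ⟨ball 0 ε ∩ S, inter_mem (ball_mem_nhds _ hε) (hSo.mem_nhds hS0), ?_⟩
      set C : ℝ≥0∞ := ENNReal.ofReal (‖f 0‖ + 1) ^ (2 : ℝ) with hC
      have hCt : C ≠ ∞ := ENNReal.rpow_ne_top_of_nonneg (by norm_num) ENNReal.ofReal_ne_top
      calc ∫⁻ z in ball 0 ε ∩ S, ‖f z‖ₑ ^ (2 : ℝ) / ‖θ z‖ₑ ^ (2 / (m : ℝ))
          ≤ ∫⁻ z in ball 0 ε ∩ S, C * (‖θ z‖ₑ ^ (2 / (m : ℝ)))⁻¹ := by
            apply setLIntegral_mono' (measurableSet_ball.inter hSo.measurableSet)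
            intro z hz
            rw [div_eq_mul_inv]
            gcongr
            apply ENNReal.rpow_le_rpow _ (by norm_num)
            rw [← ofReal_norm]
            apply ENNReal.ofReal_le_ofReal
            have h1 := hb hz.1
            rw [dist_eq_norm] at h1
            have := norm_sub_norm_le (f z) (f 0)
            linarith
        _ ≤ ∫⁻ z in S, C * (‖θ z‖ₑ ^ (2 / (m : ℝ)))⁻¹ := lintegral_mono_set inter_subset_right
        _ = C * ∫⁻ z in S, (‖θ z‖ₑ ^ (2 / (m : ℝ)))⁻¹ := lintegral_const_mul' _ _ hCt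
        _ = C * ∫⁻ p in ball (0 : ℂ) δ ×ˢ ball (0 : ℂ) ρ, (‖F p‖ₑ ^ (2 / (m : ℝ)))⁻¹ := by
            rw [← lint_transfer]
            simp only [hFθ, hS]
        _ < ∞ := ENNReal.mul_lt_top hCt.lt_top hfin
  · have h0 : (![1 / 2, 0] : Fin 2 → ℂ) ∈ cosupport θ m := by
      intro hcon
      have h1 : (fun _ => (1 : ℂ)) ∈ multiplierIdealAt θ m ![1 / 2, 0] := by
        rw [hcon]
        exact analyticAt_const
      obtain ⟨-, U, hU, hfin⟩ := h1
      obtain ⟨ε, hε, hεU⟩ := Metric.mem_nhds_iff.mp hU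
      have hr : 0 < min ε 1 := by positivity
      have h2 := hinf (1 / 2) (min ε 1) hr (min_le_right _ _)
      rw [← lint_transfer] at h2
      have h3 : {x : Fin 2 → ℂ | (x 0, x 1) ∈ ball (1 / 2 : ℂ) (min ε 1) ×ˢ
          ball (0 : ℂ) (min ε 1)} ⊆ U := by
        intro x hx
        apply hεU
        rw [mem_ball, dist_pi_lt_iff hε]
        intro i
        fin_cases i
        · exact lt_of_lt_of_le hx.1 (min_le_left _ _)
        · exact lt_of_lt_of_le hx.2 (min_le_left _ _)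
      have h4 := lintegral_mono_set (μ := volume) h3
        (f := fun x : Fin 2 → ℂ => (‖F (x 0, x 1)‖ₑ ^ (2 / (m : ℝ)))⁻¹)
      rw [h2, top_le_iff] at h4
      simp only [enorm_one, ENNReal.one_rpow, one_div, hFθ] at hfin
      exact hfin.ne h4
    rw [heq] at h0
    obtain ⟨w, hw, l, hl, hx⟩ := h0
    rw [Submodule.mem_bot] at hw
    rw [hw, zero_add] at hx
    obtain ⟨p, q, r, s, h0, -⟩ := (mem_lattice l).mp hl
    rw [← hx] at h0
    have e8 := congrArg Complex.re h0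
    simp at e8
    have e9 : (2 * p : ℝ) = 1 := by linarith
    have e10 : 2 * p = 1 := by exact_mod_cast e9
    omega

/-- The basic theta function of the square lattice. -/
noncomputable def th (u : ℂ) : ℂ := Complex.exp (Real.pi * u ^ 2 / 2) * jacobiTheta₂ u I

theorem th_diff : Differentiable ℂ th := by
  intro u
  have := differentiableAt_jacobiTheta₂_fst u (τ := I) (by simp)
  unfold th
  fun_prop

theorem th_zero : th 0 ≠ 0 := by
  unfold th
  apply mul_ne_zero (Complex.exp_ne_zero _)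
  rw [← jacobiTheta_eq_jacobiTheta₂]
  intro h0
  have h := norm_jacobiTheta_sub_one_le (τ := I) (by simp)
  rw [h0] at h
  simp only [zero_sub, norm_neg, norm_one, I_im, mul_one] at h
  have h1 : Real.exp (-Real.pi) < 1 / 3 := by
    rw [Real.exp_neg, inv_lt_comm₀ (Real.exp_pos _) (by norm_num)]
    have := Real.add_one_le_exp Real.pi
    have := Real.pi_gt_three
    norm_num
    linarith
  have h2 := Real.exp_pos (-Real.pi)
  rw [div_mul_eq_mul_div, le_div_iff₀ (by linarith)] at h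
  linarith

def GoodShift (l : ℂ) : Prop := ∃ χ : ℂ, ‖χ‖ = 1 ∧ ∀ u, th (u + l) =
  χ * Complex.exp (Real.pi * (u * (starRingEnd ℂ) l) +
    Real.pi / 2 * (l * (starRingEnd ℂ) l)) * th u

theorem good_zero : GoodShift 0 := ⟨1, by simp, fun u => by simp⟩

theorem good_add {a b : ℂ} (ha : GoodShift a) (hb : GoodShift b) : GoodShift (a + b) := by
  obtain ⟨χ, hχ, h⟩ := ha
  obtain ⟨χ', hχ', h'⟩ := hb
  refine ⟨χ * χ' * Complex.exp (Real.pi / 2 * (a * (starRingEnd ℂ) b - b * (starRingEnd ℂ) a)),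
    ?_, fun u => ?_⟩
  · rw [norm_mul, norm_mul, hχ, hχ', Complex.norm_exp]
    simp
    ring_nf
  · rw [← add_assoc, h', h]
    have : Complex.exp (Real.pi * ((u + a) * (starRingEnd ℂ) b) +
        Real.pi / 2 * (b * (starRingEnd ℂ) b)) * Complex.exp (Real.pi * (u * (starRingEnd ℂ) a) +
        Real.pi / 2 * (a * (starRingEnd ℂ) a)) =
        Complex.exp (Real.pi / 2 * (a * (starRingEnd ℂ) b - b * (starRingEnd ℂ) a)) *
        Complex.exp (Real.pi * (u * (starRingEnd ℂ) (a + b)) +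
          Real.pi / 2 * ((a + b) * (starRingEnd ℂ) (a + b))) := by
      rw [← Complex.exp_add, ← Complex.exp_add, map_add]
      congr 1
      ring
    linear_combination χ * χ' * th u * this

theorem good_neg {a : ℂ} (ha : GoodShift a) : GoodShift (-a) := by
  obtain ⟨χ, hχ, h⟩ := ha
  have hχ0 : χ ≠ 0 := by
    intro e; rw [e] at hχ; simp at hχ
  refine ⟨χ⁻¹, by rw [norm_inv, hχ, inv_one], fun u => ?_⟩
  have h1 := h (u + -a)
  rw [show u + -a + a = u by ring] at h1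
  rw [h1]
  have : Complex.exp (Real.pi * (u * (starRingEnd ℂ) (-a)) +
      Real.pi / 2 * (-a * (starRingEnd ℂ) (-a))) *
      Complex.exp (Real.pi * ((u + -a) * (starRingEnd ℂ) a) +
      Real.pi / 2 * (a * (starRingEnd ℂ) a)) = 1 := by
    rw [← Complex.exp_add, map_neg, ← Complex.exp_zero]
    congr 1
    ring
  have h2 : χ⁻¹ * χ = 1 := inv_mul_cancel₀ hχ0
  linear_combination (-th (u + -a)) * this * (χ⁻¹ * χ) - th (u + -a) * h2

theorem good_one : GoodShift 1 := by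
  refine ⟨1, by simp, fun u => ?_⟩
  unfold th
  rw [jacobiTheta₂_add_left, one_mul, ← mul_assoc, ← Complex.exp_add]
  congr 2
  simp
  ring

theorem good_I : GoodShift I := by
  refine ⟨1, by simp, fun u => ?_⟩
  unfold th
  rw [jacobiTheta₂_add_left', one_mul, ← mul_assoc, ← mul_assoc, ← Complex.exp_add,
    ← Complex.exp_add]
  congr 2
  simp
  ring_nf
  simp
  ring

def goodSub : AddSubgroup ℂ where
  carrier := {l | GoodShift l}
  zero_mem' := good_zero
  add_mem' := good_add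
  neg_mem' := good_neg

theorem good_int (p q : ℤ) : GoodShift (p + q * I) := by
  have h1 : (1 : ℂ) ∈ goodSub := good_one
  have h2 : I ∈ goodSub := good_I
  have := goodSub.add_mem (goodSub.zsmul_mem h1 p) (goodSub.zsmul_mem h2 q)
  have h3 : (p + q * I : ℂ) ∈ goodSub := by simpa using this
  exact h3

theorem exists_divisor : ∃ θ m, IsEffectiveQDivisorOfClass bas HH θ m := by
  refine ⟨fun x => th (x 0 + x 1) * th (x 0) * th (x 1) ^ 1999999, 1000, by norm_num, ?_, ?_, ?_⟩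
  · intro h
    have := congrFun h 0
    simp [th_zero] at this
  · have := th_diff
    fun_prop
  · intro l hl
    obtain ⟨p, q, r, s, h0, h1⟩ := (mem_lattice l).mp hl
    have g0 : GoodShift (l 0) := h0 ▸ good_int p q
    have g1 : GoodShift (l 1) := h1 ▸ good_int r s
    obtain ⟨χ₂, hχ₂, e2⟩ := good_add g0 g1
    obtain ⟨χ₀, hχ₀, e0⟩ := g0
    obtain ⟨χ₁, hχ₁, e1⟩ := g1
    refine ⟨χ₂ * χ₀ * χ₁ ^ 1999999, by simp [hχ₀, hχ₁, hχ₂], fun z => ?_⟩
    simp only [Pi.add_apply]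
    rw [show z 0 + l 0 + (z 1 + l 1) = (z 0 + z 1) + (l 0 + l 1) by ring, e2, e0, e1,
      mul_pow, mul_pow, ← Complex.exp_nat_mul]
    have : Complex.exp (Real.pi * herm (((1000 : ℕ) : ℂ) • HH) z l +
        Real.pi / 2 * herm (((1000 : ℕ) : ℂ) • HH) l l) =
        Complex.exp (Real.pi * ((z 0 + z 1) * (starRingEnd ℂ) (l 0 + l 1)) +
          Real.pi / 2 * ((l 0 + l 1) * (starRingEnd ℂ) (l 0 + l 1))) *
        Complex.exp (Real.pi * (z 0 * (starRingEnd ℂ) (l 0)) +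
          Real.pi / 2 * (l 0 * (starRingEnd ℂ) (l 0))) *
        Complex.exp ((1999999 : ℕ) * (Real.pi * (z 1 * (starRingEnd ℂ) (l 1)) +
          Real.pi / 2 * (l 1 * (starRingEnd ℂ) (l 1)))) := by
      rw [← Complex.exp_add, ← Complex.exp_add, herm_smul, herm_smul, herm_HH, herm_HH, map_add]
      congr 1
      push_cast
      ring
    rw [this]
    generalize χ₁ ^ 1999999 = a
    generalize th (z 1) ^ 1999999 = b
    ring

end Pool.Agent.MP_c52a38_ag

end

-- part MP_c52a38_ag.Int.Ex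
section

/-! The threefold: the index two sublattice of the Gaussian lattice, with `diag (1, 1, 2 j + 1)`. -/

namespace Pool.Agent.MP_c52a38_ag.Int

open Complex Matrix
open scoped ComplexOrder ComplexConjugate

noncomputable def vec3 : Fin 6 → E3 :=
  ![![1 + I, 0, 0], ![-1 + I, 0, 0], ![1, 1, 0], ![I, I, 0], ![1, 0, 1], ![I, 0, I]]

theorem vec3_li : LinearIndependent ℝ vec3 := by
  rw [Fintype.linearIndependent_iff]
  intro c hc i
  have h0 := congrFun hc 0
  have h1 := congrFun hc 1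
  have h2 := congrFun hc 2
  simp [vec3, Fin.sum_univ_six, Complex.ext_iff] at h0 h1 h2
  obtain ⟨a0, b0⟩ := h0
  obtain ⟨a1, b1⟩ := h1
  obtain ⟨a2, b2⟩ := h2
  have e0 : c 0 = 0 := by linarith
  have e1 : c 1 = 0 := by linarith
  fin_cases i <;> simp [e0, e1, a1, b1, a2, b2]

theorem vec3_span : ⊤ ≤ Submodule.span ℝ (Set.range vec3) := by
  intro x _
  rw [Submodule.mem_span_range_iff_exists_fun]
  refine ⟨![((x 0).re - (x 1).re - (x 2).re + ((x 0).im - (x 1).im - (x 2).im)) / 2,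
    (((x 0).im - (x 1).im - (x 2).im) - ((x 0).re - (x 1).re - (x 2).re)) / 2,
    (x 1).re, (x 1).im, (x 2).re, (x 2).im], ?_⟩
  ext i
  fin_cases i
  · apply Complex.ext <;> simp [vec3, Fin.sum_univ_six] <;> ring
  · apply Complex.ext <;> simp [vec3, Fin.sum_univ_six]
  · apply Complex.ext <;> simp [vec3, Fin.sum_univ_six]

noncomputable def bas3 : Module.Basis (Fin (2 * 3)) ℝ (Fin 3 → ℂ) :=
  Module.Basis.mk (ι := Fin 6) vec3_li vec3_span

theorem ex_bas3_eq : ⇑bas3 = vec3 := Module.Basis.coe_mk vec3_li vec3_span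

noncomputable def H3 (j : ℕ) : Matrix (Fin 3) (Fin 3) ℂ := !![1, 0, 0; 0, 1, 0; 0, 0, 2 * j + 1]

theorem mem_lat (x : E3) : x ∈ lattice bas3 ↔ ∃ a b c : ℤ × ℤ,
    Even (a.1 + a.2 + b.1 + b.2 + c.1 + c.2) ∧ x 0 = gi a ∧ x 1 = gi b ∧ x 2 = gi c := by
  unfold lattice
  rw [SetLike.mem_coe, ex_bas3_eq, Submodule.mem_span_range_iff_exists_fun]
  constructor
  · rintro ⟨c, rfl⟩
    refine ⟨(c 0 - c 1 + c 2 + c 4, c 0 + c 1 + c 3 + c 5), (c 2, c 3), (c 4, c 5),
      ⟨c 0 + c 2 + c 3 + c 4 + c 5, by ring⟩, ?_, ?_, ?_⟩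
    · apply Complex.ext <;> simp [vec3, gi, Fin.sum_univ_six] <;> ring
    · apply Complex.ext <;> simp [vec3, gi, Fin.sum_univ_six]
    · apply Complex.ext <;> simp [vec3, gi, Fin.sum_univ_six]
  · rintro ⟨a, b, c, ⟨r, hr⟩, h0, h1, h2⟩
    refine ⟨![r - b.1 - b.2 - c.1 - c.2, r - a.1 - b.2 - c.2, b.1, b.2, c.1, c.2], ?_⟩
    have hr' : (a.1 : ℝ) + a.2 + b.1 + b.2 + c.1 + c.2 = r + r := by exact_mod_cast hr
    ext i
    fin_cases i
    · apply Complex.ext <;> simp [vec3, gi, Fin.sum_univ_six, h0] <;> linarith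
    · apply Complex.ext <;> simp [vec3, gi, Fin.sum_univ_six, h1]
    · apply Complex.ext <;> simp [vec3, gi, Fin.sum_univ_six, h2]

theorem herm_H3 (j : ℕ) (z w : E3) : herm (H3 j) z w =
    conj (w 0) * z 0 + conj (w 1) * z 1 + (2 * j + 1) * (conj (w 2) * z 2) := by
  simp [herm, H3, dotProduct, Matrix.mulVec, Fin.sum_univ_three]
  ring

theorem herm_smul3 (m : ℂ) (H : Matrix (Fin 3) (Fin 3) ℂ) (z w : E3) :
    herm (m • H) z w = m * herm H z w := by
  unfold herm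
  rw [Matrix.smul_mulVec, dotProduct_smul, smul_eq_mul]

theorem integral3 (j : ℕ) : ∀ l ∈ lattice bas3, ∀ l' ∈ lattice bas3,
    ∃ n : ℤ, (herm (H3 j) l l').im = n := by
  intro l hl l' hl'
  obtain ⟨a, b, c, -, h0, h1, h2⟩ := (mem_lat l).mp hl
  obtain ⟨a', b', c', -, h0', h1', h2'⟩ := (mem_lat l').mp hl'
  refine ⟨a'.1 * a.2 - a'.2 * a.1 + (b'.1 * b.2 - b'.2 * b.1) +
    (2 * j + 1) * (c'.1 * c.2 - c'.2 * c.1), ?_⟩
  rw [herm_H3, h0, h1, h2, h0', h1', h2']
  simp [gi]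
  ring

theorem ex_herm_self (j : ℕ) (x : E3) : herm (H3 j) x x =
    ((normSq (x 0) + normSq (x 1) + (2 * j + 1) * normSq (x 2) : ℝ) : ℂ) := by
  rw [herm_H3]
  push_cast
  simp only [Complex.normSq_eq_conj_mul_self]

theorem ex_eq_zero {j : ℕ} {x : E3}
    (h : normSq (x 0) + normSq (x 1) + (2 * j + 1) * normSq (x 2) ≤ 0) : x = 0 := by
  have h0 := normSq_nonneg (x 0)
  have h1 := normSq_nonneg (x 1)
  have h2 := normSq_nonneg (x 2)
  have h3 : 0 ≤ (j : ℝ) * normSq (x 2) := by positivity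
  ext i
  fin_cases i
  · exact normSq_eq_zero.mp (le_antisymm (show normSq (x 0) ≤ 0 by linarith) h0)
  · exact normSq_eq_zero.mp (le_antisymm (show normSq (x 1) ≤ 0 by linarith) h1)
  · exact normSq_eq_zero.mp (le_antisymm (show normSq (x 2) ≤ 0 by linarith) h2)

theorem ex_posDef (j : ℕ) : (H3 j).PosDef := by
  apply Matrix.PosDef.of_dotProduct_mulVec_pos
  · ext i k
    fin_cases i <;> fin_cases k <;> simp [H3, Matrix.conjTranspose_apply]
  · intro x hx
    have h := ex_herm_self j x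
    unfold herm at h
    rw [h]
    exact Complex.zero_lt_real.mpr (lt_of_not_ge fun hc => hx (ex_eq_zero hc))

theorem ample3 (j : ℕ) : IsAmpleQClass bas3 (H3 j) := by
  refine ⟨ex_posDef j, fun l hl l' hl' => ?_⟩
  obtain ⟨n, hn⟩ := integral3 j l hl l' hl'
  exact ⟨n, by rw [hn, Rat.cast_intCast]⟩

def exM (k : ℝ) : Matrix (Fin 6) (Fin 6) ℝ :=
  !![0, -2, 1, -1, 1, -1; 2, 0, 1, 1, 1, 1; -1, -1, 0, -2, 0, -1; 1, -1, 2, 0, 1, 0;
    -1, -1, 0, -1, 0, -1 - k; 1, -1, 1, 0, 1 + k, 0]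

def exE : Matrix (Fin 6) (Fin 6) ℝ :=
  !![1, 1, 0, 0, 0, 0; 0, 1, 0, 0, 0, 0; 0, 0, 1, 1, 0, 0; 0, 0, 0, 1, 0, 0;
    0, 0, 0, 0, 1, 1; 0, 0, 0, 0, 0, 1]

noncomputable def exL : Matrix (Fin 6) (Fin 6) ℝ :=
  !![1, 0, 0, 0, 0, 0; 1, 1, 0, 0, 0, 0; 0, -1, 1, 0, 0, 0; 1 / 2, 0, 1, 1, 0, 0;
    0, -1, 0, 0, 1, 0; 1 / 2, 0, 0, 0, 1, 1]

def exU (k : ℝ) : Matrix (Fin 6) (Fin 6) ℝ :=
  !![2, -2, 2, 0, 2, 0; 0, 2, -1, 1, -1, 1; 0, 0, 1, -1, 0, 0; 0, 0, 0, 1, 0, 0;
    0, 0, 0, 0, k, -k; 0, 0, 0, 0, 0, k]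

theorem ex_lu (k : ℝ) : exE * exM k = exL * exU k := by
  ext i j
  fin_cases i <;> fin_cases j <;>
    simp [exE, exM, exL, exU, Matrix.mul_apply, Fin.sum_univ_six] <;> ring

theorem ex_detE : exE.det = 1 := by
  rw [Matrix.det_of_isUpperTriangular]
  · simp [exE, Fin.prod_univ_six]
  · intro i j h
    fin_cases i <;> fin_cases j <;> first | rfl | exact absurd h (by decide)

theorem ex_detL : exL.det = 1 := by
  rw [Matrix.det_of_isLowerTriangular]
  · simp [exL, Fin.prod_univ_six]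
  · intro i j h
    fin_cases i <;> fin_cases j <;> first | rfl | exact absurd h (by decide)

theorem ex_detU (k : ℝ) : (exU k).det = (2 * k) ^ 2 := by
  rw [Matrix.det_of_isUpperTriangular]
  · simp [exU, Fin.prod_univ_six]
    ring
  · intro i j h
    fin_cases i <;> fin_cases j <;> first | rfl | exact absurd h (by decide)

theorem ex_detM (k : ℝ) : (exM k).det = (2 * k) ^ 2 := by
  have h := congrArg Matrix.det (ex_lu k)
  rwa [Matrix.det_mul, Matrix.det_mul, ex_detE, ex_detL, ex_detU, one_mul, one_mul] at h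

theorem ex_gram (j : ℕ) : (Matrix.of fun i k => (herm (H3 j) (vec3 i) (vec3 k)).im) =
    exM (2 * j + 1) := by
  ext i k
  rw [Matrix.of_apply, herm_H3]
  fin_cases i <;> fin_cases k <;> simp [vec3, exM] <;> ring

/-- The matrix of `Im H` is `Aᵀ * J * A`, with `A` the real matrix of the basis (determinant
`± 2`, block triangular) and `J` block diagonal with determinant `(2 j + 1)^2`; or compute the
`6 × 6` determinant directly. -/
theorem vol3 (j : ℕ) : selfInter bas3 (H3 j) = 12 * (2 * j + 1) := by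
  have hd : (Matrix.of fun i k => (herm (H3 j) (bas3 i) (bas3 k)).im).det =
      (2 * (2 * (j : ℝ) + 1)) ^ 2 := by
    rw [ex_bas3_eq, ← ex_detM, ← ex_gram]
  unfold selfInter
  rw [hd, Real.sqrt_sq (by positivity)]
  norm_num [Nat.factorial]
  ring

theorem ex_conj (j : ℕ) (z w : E3) (h : herm (H3 j) z w = 0) : herm (H3 j) w z = 0 := by
  have h1 := congrArg conj h
  rw [herm_H3] at h1 ⊢
  simp only [map_add, map_mul, Complex.conj_conj, map_zero, map_ofNat, map_natCast,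
    map_one] at h1
  rw [← h1]
  ring

theorem ex_even (j : ℕ) {l : E3} (hl : l ∈ lattice bas3) :
    ∃ n : ℤ, normSq (l 0) + normSq (l 1) + (2 * j + 1) * normSq (l 2) = 2 * n := by
  obtain ⟨a, b, c, ⟨r, hr⟩, h0, h1, h2⟩ := (mem_lat l).mp hl
  obtain ⟨p1, e1⟩ := Int.even_mul_pred_self a.1
  obtain ⟨p2, e2⟩ := Int.even_mul_pred_self a.2
  obtain ⟨p3, e3⟩ := Int.even_mul_pred_self b.1
  obtain ⟨p4, e4⟩ := Int.even_mul_pred_self b.2
  obtain ⟨p5, e5⟩ := Int.even_mul_pred_self c.1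
  obtain ⟨p6, e6⟩ := Int.even_mul_pred_self c.2
  have key : a.1 * a.1 + a.2 * a.2 + (b.1 * b.1 + b.2 * b.2) +
      (2 * j + 1) * (c.1 * c.1 + c.2 * c.2) =
      2 * (p1 + p2 + p3 + p4 + p5 + p6 + r + j * (c.1 * c.1 + c.2 * c.2)) := by
    linear_combination e1 + e2 + e3 + e4 + e5 + e6 + hr
  refine ⟨p1 + p2 + p3 + p4 + p5 + p6 + r + j * (c.1 * c.1 + c.2 * c.2), ?_⟩
  rw [h0, h1, h2]
  simp only [gi, normSq_apply, add_re, intCast_re, mul_re, I_re, mul_zero, intCast_im, I_im,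
    mul_one, sub_self, add_zero, add_im, mul_im, zero_add]
  exact_mod_cast key

theorem ex_min (j : ℕ) {u l₁ l₂ : E3} (h1 : l₁ ∈ lattice bas3) (h2 : l₂ ∈ lattice bas3)
    (hu : u = l₁ + l₂) (ho : herm (H3 j) l₁ l₂ = 0) (hn : herm (H3 j) u u = 2) :
    u = l₁ ∨ u = l₂ := by
  have ho' := ex_conj j _ _ ho
  have hs : herm (H3 j) l₁ l₁ + herm (H3 j) l₂ l₂ = 2 := by
    rw [← hn, hu]
    simp only [herm_H3, Pi.add_apply, map_add] at ho ho' ⊢
    linear_combination -ho - ho'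
  obtain ⟨n₁, e1⟩ := ex_even j h1
  obtain ⟨n₂, e2⟩ := ex_even j h2
  rw [ex_herm_self, ex_herm_self, e1, e2] at hs
  have hs' : 2 * n₁ + 2 * n₂ = 2 := by exact_mod_cast hs
  by_cases hc : n₁ ≤ 0
  · have hc' : (n₁ : ℝ) ≤ 0 := by exact_mod_cast hc
    have : l₁ = 0 := ex_eq_zero (j := j) (by linarith)
    right
    rw [hu, this, zero_add]
  · have hc2 : n₂ ≤ 0 := by omega
    have hc' : (n₂ : ℝ) ≤ 0 := by exact_mod_cast hc2
    have : l₂ = 0 := ex_eq_zero (j := j) (by linarith)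
    left
    rw [hu, this, add_zero]

theorem ex_aux (j : ℕ) (W₁ W₂ : Submodule ℂ E3) (h2 : W₂ ≠ ⊥) (u1 : vec3 0 ∈ W₁)
    (u2 : vec3 2 ∈ W₁)
    (hl : ∃ l₁ ∈ W₁, ∃ l₂ ∈ lattice bas3, l₂ ∈ W₂ ∧ vec3 4 = l₁ + l₂)
    (ho : ∀ w₁ ∈ W₁, ∀ w₂ ∈ W₂, herm (H3 j) w₂ w₁ = 0) : False := by
  have hI : (1 : ℂ) - I ≠ 0 := fun h => by simpa using congrArg Complex.re h
  have hW : ∀ w ∈ W₂, w 0 = 0 ∧ w 1 = 0 := fun w hw => by
    have e1 := ho _ u1 _ hw
    have e2 := ho _ u2 _ hw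
    rw [herm_H3] at e1 e2
    have e3 : (1 - I) * w 0 = 0 := by
      rw [← e1]
      simp [vec3, sub_eq_add_neg]
    have e4 : w 0 + w 1 = 0 := by
      rw [← e2]
      simp [vec3]
    have e5 : w 0 = 0 := (mul_eq_zero.mp e3).resolve_left hI
    exact ⟨e5, by rwa [e5, zero_add] at e4⟩
  obtain ⟨l₁, hw₁, l₂, hl₂, hw₂, hsum⟩ := hl
  obtain ⟨w, hw, hw0⟩ := (Submodule.ne_bot_iff W₂).mp h2
  have hw2 : w 2 ≠ 0 := fun h => hw0 (by
    ext i
    fin_cases i
    · exact (hW w hw).1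
    · exact (hW w hw).2
    · exact h)
  have e3 := ho _ hw₁ _ hw
  rw [herm_H3, (hW w hw).1, (hW w hw).2, mul_zero, mul_zero, zero_add, zero_add] at e3
  have hk : (2 * (j : ℂ) + 1) ≠ 0 := by exact_mod_cast (by omega : 2 * j + 1 ≠ 0)
  have e4 : l₁ 2 = 0 := by
    simpa using (mul_eq_zero.mp ((mul_eq_zero.mp e3).resolve_left hk)).resolve_right hw2
  have e5 : l₂ 2 = 1 := by
    have := congrFun hsum 2
    rw [Pi.add_apply, e4, zero_add] at this
    rw [← this]
    simp [vec3]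
  obtain ⟨a, b, c, ⟨r, hr⟩, h0, h1, h2⟩ := (mem_lat l₂).mp hl₂
  rw [(hW _ hw₂).1] at h0
  rw [(hW _ hw₂).2] at h1
  rw [e5] at h2
  simp only [gi, Complex.ext_iff, add_re, intCast_re, mul_re, I_re, mul_zero, intCast_im, I_im,
    mul_one, sub_self, add_zero, add_im, mul_im, zero_add, zero_re, zero_im, one_re,
    one_im] at h0 h1 h2
  have a1 : 0 = a.1 := by exact_mod_cast h0.1
  have a2 : 0 = a.2 := by exact_mod_cast h0.2
  have b1 : 0 = b.1 := by exact_mod_cast h1.1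
  have b2 : 0 = b.2 := by exact_mod_cast h1.2
  have c1 : 1 = c.1 := by exact_mod_cast h2.1
  have c2 : 0 = c.2 := by exact_mod_cast h2.2
  omega

theorem ex_mem (i : Fin 6) : vec3 i ∈ lattice bas3 := by
  unfold lattice
  rw [SetLike.mem_coe, ex_bas3_eq]
  exact Submodule.subset_span ⟨i, rfl⟩

/-- All lattice norms are even nonnegative integers, so a vector of norm `2` that is a sum of two
orthogonal lattice vectors is one of them.  `u1 = (1 + I, 0, 0)` and `u2 = (1, 1, 0)` have norm `2`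
and are not orthogonal, so they lie in the same summand, say `W₁ ⊇ ℂ² × 0` (the statement is
symmetric in the two summands).  Then `W₂ ⊆ 0 × ℂ`, and in `u3 = (1, 0, 1) = l₁ + l₂` the vector
`l₂ = (0, 0, n)` has `n` with even coordinate sum, so `l₁ 2 = 1 - n ≠ 0`; hence `W₁ = ⊤` and
`W₂ = ⊥`. -/
theorem not_splits3 (j : ℕ) : ¬ Splits bas3 (H3 j) := by
  rintro ⟨W₁, W₂, h1, h2, -, -, -, hl, ho⟩
  have hm : ∀ u ∈ lattice bas3, herm (H3 j) u u = 2 → u ∈ W₁ ∨ u ∈ W₂ := fun u hu hn => by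
    obtain ⟨l₁, a, l₂, b, c, d, e⟩ := hl u hu
    rcases ex_min j a b e (ho _ c _ d) hn with h | h
    · exact Or.inl (h ▸ c)
    · exact Or.inr (h ▸ d)
  have n0 : herm (H3 j) (vec3 0) (vec3 0) = 2 := by
    rw [herm_H3]
    apply Complex.ext <;> simp [vec3] <;> norm_num
  have n2 : herm (H3 j) (vec3 2) (vec3 2) = 2 := by
    rw [herm_H3]
    apply Complex.ext <;> simp [vec3] <;> norm_num
  have n02 : herm (H3 j) (vec3 0) (vec3 2) ≠ 0 := fun h => by
    rw [herm_H3] at h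
    simpa [vec3] using congrArg Complex.re h
  obtain ⟨l₁, a, l₂, b, c, d, e⟩ := hl _ (ex_mem 4)
  rcases hm _ (ex_mem 0) n0 with p | p <;> rcases hm _ (ex_mem 2) n2 with q | q
  · exact ex_aux j W₁ W₂ h2 p q ⟨l₁, c, l₂, b, d, e⟩
      fun w₁ hw₁ w₂ hw₂ => ex_conj j _ _ (ho _ hw₁ _ hw₂)
  · exact n02 (ho _ p _ q)
  · exact n02 (ex_conj j _ _ (ho _ q _ p))
  · exact ex_aux j W₂ W₁ h1 p q ⟨l₂, d, l₁, a, c, by rw [e, add_comm]⟩
      fun w₁ hw₁ w₂ hw₂ => ho _ hw₂ _ hw₁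

/-- `th (x 0) * th (x 1) * th (x 2) ^ (2 j + 1)` with `m = 1` (see `exists_divisor`). -/
theorem exists_divisor3 (j : ℕ) : ∃ θ m, IsEffectiveQDivisorOfClass bas3 (H3 j) θ m := by
  refine ⟨fun x => th (x 0) * th (x 1) * th (x 2) ^ (2 * j + 1), 1, by norm_num, ?_, ?_, ?_⟩
  · intro h
    have := congrFun h 0
    simp [th_zero] at this
  · have := th_diff
    fun_prop
  · intro l hl
    obtain ⟨a, b, c, -, h0, h1, h2⟩ := (mem_lat l).mp hl
    have g0 : GoodShift (l 0) := h0 ▸ good_int a.1 a.2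
    have g1 : GoodShift (l 1) := h1 ▸ good_int b.1 b.2
    have g2 : GoodShift (l 2) := h2 ▸ good_int c.1 c.2
    obtain ⟨χ₀, hχ₀, e0⟩ := g0
    obtain ⟨χ₁, hχ₁, e1⟩ := g1
    obtain ⟨χ₂, hχ₂, e2⟩ := g2
    refine ⟨χ₀ * χ₁ * χ₂ ^ (2 * j + 1), by simp [hχ₀, hχ₁, hχ₂], fun z => ?_⟩
    simp only [Pi.add_apply]
    rw [e2, e0, e1, mul_pow, mul_pow, ← Complex.exp_nat_mul]
    have : Complex.exp (Real.pi * herm (((1 : ℕ) : ℂ) • H3 j) z l +
        Real.pi / 2 * herm (((1 : ℕ) : ℂ) • H3 j) l l) =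
        Complex.exp (Real.pi * (z 0 * conj (l 0)) + Real.pi / 2 * (l 0 * conj (l 0))) *
        Complex.exp (Real.pi * (z 1 * conj (l 1)) + Real.pi / 2 * (l 1 * conj (l 1))) *
        Complex.exp ((2 * j + 1 : ℕ) * (Real.pi * (z 2 * conj (l 2)) +
          Real.pi / 2 * (l 2 * conj (l 2)))) := by
      rw [← Complex.exp_add, ← Complex.exp_add, herm_smul3, herm_smul3, herm_H3, herm_H3]
      congr 1
      push_cast
      ring
    rw [this]
    generalize χ₂ ^ (2 * j + 1) = a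
    generalize th (z 2) ^ (2 * j + 1) = b
    ring

end Pool.Agent.MP_c52a38_ag.Int

end

-- part MP_c52a38_ag.Int.Theta
section

/-! From a theta function to regularised weights. -/

namespace Pool.Agent.MP_c52a38_ag.Int

open MeasureTheory Complex Metric Filter Topology Pool.Agent.MP_c0606f_ag.Klt
open scoped ENNReal ComplexConjugate

theorem thw_hq_nonneg (j : ℕ) (z : E3) : 0 ≤ hq (2 * j + 1) z := by
  unfold hq
  positivity

theorem thw_hq_cont (k : ℝ) : Continuous (hq k) := by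
  unfold hq
  fun_prop

theorem thw_exp (j m : ℕ) (z l : E3) :
    2 * (Real.pi * herm ((m : ℂ) • H3 j) z l + Real.pi / 2 * herm ((m : ℂ) • H3 j) l l).re =
      m * (Real.pi * hq (2 * j + 1) (z + l)) - m * (Real.pi * hq (2 * j + 1) z) := by
  rw [herm_smul3, herm_smul3, herm_H3, herm_H3]
  simp only [hq, Pi.add_apply, Complex.sq_norm, Complex.normSq_apply]
  simp
  ring

/-- The invariant norm `‖θ z‖^2 * exp (-m π hq z)` is periodic. -/
theorem theta_per {j m : ℕ} {θ : E3 → ℂ} (h : IsTheta bas3 ((m : ℂ) • H3 j) θ) {l : E3}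
    (hl : l ∈ lattice bas3) (z : E3) :
    ‖θ (z + l)‖ ^ 2 * Real.exp (-(m * (Real.pi * hq (2 * j + 1) (z + l)))) =
      ‖θ z‖ ^ 2 * Real.exp (-(m * (Real.pi * hq (2 * j + 1) z))) := by
  obtain ⟨χ, hχ, hz⟩ := h.2 l hl
  have e := thw_exp j m z l
  rw [hz z, norm_mul, norm_mul, hχ, one_mul, Complex.norm_exp, mul_pow, ← Real.exp_nat_mul,
    mul_comm (Real.exp _) (‖θ z‖ ^ 2), mul_assoc, ← Real.exp_add]
  congr 2
  push_cast
  linarith

theorem thw_round (w : ℂ) : ∃ a : ℤ × ℤ, Even a.1 ∧ Even a.2 ∧ ‖w - gi a‖ ≤ 2 := by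
  refine ⟨(2 * round (w.re / 2), 2 * round (w.im / 2)), even_two_mul _, even_two_mul _, ?_⟩
  have h1 := abs_le.1 (abs_sub_round (w.re / 2))
  have h2 := abs_le.1 (abs_sub_round (w.im / 2))
  refine (Complex.norm_le_abs_re_add_abs_im _).trans ?_
  have e1 : |(w - gi (2 * round (w.re / 2), 2 * round (w.im / 2))).re| ≤ 1 := by
    rw [abs_le]
    simp only [gi, sub_re, add_re, intCast_re, mul_re, I_re, intCast_im, I_im]
    push_cast
    constructor <;> linarith [h1.1, h1.2]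
  have e2 : |(w - gi (2 * round (w.re / 2), 2 * round (w.im / 2))).im| ≤ 1 := by
    rw [abs_le]
    simp only [gi, sub_im, add_im, intCast_re, mul_im, I_re, intCast_im, I_im]
    push_cast
    constructor <;> linarith [h2.1, h2.2]
  linarith

/-- Every point is congruent modulo `2 ℤ[i]^3` to a point of `closedBall 0 2`. -/
theorem theta_bdd {j m : ℕ} {θ : E3 → ℂ} (h : IsTheta bas3 ((m : ℂ) • H3 j) θ) :
    ∃ M : ℝ, 0 ≤ M ∧ ∀ z, ‖θ z‖ ^ 2 * Real.exp (-(m * (Real.pi * hq (2 * j + 1) z))) ≤ M := by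
  have hθ := h.1.continuous
  have hq' := thw_hq_cont (2 * j + 1)
  have hc : Continuous fun z => ‖θ z‖ ^ 2 * Real.exp (-(m * (Real.pi * hq (2 * j + 1) z))) := by
    fun_prop
  obtain ⟨M, hM⟩ := (isCompact_closedBall (0 : E3) 2).bddAbove_image hc.continuousOn
  refine ⟨max M 0, le_max_right _ _, fun z => le_trans ?_ (le_max_left _ _)⟩
  obtain ⟨a, a1, a2, ha⟩ := thw_round (z 0)
  obtain ⟨b, b1, b2, hb⟩ := thw_round (z 1)
  obtain ⟨c, c1, c2, hc'⟩ := thw_round (z 2)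
  have hl : (![gi a, gi b, gi c] : E3) ∈ lattice bas3 :=
    (mem_lat _).2 ⟨a, b, c, ((((a1.add a2).add b1).add b2).add c1).add c2, rfl, rfl, rfl⟩
  have hm : z - ![gi a, gi b, gi c] ∈ closedBall (0 : E3) 2 := by
    rw [mem_closedBall_zero_iff, pi_norm_le_iff_of_nonneg (by norm_num)]
    intro i
    fin_cases i
    · exact ha
    · exact hb
    · exact hc'
  have e := theta_per h hl (z - ![gi a, gi b, gi c])
  rw [sub_add_cancel] at e
  rw [e]
  exact hM ⟨_, hm, rfl⟩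

theorem thw_lam {p : P4} (hp : Ev p) : lam p ∈ lattice bas3 := by
  refine (mem_lat _).2 ⟨p.1, p.2, (0, 0), ?_, rfl, rfl, ?_⟩
  · simpa [Ev] using hp
  · simp [lam, pt, gi]

theorem thw_gi_small {a : ℤ × ℤ} (h : ‖gi a‖ ≤ 1 / 2) : gi a = 0 := by
  have h1 := (Complex.abs_re_le_norm (gi a)).trans h
  have h2 := (Complex.abs_im_le_norm (gi a)).trans h
  simp only [gi, add_re, intCast_re, mul_re, I_re, intCast_im, I_im, add_im, mul_im, mul_zero,
    sub_self, add_zero, mul_one, zero_add] at h1 h2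
  have k1 : |a.1| < 1 := by
    have : (|a.1| : ℝ) < 1 := by linarith
    exact_mod_cast this
  have k2 : |a.2| < 1 := by
    have : (|a.2| : ℝ) < 1 := by linarith
    exact_mod_cast this
  simp [gi, Int.abs_lt_one_iff.1 k1, Int.abs_lt_one_iff.1 k2]

theorem thw_lat_small {x : E3} (hx : x ∈ lattice bas3) (h : ‖x‖ ≤ 1 / 2) : x = 0 := by
  obtain ⟨a, b, c, -, ha, hb, hc⟩ := (mem_lat x).1 hx
  funext i
  have hi := (norm_le_pi_norm x i).trans h
  fin_cases i
  · exact ha.trans (thw_gi_small (ha ▸ hi))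
  · exact hb.trans (thw_gi_small (hb ▸ hi))
  · exact hc.trans (thw_gi_small (hc ▸ hi))

theorem thw_mem_pre (x : E3) : x ∈ subtorusPreimage bas3 ⊥ ↔ x ∈ lattice bas3 := by
  constructor
  · rintro ⟨w, hw, l, hl, hx⟩
    rw [Submodule.mem_bot] at hw
    rwa [hx, hw, zero_add]
  · exact fun hx => ⟨0, Submodule.zero_mem _, x, hx, (zero_add x).symm⟩

/-- the singular weight is not integrable near a point of the cosupport -/
theorem thw_inf {θ : E3 → ℂ} {m : ℕ} {x : E3} (hx : x ∈ cosupport θ m) {ρ : ℝ} (hρ : 0 < ρ) :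
    ∫⁻ z in ball x ρ, (‖θ z‖ₑ ^ (2 / (m : ℝ)))⁻¹ = ⊤ := by
  by_contra hfin
  apply hx
  ext f
  refine ⟨fun hf => hf.1, fun hf => ⟨hf, ?_⟩⟩
  have hc : ContinuousAt f x := AnalyticAt.continuousAt hf
  obtain ⟨ε, hε, hb⟩ := Metric.continuousAt_iff.mp hc 1 one_pos
  refine ⟨ball x ε ∩ ball x ρ, inter_mem (ball_mem_nhds _ hε) (ball_mem_nhds _ hρ), ?_⟩
  have hCt : ENNReal.ofReal (‖f x‖ + 1) ^ (2 : ℝ) ≠ ∞ :=
    ENNReal.rpow_ne_top_of_nonneg (by norm_num) ENNReal.ofReal_ne_top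
  calc ∫⁻ z in ball x ε ∩ ball x ρ, ‖f z‖ₑ ^ (2 : ℝ) / ‖θ z‖ₑ ^ (2 / (m : ℝ))
      ≤ ∫⁻ z in ball x ε ∩ ball x ρ,
          ENNReal.ofReal (‖f x‖ + 1) ^ (2 : ℝ) * (‖θ z‖ₑ ^ (2 / (m : ℝ)))⁻¹ := by
        apply setLIntegral_mono' (measurableSet_ball.inter measurableSet_ball)
        intro z hz
        rw [div_eq_mul_inv]
        gcongr
        rw [← ofReal_norm]
        apply ENNReal.ofReal_le_ofReal
        have h1 := hb hz.1
        rw [dist_eq_norm] at h1
        have := norm_sub_norm_le (f z) (f x)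
        linarith
    _ ≤ ∫⁻ z in ball x ρ,
          ENNReal.ofReal (‖f x‖ + 1) ^ (2 : ℝ) * (‖θ z‖ₑ ^ (2 / (m : ℝ)))⁻¹ :=
        lintegral_mono_set Set.inter_subset_right
    _ = ENNReal.ofReal (‖f x‖ + 1) ^ (2 : ℝ) *
          ∫⁻ z in ball x ρ, (‖θ z‖ₑ ^ (2 / (m : ℝ)))⁻¹ := lintegral_const_mul' _ _ hCt
    _ < ∞ := ENNReal.mul_lt_top hCt.lt_top (lt_top_iff_ne_top.2 hfin)

/-- the singular weight is integrable on a compact set that misses the cosupport -/
theorem thw_fin {θ : E3 → ℂ} {m : ℕ} {K : Set E3} (hK : IsCompact K)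
    (h : ∀ x ∈ K, x ∉ cosupport θ m) : ∫⁻ z in K, (‖θ z‖ₑ ^ (2 / (m : ℝ)))⁻¹ < ⊤ := by
  refine hK.induction_on (p := fun s => ∫⁻ z in s, (‖θ z‖ₑ ^ (2 / (m : ℝ)))⁻¹ < ⊤) ?_ ?_ ?_ ?_
  · simp
  · exact fun s t hst ht => (lintegral_mono_set hst).trans_lt ht
  · exact fun s t hs ht => (lintegral_union_le _ _ _).trans_lt (ENNReal.add_lt_top.2 ⟨hs, ht⟩)
  · intro x hx
    have h0 : multiplierIdealAt θ m x = {f | AnalyticAt ℂ f x} := by
      by_contra hne
      exact h x hx hne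
    have h1 : (fun _ => (1 : ℂ)) ∈ multiplierIdealAt θ m x := by
      rw [h0]
      exact analyticAt_const
    obtain ⟨-, U, hU, hfin⟩ := h1
    refine ⟨U, mem_nhdsWithin_of_mem_nhds hU, ?_⟩
    simpa only [enorm_one, ENNReal.one_rpow, one_div] using hfin

theorem thw_ofReal {m : ℕ} (c : ℝ) {s : ℝ} (hs : 0 < s) :
    ENNReal.ofReal (Real.exp (c - 1 / m * Real.log s)) =
      ENNReal.ofReal (Real.exp c) * (ENNReal.ofReal s ^ (1 / (m : ℝ)))⁻¹ := by
  rw [ENNReal.ofReal_rpow_of_pos hs, ← ENNReal.ofReal_inv_of_pos (Real.rpow_pos_of_pos hs _),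
    ← ENNReal.ofReal_mul (Real.exp_pos c).le, Real.rpow_def_of_pos hs, ← Real.exp_neg,
    ← Real.exp_add]
  congr 2
  ring

theorem thw_mono {m : ℕ} (c : ℝ) {s : ℝ} (hs : 0 ≤ s) :
    Monotone fun n : ℕ => c - 1 / m * Real.log (s + 1 / (n + 1)) := by
  intro a b hab
  have h1 : (1 : ℝ) / (b + 1) ≤ 1 / (a + 1) := Nat.one_div_le_one_div hab
  have h2 : Real.log (s + 1 / (b + 1)) ≤ Real.log (s + 1 / (a + 1)) :=
    Real.log_le_log (by positivity) (by linarith)
  have h3 : (0 : ℝ) ≤ 1 / m := by positivity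
  have h4 := mul_le_mul_of_nonneg_left h2 h3
  simp only
  linarith

theorem thw_sup {m : ℕ} (c : ℝ) (w : ℂ) :
    ⨆ n : ℕ, ENNReal.ofReal (Real.exp (c - 1 / m * Real.log (‖w‖ ^ 2 + 1 / (n + 1)))) =
      ENNReal.ofReal (Real.exp c) * (‖w‖ₑ ^ (2 / (m : ℝ)))⁻¹ := by
  have hmono : Monotone fun n : ℕ =>
      ENNReal.ofReal (Real.exp (c - 1 / m * Real.log (‖w‖ ^ 2 + 1 / (n + 1)))) :=
    fun a b hab => ENNReal.ofReal_le_ofReal
      (Real.exp_le_exp.2 (thw_mono (m := m) c (sq_nonneg ‖w‖) hab))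
  refine tendsto_nhds_unique (tendsto_atTop_iSup hmono) ?_
  have hc : Continuous fun s : ℝ =>
      ENNReal.ofReal (Real.exp c) * (ENNReal.ofReal s ^ (1 / (m : ℝ)))⁻¹ :=
    (ENNReal.continuous_const_mul ENNReal.ofReal_ne_top).comp
      (ENNReal.continuous_rpow_const.comp ENNReal.continuous_ofReal).inv
  have ht : Tendsto (fun n : ℕ => ‖w‖ ^ 2 + 1 / ((n : ℝ) + 1)) atTop (𝓝 (‖w‖ ^ 2 + 0)) :=
    tendsto_const_nhds.add tendsto_one_div_add_atTop_nhds_zero_nat
  have e : ‖w‖ₑ ^ (2 / (m : ℝ)) = ENNReal.ofReal (‖w‖ ^ 2 + 0) ^ (1 / (m : ℝ)) := by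
    rw [add_zero, ENNReal.ofReal_pow (norm_nonneg w), ofReal_norm, ← ENNReal.rpow_natCast,
      ← ENNReal.rpow_mul]
    congr 1
    push_cast
    ring
  rw [e]
  refine ((hc.tendsto _).comp ht).congr fun n => ?_
  exact (thw_ofReal c (by positivity)).symm

/-- the regularised weight written with the invariant norm -/
theorem thw_inv {m : ℕ} (hm : 0 < m) (t C : ℝ) {s ε : ℝ} (hs : 0 ≤ s) (hε : 0 < ε) :
    t + C - 1 / m * Real.log (s + ε) =
      C - 1 / m * Real.log (s * Real.exp (-(m * t)) + ε * Real.exp (-(m * t))) := by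
  have hm' : (m : ℝ) ≠ 0 := by exact_mod_cast hm.ne'
  rw [← add_mul, Real.log_mul (by positivity) (Real.exp_pos _).ne', Real.log_exp]
  field_simp
  ring

theorem thw_le {m : ℕ} (C : ℝ) {a b : ℝ} (ha : 0 < a) (hab : a ≤ b) :
    C - 1 / m * Real.log b ≤ C - 1 / m * Real.log a := by
  have h2 := Real.log_le_log ha hab
  have h3 : (0 : ℝ) ≤ 1 / m := by positivity
  have h4 := mul_le_mul_of_nonneg_left h2 h3
  linarith

theorem thw_levi_const (c : ℝ) (z ξ : E3) : (flat (Fin 3)).levi (fun _ => c) z ξ = 0 := by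
  have e : ∀ k, ((flat (Fin 3)).db k fun _ => (c : ℂ)) = fun _ => 0 :=
    fun k => funext (RD.db_const k _)
  simp [RD.levi, e, RD.dz_const]

/-- Let `k = 2 j + 1`, `C = log (M + 1) / m`,
`X n z = π hq k z + C - (1 / m) log (‖θ z‖^2 + 1 / (n + 1))`, and let `g z` be the supremum of
`exp (X n z)`, which equals `ofReal (exp (π hq k z + C)) * (‖θ z‖ₑ ^ (2 / m))⁻¹`. -/
theorem wt_of_theta {j m : ℕ} {θ : E3 → ℂ} (h : IsEffectiveQDivisorOfClass bas3 (H3 j) θ m)
    (hc : cosupport θ m = subtorusPreimage bas3 ⊥) : ∃ X g, Wt (2 * j + 1) X g := by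
  obtain ⟨hm, -, hθ⟩ := h
  obtain ⟨M, hM0, hM⟩ := theta_bdd hθ
  have hmR : (0 : ℝ) < m := by exact_mod_cast hm
  have hC : 0 ≤ 1 / (m : ℝ) * Real.log (M + 1) :=
    mul_nonneg (by positivity) (Real.log_nonneg (by linarith))
  have ht : ∀ z, 0 ≤ Real.pi * hq (2 * j + 1) z :=
    fun z => mul_nonneg Real.pi_pos.le (thw_hq_nonneg j z)
  have he : ∀ z, Real.exp (-(m * (Real.pi * hq (2 * j + 1) z))) ≤ 1 :=
    fun z => Real.exp_le_one_iff.2 (neg_nonpos.2 (mul_nonneg hmR.le (ht z)))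
  have hε : ∀ n : ℕ, (0 : ℝ) < 1 / (n + 1) := fun n => by positivity
  have hε1 : ∀ n : ℕ, (1 : ℝ) / (n + 1) ≤ 1 := fun n => by
    rw [div_le_one (by positivity)]
    linarith [Nat.cast_nonneg (α := ℝ) n]
  generalize hCd : 1 / (m : ℝ) * Real.log (M + 1) = C at hC
  have hol : ∀ _ : Unit, (flat (Fin 3)).Hol θ := fun _ => hol_of hθ.1
  have hlog : ∀ n : ℕ, (flat (Fin 3)).SmR fun z => Real.log (‖θ z‖ ^ 2 + 1 / (n + 1)) := by
    intro n
    simpa using RD.smR_log (F := fun _ : Unit => θ) hol (ε := 1 / (n + 1)) fun x => by positivity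
  have hlev : ∀ (n : ℕ) z ξ,
      0 ≤ (flat (Fin 3)).levi (fun z => Real.log (‖θ z‖ ^ 2 + 1 / (n + 1))) z ξ := by
    intro n z ξ
    simpa using RD.levi_log_nonneg (F := fun _ : Unit => θ) hol (hε n).le
      (fun x => by positivity) z ξ
  have hX : ∀ n : ℕ, (fun z => Real.pi * hq (2 * j + 1) z + C -
      1 / m * Real.log (‖θ z‖ ^ 2 + 1 / (n + 1))) = fun z => (Real.pi * hq (2 * j + 1) z + C) +
      -(1 / m) * Real.log (‖θ z‖ ^ 2 + 1 / (n + 1)) := fun n => funext fun z => by ring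
  have hs1 : (flat (Fin 3)).SmR fun z => Real.pi * hq (2 * j + 1) z :=
    (RD.SmR.const _).mul (smR_hq _)
  have hsm : ∀ n : ℕ, (flat (Fin 3)).SmR fun z => Real.pi * hq (2 * j + 1) z + C -
      1 / m * Real.log (‖θ z‖ ^ 2 + 1 / (n + 1)) := by
    intro n
    rw [hX]
    exact (hs1.add (RD.SmR.const C)).add ((RD.SmR.const _).mul (hlog n))
  refine ⟨fun n z => Real.pi * hq (2 * j + 1) z + C - 1 / m * Real.log (‖θ z‖ ^ 2 + 1 / (n + 1)),
    fun z => ⨆ n : ℕ, ENNReal.ofReal (Real.exp (Real.pi * hq (2 * j + 1) z + C -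
      1 / m * Real.log (‖θ z‖ ^ 2 + 1 / (n + 1)))), hsm, ?_, ?_, ?_, ?_, fun z => rfl, ?_, ?_,
    ?_, ?_⟩
  · intro n z
    rw [thw_inv hm _ _ (sq_nonneg _) (hε n)]
    have h1 : 1 / ((n : ℝ) + 1) * Real.exp (-(m * (Real.pi * hq (2 * j + 1) z))) ≤ 1 :=
      mul_le_one₀ (hε1 n) (Real.exp_pos _).le (he z)
    have h2 := thw_le (m := m) C (by positivity) (add_le_add (hM z) h1)
    rw [hCd, sub_self] at h2
    exact h2
  · intro n z ξ
    rw [hX, RD.levi_add (hs1.add (RD.SmR.const C)) ((RD.SmR.const _).mul (hlog n)),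
      RD.levi_add hs1 (RD.SmR.const C), RD.levi_const_mul (smR_hq _), levi_hq,
      RD.levi_const_mul (hlog n), thw_levi_const]
    have h1 := mul_nonneg (show (0 : ℝ) ≤ 1 / m by positivity) (hlev n z ξ)
    linarith
  · exact Measurable.iSup fun n =>
      (ENNReal.continuous_ofReal.comp (Real.continuous_exp.comp (hsm n).continuous)).measurable
  · exact fun z => thw_mono _ (sq_nonneg _)
  · intro n p z hp
    obtain ⟨n', hn'⟩ := exists_nat_one_div_lt (K := ℝ) (ε := 1 / (n + 1) *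
      Real.exp (-(m * (Real.pi * hq (2 * j + 1) (z + lam p))))) (by positivity)
    refine le_iSup_of_le n' (ENNReal.ofReal_le_ofReal (Real.exp_le_exp.2 ?_))
    rw [thw_inv hm _ _ (sq_nonneg _) (hε n), thw_inv hm _ _ (sq_nonneg _) (hε n'),
      theta_per hθ (thw_lam hp)]
    refine thw_le C (by positivity) (add_le_add le_rfl ?_)
    exact (mul_le_of_le_one_right (hε n').le (he z)).trans hn'.le
  · intro n p z hp
    rw [thw_inv hm (Real.pi * hq (2 * j + 1) (z + lam p)) _ (sq_nonneg _) (hε n),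
      theta_per hθ (thw_lam hp)]
    have h1 := thw_le (m := m) C (by positivity) (add_le_add
      (mul_le_of_le_one_right (sq_nonneg ‖θ z‖) (he z))
      (mul_le_of_le_one_right (hε n).le (he (z + lam p))))
    linarith
  · intro ρ hρ
    have h0 : (0 : E3) ∈ cosupport θ m := by
      rw [hc, thw_mem_pre]
      exact Submodule.zero_mem _
    refine top_le_iff.1 ((thw_inf h0 hρ).symm.le.trans (lintegral_mono fun z => ?_))
    rw [thw_sup]
    refine le_mul_of_one_le_left' (ENNReal.one_le_ofReal.2 (Real.one_le_exp ?_))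
    linarith [ht z]
  · intro ρ hρ
    have hK : IsCompact (closedBall (0 : E3) (1 / 2) \ ball 0 ρ) :=
      (isCompact_closedBall _ _).diff isOpen_ball
    have hfin := thw_fin (θ := θ) (m := m) hK fun x hx hx' => by
      rw [hc, thw_mem_pre] at hx'
      have e := thw_lat_small hx' (mem_closedBall_zero_iff.1 hx.1)
      exact hx.2 (e ▸ mem_ball_self hρ)
    obtain ⟨B, hB⟩ := hK.bddAbove_image (thw_hq_cont (2 * j + 1)).continuousOn
    calc _ ≤ ∫⁻ z in closedBall (0 : E3) (1 / 2) \ ball 0 ρ, ⨆ n : ℕ,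
          ENNReal.ofReal (Real.exp (Real.pi * hq (2 * j + 1) z + C -
            1 / m * Real.log (‖θ z‖ ^ 2 + 1 / (n + 1)))) :=
          lintegral_mono_set (Set.sdiff_subset_sdiff_left ball_subset_closedBall)
      _ ≤ ∫⁻ z in closedBall (0 : E3) (1 / 2) \ ball 0 ρ,
          ENNReal.ofReal (Real.exp (Real.pi * B + C)) * (‖θ z‖ₑ ^ (2 / (m : ℝ)))⁻¹ := by
          apply setLIntegral_mono' hK.measurableSet
          intro z hz
          rw [thw_sup]
          gcongr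
          exact hB ⟨z, hz, rfl⟩
      _ = ENNReal.ofReal (Real.exp (Real.pi * B + C)) *
          ∫⁻ z in closedBall (0 : E3) (1 / 2) \ ball 0 ρ, (‖θ z‖ₑ ^ (2 / (m : ℝ)))⁻¹ :=
          lintegral_const_mul' _ _ ENNReal.ofReal_ne_top
      _ < ⊤ := ENNReal.mul_lt_top ENNReal.ofReal_lt_top hfin

end Pool.Agent.MP_c52a38_ag.Int

end
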